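import Pool.Agent.Lib.MP_54b7d9_co.Promo

set_option autoImplicit false

namespace Pool.Agent.Lib.MP_54b7d9_co

section
variable {P : Type} [Fintype P] [PartialOrder P]

theorem min_label_iterate {L : P → ℕ} {x : P} (hx : IsMin x)
    (hLx : L x = Fintype.card P) (k : ℕ) (hk : k + 1 ≤ Fintype.card P) :
    (promote^[k] L) x = Fintype.card P - k := by
  induction k with
  | zero => simpa using hLx
  | succ k ih =>
    have ih' := ih (by omega)
    rw [Function.iterate_succ_apply', promote_min hx (by rw [ih']; omega), ih']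
    omega

theorem two_le_card {x y : P} (hxy : x ≠ y) : 2 ≤ Fintype.card P := by
  have := Fintype.one_lt_card_iff.mpr ⟨x, y, hxy⟩
  omega

theorem sorted_aux {x y : P} (hy : IsMin y) (hxy : x ≠ y)
    (hab : ∀ z, z ≠ x → z ≠ y → x < z ∧ y < z) (L' : P → ℕ) (hlab : IsLabeling L')
    (hfr : Frozen L' 2) (hx2 : L' x = 2) : IsSorted L' := by
  intro a b hlt
  rcases Nat.lt_or_ge 2 (L' a) with h | h
  · exact hfr a b hlt h
  · have ha1 := hlab.pos a
    have hb1 := hlab.pos b
    rcases Nat.lt_or_ge 1 (L' a) with h' | h'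
    · -- a = x
      have hax : a = x := hlab.inj (by omega)
      subst hax
      by_contra hcon
      have hb : L' b ≠ L' a := fun h => hlt.ne' (hlab.inj h)
      have hb1' : L' b = 1 := by omega
      -- b is not y
      have hby : b ≠ y := by
        rintro rfl
        exact hlt.not_ge (hy hlt.le)
      have hbx : b ≠ a := hlt.ne'
      have h3 := (hab b hbx hby).2
      have hy3 : 2 < L' y := by
        have h4 := hlab.pos y
        have h5 : L' y ≠ L' a := fun h => hxy (hlab.inj h).symm
        have h6 : L' y ≠ L' b := fun h => hby (hlab.inj h).symm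
        omega
      have := hfr y b h3 hy3
      omega
    · have : L' b ≠ L' a := fun h => hlt.ne' (hlab.inj h)
      omega

theorem quasi_of_top {L : P → ℕ} (hL : IsLabeling L) {x y : P} (hx : IsMin x) (hy : IsMin y)
    (hxy : x ≠ y) (hab : ∀ z, z ≠ x → z ≠ y → x < z ∧ y < z)
    (hLx : L x = Fintype.card P) : QuasiTangled L := by
  have hn : 2 ≤ Fintype.card P := two_le_card hxy
  constructor
  · -- sorted after n - 2 steps
    have hfr := frozen_iterate hL (Fintype.card P - 2) (by omega)
    rw [show Fintype.card P - (Fintype.card P - 2) = 2 by omega] at hfr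
    have hx2 := min_label_iterate hx hLx (Fintype.card P - 2) (by omega)
    rw [show Fintype.card P - (Fintype.card P - 2) = 2 by omega] at hx2
    exact sorted_aux hy hxy hab _ (hL.iterate _) hfr hx2
  · -- not sorted before
    intro k hk
    by_contra hcon
    rw [not_le] at hcon
    have hk' : IsSorted (promote^[k] L) := hk
    have hlab : IsLabeling (promote^[k] L) := hL.iterate _
    have hxk : (promote^[k] L) x = Fintype.card P - k := min_label_iterate hx hLx k (by omega)
    -- elements labelled 1 and 2
    obtain ⟨a, _, ha⟩ := hlab.surjOn (show 1 ∈ Set.Icc 1 (Fintype.card P) from ⟨le_rfl, by omega⟩)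
    obtain ⟨b, _, hb⟩ := hlab.surjOn (show 2 ∈ Set.Icc 1 (Fintype.card P) from ⟨by omega, by omega⟩)
    have hab' : a ≠ b := by rintro rfl; omega
    have hax : a ≠ x := by rintro rfl; omega
    have hbx : b ≠ x := by rintro rfl; omega
    by_cases hay : a = y
    · have hby : b ≠ y := fun h => hab' (hay.trans h.symm)
      have := hk' x b (hab b hbx hby).1
      omega
    · have := hk' x a (hab a hax hay).1
      omega

open Classical in
/-- the labeling giving `x` the largest label and the others labels by a bijection -/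
noncomputable def topLab {m : ℕ} (x : P) (e : {p : P // p ≠ x} ≃ Fin m) (p : P) : ℕ :=
  if h : p = x then m + 1 else (e ⟨p, h⟩ : ℕ) + 1

theorem topLab_self {m : ℕ} (x : P) (e : {p : P // p ≠ x} ≃ Fin m) : topLab x e x = m + 1 := by
  rw [topLab, dif_pos rfl]

theorem topLab_ne {m : ℕ} (x : P) (e : {p : P // p ≠ x} ≃ Fin m) {p : P} (hp : p ≠ x) :
    topLab x e p = (e ⟨p, hp⟩ : ℕ) + 1 := by
  rw [topLab, dif_neg hp]

theorem topLab_isLabeling {m : ℕ} (x : P) (e : {p : P // p ≠ x} ≃ Fin m)
    (hm : Fintype.card P = m + 1) : IsLabeling (topLab x e) := by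
  apply isLabeling_of
  · intro p q hpq
    by_cases hp : p = x
    · subst hp
      by_cases hq : q = p
      · exact hq.symm
      · rw [topLab_self, topLab_ne _ _ hq] at hpq
        have := (e ⟨q, hq⟩).2
        omega
    · by_cases hq : q = x
      · subst hq
        rw [topLab_self, topLab_ne _ _ hp] at hpq
        have := (e ⟨p, hp⟩).2
        omega
      · rw [topLab_ne _ _ hp, topLab_ne _ _ hq] at hpq
        have h1 : e ⟨p, hp⟩ = e ⟨q, hq⟩ := Fin.ext (by omega)
        exact congrArg Subtype.val (e.injective h1)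
  · intro p
    by_cases hp : p = x
    · subst hp; rw [topLab_self]; omega
    · rw [topLab_ne _ _ hp]; omega
  · intro p
    by_cases hp : p = x
    · subst hp; rw [topLab_self]; omega
    · rw [topLab_ne _ _ hp]
      have := (e ⟨p, hp⟩).2
      omega

theorem topLab_inj {m : ℕ} (x : P) : Function.Injective (topLab (m := m) x) := by
  intro e e' h
  ext ⟨p, hp⟩
  have := congrFun h p
  rw [topLab_ne _ _ hp, topLab_ne _ _ hp] at this
  omega

theorem finite_quasi : Finite {L : P → ℕ // IsLabeling L ∧ QuasiTangled L} := by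
  apply Finite.of_injective (fun L => (fun p => (⟨L.1 p, by
    have := L.2.1.le p
    omega⟩ : Fin (Fintype.card P + 1))))
  intro L L' h
  apply Subtype.ext
  funext p
  have := congrFun h p
  simpa using this

theorem quasiCount_ge {x y : P} (hx : IsMin x) (hy : IsMin y)
    (hxy : x ≠ y) (hab : ∀ z, z ≠ x → z ≠ y → x < z ∧ y < z) :
    2 * (Fintype.card P - 1).factorial ≤ quasiCount P := by
  classical
  obtain ⟨m, hm⟩ : ∃ m, Fintype.card P = m + 1 := ⟨Fintype.card P - 1, by
    have := two_le_card hxy
    omega⟩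
  have hfin := finite_quasi (P := P)
  have hcard1 : ∀ z : P, Nat.card ({p : P // p ≠ z} ≃ Fin m) = m.factorial := by
    intro z
    have h1 : Fintype.card {p : P // p ≠ z} = m := by
      have h2 := Fintype.card_subtype_compl (fun p : P => p = z)
      rw [Fintype.card_subtype_eq, hm] at h2
      rw [Nat.add_sub_cancel] at h2
      exact h2
    have e := Fintype.equivFinOfCardEq h1
    rw [Nat.card_eq_fintype_card, Fintype.card_equiv e, h1]
  have hcard : Nat.card (({p : P // p ≠ x} ≃ Fin m) ⊕ ({p : P // p ≠ y} ≃ Fin m))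
      = 2 * m.factorial := by
    rw [Nat.card_sum, hcard1, hcard1]
    ring
  rw [hm, Nat.add_sub_cancel, ← hcard]
  unfold quasiCount
  apply Nat.card_le_card_of_injective (fun s : ({p : P // p ≠ x} ≃ Fin m) ⊕ ({p : P // p ≠ y} ≃ Fin m) =>
    Sum.elim
      (fun e => (⟨topLab x e, topLab_isLabeling x e hm,
        quasi_of_top (topLab_isLabeling x e hm) hx hy hxy hab (by rw [topLab_self, hm])⟩ :
        {L : P → ℕ // IsLabeling L ∧ QuasiTangled L}))
      (fun e => (⟨topLab y e, topLab_isLabeling y e hm,
        quasi_of_top (topLab_isLabeling y e hm) hy hx hxy.symm (fun z h1 h2 => (hab z h2 h1).symm)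
          (by rw [topLab_self, hm])⟩ :
        {L : P → ℕ // IsLabeling L ∧ QuasiTangled L})) s)
  have hcross : ∀ (e : {p : P // p ≠ x} ≃ Fin m) (e' : {p : P // p ≠ y} ≃ Fin m),
      topLab x e ≠ topLab y e' := by
    intro e e' h
    have h1 := congrFun h x
    rw [topLab_self, topLab_ne _ _ hxy] at h1
    have := (e' ⟨x, hxy⟩).2
    omega
  rintro (e | e) (e' | e') h
  · have := congrArg Subtype.val h
    simp only [Sum.elim_inl] at this
    rw [topLab_inj x this]
  · have := congrArg Subtype.val h
    simp only [Sum.elim_inl, Sum.elim_inr] at this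
    exact absurd this (hcross e e')
  · have := congrArg Subtype.val h
    simp only [Sum.elim_inl, Sum.elim_inr] at this
    exact absurd this.symm (hcross e' e)
  · have := congrArg Subtype.val h
    simp only [Sum.elim_inr] at this
    rw [topLab_inj y this]

end

/-- the order on `Fin n` in which `0`, `1` are incomparable and everything else is a chain above
them -/
@[reducible] def twoChain (n : ℕ) : PartialOrder (Fin n) where
  le i j := i = j ∨ (i.val < j.val ∧ 2 ≤ j.val)
  lt i j := i.val < j.val ∧ 2 ≤ j.val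
  le_refl i := Or.inl rfl
  le_trans i j k h1 h2 := by
    rcases h1 with rfl | h1
    · exact h2
    · rcases h2 with rfl | h2
      · exact Or.inr h1
      · exact Or.inr ⟨h1.1.trans h2.1, h2.2⟩
  lt_iff_le_not_ge i j := by
    constructor
    · rintro ⟨h1, h2⟩
      refine ⟨Or.inr ⟨h1, h2⟩, ?_⟩
      rintro (rfl | ⟨h3, _⟩)
      · omega
      · omega
    · rintro ⟨h1, h2⟩
      rcases h1 with rfl | h1
      · exact absurd (Or.inl rfl) h2
      · exact h1
  le_antisymm i j h1 h2 := by
    rcases h1 with h1 | h1
    · exact h1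
    · rcases h2 with h2 | h2
      · exact h2.symm
      · omega

theorem le_maxQuasi (n : ℕ) (o : PartialOrder (Fin n)) : @quasiCount (Fin n) _ o ≤ maxQuasi n := by
  apply le_csSup
  · refine ⟨Nat.card (Fin n → Fin (n + 1)), ?_⟩
    rintro q ⟨o', rfl⟩
    unfold quasiCount
    apply Nat.card_le_card_of_injective (fun L => (fun p => (⟨L.1 p, by
      have := (L.2.1.mapsTo (Set.mem_univ p)).2
      rw [Fintype.card_fin] at this
      omega⟩ : Fin (n + 1))))
    intro L L' h
    apply Subtype.ext
    funext p
    have := congrFun h p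
    simpa using this
  · exact ⟨o, rfl⟩

theorem main (n : ℕ) (hn : 2 ≤ n) : 2 * (n - 1).factorial ≤ maxQuasi n := by
  refine le_trans ?_ (le_maxQuasi n (twoChain n))
  have h := @quasiCount_ge (Fin n) _ (twoChain n) ⟨0, by omega⟩ ⟨1, by omega⟩ ?_ ?_ ?_ ?_
  · rwa [Fintype.card_fin] at h
  · rintro b (h | h)
    · exact Or.inl h.symm
    · exact absurd h.2 (by show ¬ 2 ≤ 0; omega)
  · rintro b (h | h)
    · exact Or.inl h.symm
    · exact absurd h.2 (by show ¬ 2 ≤ 1; omega)
  · intro h
    have := congrArg Fin.val h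
    simp at this
  · intro z hzx hzy
    have h0 : z.val ≠ 0 := fun h => hzx (Fin.ext h)
    have h1 : z.val ≠ 1 := fun h => hzy (Fin.ext h)
    refine ⟨⟨?_, ?_⟩, ?_, ?_⟩
    · show 0 < z.val; omega
    · omega
    · show 1 < z.val; omega
    · omega

end Pool.Agent.Lib.MP_54b7d9_co
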