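import Mathlib

set_option autoImplicit false

namespace Pool.Agent.Lib.MP_54b7d9_co

/-- A labeling of `P`: a bijection from `P` onto `{1, …, n}`, `n` the number of elements. -/
def IsLabeling {P : Type} [Fintype P] (L : P → ℕ) : Prop :=
  Set.BijOn L Set.univ (Set.Icc 1 (Fintype.card P))

/-- A labeling is a linear extension if `a < b` implies `L a < L b`. -/
def IsSorted {P : Type} [PartialOrder P] (L : P → ℕ) : Prop := ∀ a b : P, a < b → L a < L b

open Classical in
/-- The `L`-successor of a non-maximal `x`: the element above `x` with the smallest label.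
(For maximal `x` the value is `x`.) -/
noncomputable def next {P : Type} [PartialOrder P] (L : P → ℕ) (x : P) : P :=
  if h : ∃ y, x < y ∧ ∀ z, x < z → L y ≤ L z then h.choose else x

/-- The elements `v_1, v_2, …` of the promotion chain: `v_1` has label `1` and `v_{i+1}` is the
successor of `v_i`. -/
def OnChain {P : Type} [PartialOrder P] (L : P → ℕ) (x : P) : Prop :=
  ∃ v : P, L v = 1 ∧ ∃ i : ℕ, (next L)^[i] v = x

open Classical in
/-- Extended promotion. -/
noncomputable def promote {P : Type} [Fintype P] [PartialOrder P] (L : P → ℕ) (x : P) : ℕ :=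
  if OnChain L x then (if IsMax x then Fintype.card P else L (next L x) - 1) else L x - 1

/-- `L` is quasi-tangled: its sorting time, the least `k` such that `k` promotions of `L` give a
linear extension, is `n - 2`. -/
def QuasiTangled {P : Type} [Fintype P] [PartialOrder P] (L : P → ℕ) : Prop :=
  IsLeast {k : ℕ | IsSorted (promote^[k] L)} (Fintype.card P - 2)

/-- The number of quasi-tangled labelings of a poset. -/
noncomputable def quasiCount (P : Type) [Fintype P] [PartialOrder P] : ℕ :=
  Nat.card {L : P → ℕ // IsLabeling L ∧ QuasiTangled L}

/-- `M(n)`: the largest number of quasi-tangled labelings of a poset with `n` elements. -/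
noncomputable def maxQuasi (n : ℕ) : ℕ :=
  sSup {q : ℕ | ∃ o : PartialOrder (Fin n), q = @quasiCount (Fin n) _ o}

end Pool.Agent.Lib.MP_54b7d9_co
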