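import Pool.Agent.Lib.MP_54b7d9_co.ThinMain

set_option autoImplicit false

namespace Pool.Agent.Lib.MP_54b7d9_co

section
variable {P : Type} [Fintype P] [PartialOrder P]

/-- if an element of a two-element down-set `low b` has a nonempty set of small down-sets, then
it has only one, and that one has one element -/
theorem smallDown_of_pair {a b : P} (hb : (low b).card = 2) (ha : a ∈ low b)
    (hs : (smallDown a).Nonempty) : smallDown a = {low a} ∧ (low a).card = 1 := by
  classical
  have hab : a < b := mem_low.mp ha
  -- any element with nonempty strict down-set below `a` is `a`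
  have key : ∀ c : P, c ≤ a → 1 ≤ (low c).card → c = a := by
    intro c hc h1
    by_contra hne
    obtain ⟨e, he⟩ := Finset.card_pos.mp (show 0 < (low c).card by omega)
    have hec : e < c := mem_low.mp he
    have hca : c < a := lt_of_le_of_ne hc hne
    have hsub : ({e, c, a} : Finset P) ⊆ low b := by
      intro x hx
      rw [Finset.mem_insert, Finset.mem_insert, Finset.mem_singleton] at hx
      rw [mem_low]
      rcases hx with rfl | rfl | rfl
      · exact hec.trans (hca.trans hab)
      · exact hca.trans hab
      · exact hab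
    have hc3 : ({e, c, a} : Finset P).card = 3 := by
      rw [Finset.card_eq_three]
      exact ⟨e, c, a, hec.ne, (hec.trans hca).ne, hca.ne, rfl⟩
    have := Finset.card_le_card hsub
    omega
  obtain ⟨A, hA⟩ := hs
  obtain ⟨c, hc1, hc2, hc3, rfl⟩ := mem_smallDown.mp hA
  have hca := key c hc1 hc2
  subst hca
  have hlt : (low c).card < (low b).card := by
    apply Finset.card_lt_card
    rw [Finset.ssubset_iff_of_subset]
    · exact ⟨c, ha, fun h => lt_irrefl _ (mem_low.mp h)⟩
    · intro x hx
      exact mem_low.mpr ((mem_low.mp hx).trans hab)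
  refine ⟨?_, by omega⟩
  ext B
  rw [Finset.mem_singleton]
  constructor
  · intro hB
    obtain ⟨c', h1, h2, _, rfl⟩ := mem_smallDown.mp hB
    rw [key c' h1 h2]
  · rintro rfl
    exact hA

theorem sum_wt_split (p : P) (n : ℕ) (hn : 2 ≤ n) : ∑ A ∈ smallDown p, wt n A.card =
    2 * (n - 2) * (smallDown p).card + 2 * ((smallDown p).filter (fun A => A.card = 2)).card := by
  classical
  have h : ∀ A ∈ smallDown p, wt n A.card = 2 * (n - 2) + (if A.card = 2 then 2 else 0) := by
    intro A _
    unfold wt
    split_ifs <;> omega
  rw [Finset.sum_congr rfl h, Finset.sum_add_distrib, Finset.sum_const, smul_eq_mul,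
    ← Finset.sum_filter, Finset.sum_const, smul_eq_mul]
  ring

theorem sum_wt_kappa {κ : ℕ} (hκ : ∀ p : P, (smallDown p).card ≤ κ) (h : 3 ≤ Fintype.card P) :
    ∑ p : P, ∑ A ∈ smallDown p, wt (Fintype.card P) A.card ≤
      2 * κ * ((Fintype.card P - 1) * (Fintype.card P - 2)) := by
  classical
  rw [sum_supp]
  have hsupp := supp_card (P := P) (by omega)
  set N := Fintype.card P with hN
  by_cases hA : ∃ b : P, (low b).card = 2 ∧ ∀ a ∈ low b, a ∉ supp P
  · obtain ⟨b, hb2, hb⟩ := hA
    have hsub : supp P ⊆ Finset.univ \ low b := by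
      intro x hx
      simp only [Finset.mem_sdiff, Finset.mem_univ, true_and]
      exact fun hxb => hb x hxb hx
    have hcard : (supp P).card ≤ N - 2 := by
      refine (Finset.card_le_card hsub).trans ?_
      rw [Finset.card_sdiff_of_subset (Finset.subset_univ _), Finset.card_univ, hb2]
    have h1 : ∀ p ∈ supp P, ∑ A ∈ smallDown p, wt N A.card ≤ κ * (2 * (N - 1)) := by
      intro p _
      calc ∑ A ∈ smallDown p, wt N A.card ≤ (smallDown p).card * (2 * (N - 1)) := by
            rw [← smul_eq_mul]
            exact Finset.sum_le_card_nsmul _ _ _ (fun A _ => wt_le _ _)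
        _ ≤ _ := Nat.mul_le_mul_right _ (hκ p)
    calc _ ≤ (supp P).card * (κ * (2 * (N - 1))) := by
          rw [← smul_eq_mul]
          exact Finset.sum_le_card_nsmul _ _ _ h1
      _ ≤ (N - 2) * (κ * (2 * (N - 1))) := Nat.mul_le_mul_right _ hcard
      _ = _ := by ring
  · have hA' : ∀ b : P, (low b).card = 2 → ∃ a ∈ low b, a ∈ supp P := by
      intro b hb
      by_contra hcon
      apply hA
      refine ⟨b, hb, fun a ha has => hcon ⟨a, ha, has⟩⟩
    -- the weight of every element of the support
    have hw : ∀ p ∈ supp P, ∑ A ∈ smallDown p, wt N A.card ≤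
        2 * (N - 2) * κ + 2 * (κ - 1) := by
      intro p hp
      rw [sum_wt_split p N (by omega)]
      have hk := hκ p
      have hpos : 0 < (smallDown p).card := Finset.card_pos.mpr (mem_supp.mp hp)
      have hf : ((smallDown p).filter (fun A => A.card = 2)).card ≤ κ - 1 := by
        by_cases he : ((smallDown p).filter (fun A => A.card = 2)).Nonempty
        · obtain ⟨A, hAm⟩ := he
          rw [Finset.mem_filter] at hAm
          obtain ⟨hAp, hA2⟩ := hAm
          obtain ⟨b, hb1, _, _, rfl⟩ := mem_smallDown.mp hAp
          obtain ⟨a, ha, has⟩ := hA' b hA2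
          obtain ⟨_, hone⟩ := smallDown_of_pair hA2 ha (mem_supp.mp has)
          have hap : low a ∈ smallDown p := mem_smallDown.mpr
            ⟨a, (mem_low.mp ha).le.trans hb1, by omega, by omega, rfl⟩
          have hlt : ((smallDown p).filter (fun A => A.card = 2)).card < (smallDown p).card := by
            apply Finset.card_lt_card
            rw [Finset.ssubset_iff_of_subset (Finset.filter_subset _ _)]
            refine ⟨low a, hap, fun hm => ?_⟩
            rw [Finset.mem_filter] at hm
            omega
          omega
        · rw [Finset.not_nonempty_iff_eq_empty] at he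
          rw [he, Finset.card_empty]
          exact Nat.zero_le _
      have e1 : 2 * (N - 2) * (smallDown p).card ≤ 2 * (N - 2) * κ := Nat.mul_le_mul_left _ hk
      omega
    by_cases hex : ∃ b : P, (low b).card = 2
    · obtain ⟨b, hb⟩ := hex
      obtain ⟨a, ha, has⟩ := hA' b hb
      obtain ⟨hone, hone'⟩ := smallDown_of_pair hb ha (mem_supp.mp has)
      have hwa : ∑ A ∈ smallDown a, wt N A.card = 2 * (N - 2) := by
        rw [hone, Finset.sum_singleton, hone', wt, if_neg (by omega)]
      have hκ1 : 1 ≤ κ := by
        have := hκ a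
        rw [hone, Finset.card_singleton] at this
        exact this
      rw [← Finset.add_sum_erase _ _ has, hwa]
      have hbd : ∑ p ∈ (supp P).erase a, ∑ A ∈ smallDown p, wt N A.card ≤
          (N - 2) * (2 * (N - 2) * κ + 2 * (κ - 1)) := by
        calc _ ≤ ((supp P).erase a).card * (2 * (N - 2) * κ + 2 * (κ - 1)) := by
              rw [← smul_eq_mul]
              exact Finset.sum_le_card_nsmul _ _ _
                (fun p hp => hw p (Finset.mem_of_mem_erase hp))
          _ ≤ _ := by
              apply Nat.mul_le_mul_right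
              rw [Finset.card_erase_of_mem has]
              omega
      refine (Nat.add_le_add_left hbd _).trans (le_of_eq ?_)
      obtain ⟨k, rfl⟩ := Nat.exists_eq_add_of_le' hκ1
      obtain ⟨m, hm⟩ := Nat.exists_eq_add_of_le' h
      rw [hm, show m + 3 - 2 = m + 1 by omega, show m + 3 - 1 = m + 2 by omega,
        Nat.add_sub_cancel]
      ring
    · have h1 : ∀ p ∈ supp P, ∑ A ∈ smallDown p, wt N A.card ≤ κ * (2 * (N - 2)) := by
        intro p _
        calc ∑ A ∈ smallDown p, wt N A.card ≤ (smallDown p).card * (2 * (N - 2)) := by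
              rw [← smul_eq_mul]
              apply Finset.sum_le_card_nsmul
              intro A hAm
              rw [wt, if_neg]
              intro hA2
              obtain ⟨b, _, _, _, rfl⟩ := mem_smallDown.mp hAm
              exact hex ⟨b, hA2⟩
          _ ≤ _ := Nat.mul_le_mul_right _ (hκ p)
      calc _ ≤ (supp P).card * (κ * (2 * (N - 2))) := by
            rw [← smul_eq_mul]
            exact Finset.sum_le_card_nsmul _ _ _ h1
        _ ≤ (N - 1) * (κ * (2 * (N - 2))) := Nat.mul_le_mul_right _ hsupp
        _ = _ := by ring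

theorem quasi_le_kappa {κ : ℕ} (h3 : 3 ≤ Fintype.card P) (hκ : ∀ p : P, (smallDown p).card ≤ κ) :
    quasiCount P ≤ 2 * κ * (Fintype.card P - 1).factorial := by
  obtain ⟨n, hn⟩ := Nat.exists_eq_add_of_le' h3
  have h1 := quasiCount_le3 hn
  have h2 := sum_wt_kappa hκ h3
  rw [hn] at h2
  rw [hn]
  refine (h1.trans (Nat.mul_le_mul_left _ h2)).trans (le_of_eq ?_)
  rw [show n + 3 - 1 = n + 2 by omega, show n + 3 - 2 = n + 1 by omega, Nat.factorial_succ,
    Nat.factorial_succ]
  ring

end

end Pool.Agent.Lib.MP_54b7d9_co
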