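import Pool.Agent.Lib.MP_54b7d9_co.Defs

set_option autoImplicit false

namespace Pool.Agent.Lib.MP_54b7d9_co

variable {P : Type} [Fintype P] [PartialOrder P]

theorem IsLabeling.inj {L : P → ℕ} (h : IsLabeling L) : Function.Injective L :=
  Set.injOn_univ.mp h.injOn

theorem IsLabeling.pos {L : P → ℕ} (h : IsLabeling L) (x : P) : 1 ≤ L x :=
  (h.mapsTo (Set.mem_univ x)).1

theorem IsLabeling.le {L : P → ℕ} (h : IsLabeling L) (x : P) : L x ≤ Fintype.card P :=
  (h.mapsTo (Set.mem_univ x)).2

theorem isLabeling_of {L : P → ℕ} (h1 : Function.Injective L) (h2 : ∀ x, 1 ≤ L x)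
    (h3 : ∀ x, L x ≤ Fintype.card P) : IsLabeling L := by
  classical
  refine ⟨fun x _ => ⟨h2 x, h3 x⟩, h1.injOn, ?_⟩
  have hc : (Finset.univ.image L) = Finset.Icc 1 (Fintype.card P) := by
    apply Finset.eq_of_subset_of_card_le
    · intro i hi
      rw [Finset.mem_image] at hi
      obtain ⟨x, _, rfl⟩ := hi
      exact Finset.mem_Icc.mpr ⟨h2 x, h3 x⟩
    · rw [Finset.card_image_of_injective _ h1]
      simp
  intro i hi
  have : i ∈ Finset.univ.image L := by
    rw [hc]; exact Finset.mem_Icc.mpr hi
  rw [Finset.mem_image] at this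
  obtain ⟨x, _, hx⟩ := this
  exact ⟨x, Set.mem_univ _, hx⟩

theorem exists_succ {L : P → ℕ} {x : P} (hx : ¬ IsMax x) :
    ∃ y, x < y ∧ ∀ z, x < z → L y ≤ L z := by
  classical
  rw [not_isMax_iff] at hx
  obtain ⟨b, hb⟩ := hx
  obtain ⟨y, hy, hmin⟩ := Finset.exists_min_image (Finset.univ.filter (fun z => x < z)) L
    ⟨b, Finset.mem_filter.mpr ⟨Finset.mem_univ _, hb⟩⟩
  exact ⟨y, (Finset.mem_filter.mp hy).2, fun z hz => hmin z (Finset.mem_filter.mpr ⟨Finset.mem_univ _, hz⟩)⟩

theorem next_spec {L : P → ℕ} {x : P} (hx : ¬ IsMax x) :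
    x < next L x ∧ ∀ z, x < z → L (next L x) ≤ L z := by
  have h := exists_succ (L := L) hx
  rw [next, dif_pos h]
  exact h.choose_spec

theorem next_max {L : P → ℕ} {x : P} (hx : IsMax x) : next L x = x := by
  rw [next, dif_neg]
  rintro ⟨y, hy, _⟩
  exact hy.not_ge (hx hy.le)

theorem le_next (L : P → ℕ) (x : P) : x ≤ next L x := by
  by_cases hx : IsMax x
  · rw [next_max hx]
  · exact (next_spec hx).1.le

theorem le_iterate (L : P → ℕ) (x : P) (i : ℕ) : x ≤ (next L)^[i] x := by
  induction i with
  | zero => exact le_rfl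
  | succ i ih =>
    rw [Function.iterate_succ_apply']
    exact ih.trans (le_next L _)

theorem iterate_mono (L : P → ℕ) (x : P) {i j : ℕ} (h : i ≤ j) :
    (next L)^[i] x ≤ (next L)^[j] x := by
  obtain ⟨k, rfl⟩ := Nat.exists_eq_add_of_le h
  rw [add_comm, Function.iterate_add_apply]
  exact le_iterate L _ k

theorem OnChain.next {L : P → ℕ} {x : P} (h : OnChain L x) : OnChain L (next L x) := by
  obtain ⟨v, hv, i, hi⟩ := h
  exact ⟨v, hv, i + 1, by rw [Function.iterate_succ_apply', hi]⟩

theorem OnChain.next_le {L : P → ℕ} (hL : IsLabeling L) {a b : P} (ha : OnChain L a)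
    (hb : OnChain L b) (hab : a < b) : MP_54b7d9_co.next L a ≤ b := by
  obtain ⟨v, hv, i, hi⟩ := ha
  obtain ⟨v', hv', j, hj⟩ := hb
  have : v = v' := hL.inj (hv.trans hv'.symm)
  subst this
  have hij : i < j := by
    by_contra hcon
    rw [not_lt] at hcon
    have := iterate_mono L v hcon
    rw [hi, hj] at this
    exact absurd hab (not_lt_of_ge this)
  have := iterate_mono L v (Nat.succ_le_of_lt hij)
  rw [Function.iterate_succ_apply', hi, hj] at this
  exact this

theorem OnChain.lt_or_ge {L : P → ℕ} (hL : IsLabeling L) {a b : P} (ha : OnChain L a)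
    (hb : OnChain L b) : a < b ∨ b < a ∨ a = b := by
  obtain ⟨v, hv, i, hi⟩ := ha
  obtain ⟨v', hv', j, hj⟩ := hb
  have : v = v' := hL.inj (hv.trans hv'.symm)
  subst this
  rcases le_total i j with h | h
  · have := iterate_mono L v h
    rw [hi, hj] at this
    rcases this.lt_or_eq with h | h
    · exact Or.inl h
    · exact Or.inr (Or.inr h)
  · have := iterate_mono L v h
    rw [hi, hj] at this
    rcases this.lt_or_eq with h | h
    · exact Or.inr (Or.inl h)
    · exact Or.inr (Or.inr h.symm)

theorem onChain_of_one {L : P → ℕ} {x : P} (h : L x = 1) : OnChain L x := ⟨x, h, 0, rfl⟩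

theorem next_ne_one {L : P → ℕ} (hL : IsLabeling L) {x : P} (hx : OnChain L x)
    (hm : ¬ IsMax x) : 2 ≤ L (MP_54b7d9_co.next L x) := by
  obtain ⟨v, hv, i, hi⟩ := hx
  have h1 : v ≤ x := by rw [← hi]; exact le_iterate L v i
  have h2 : v < MP_54b7d9_co.next L x := h1.trans_lt (next_spec hm).1
  have h3 := hL.pos (MP_54b7d9_co.next L x)
  rcases Nat.lt_or_ge 1 (L (MP_54b7d9_co.next L x)) with h | h
  · exact h
  · exfalso
    have : L (MP_54b7d9_co.next L x) = L v := by omega
    exact h2.ne' (hL.inj this)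

theorem off_ge_two {L : P → ℕ} (hL : IsLabeling L) {x : P} (hx : ¬ OnChain L x) : 2 ≤ L x := by
  have h1 := hL.pos x
  rcases Nat.lt_or_ge 1 (L x) with h | h
  · exact h
  · exact absurd (onChain_of_one (by omega)) hx

theorem promote_off {L : P → ℕ} {x : P} (hx : ¬ OnChain L x) : promote L x = L x - 1 := by
  rw [promote, if_neg hx]

theorem promote_max {L : P → ℕ} {x : P} (hx : OnChain L x) (hm : IsMax x) :
    promote L x = Fintype.card P := by
  rw [promote, if_pos hx, if_pos hm]

theorem promote_on {L : P → ℕ} {x : P} (hx : OnChain L x) (hm : ¬ IsMax x) :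
    promote L x = L (MP_54b7d9_co.next L x) - 1 := by
  rw [promote, if_pos hx, if_neg hm]

/-- promotion of a labeling is a labeling -/
theorem IsLabeling.promote {L : P → ℕ} (hL : IsLabeling L) : IsLabeling (promote L) := by
  -- trichotomy of values
  have key : ∀ x : P, (∃ y : P, 2 ≤ L y ∧ MP_54b7d9_co.promote L x = L y - 1 ∧
      ((¬ OnChain L x ∧ y = x) ∨ (OnChain L x ∧ ¬ IsMax x ∧ y = MP_54b7d9_co.next L x))) ∨
      (OnChain L x ∧ IsMax x ∧ MP_54b7d9_co.promote L x = Fintype.card P) := by
    intro x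
    by_cases hx : OnChain L x
    · by_cases hm : IsMax x
      · exact Or.inr ⟨hx, hm, promote_max hx hm⟩
      · exact Or.inl ⟨_, next_ne_one hL hx hm, promote_on hx hm, Or.inr ⟨hx, hm, rfl⟩⟩
    · exact Or.inl ⟨x, off_ge_two hL hx, promote_off hx, Or.inl ⟨hx, rfl⟩⟩
  have maxuniq : ∀ a b : P, OnChain L a → IsMax a → OnChain L b → IsMax b → a = b := by
    intro a b ha hma hb hmb
    rcases ha.lt_or_ge hL hb with h | h | h
    · exact absurd h (hma.not_lt)
    · exact absurd h (hmb.not_lt)
    · exact h
  have nextinj : ∀ a b : P, OnChain L a → ¬ IsMax a → OnChain L b → ¬ IsMax b →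
      MP_54b7d9_co.next L a = MP_54b7d9_co.next L b → a = b := by
    intro a b ha hma hb hmb h
    rcases ha.lt_or_ge hL hb with h1 | h1 | h1
    · have h2 := ha.next_le hL hb h1
      rw [h] at h2
      exact absurd (next_spec (L := L) hmb).1 (not_lt_of_ge h2)
    · have h2 := hb.next_le hL ha h1
      rw [← h] at h2
      exact absurd (next_spec (L := L) hma).1 (not_lt_of_ge h2)
    · exact h1
  apply isLabeling_of
  · intro a b hab
    rcases key a with ⟨y, hy2, hy, hya⟩ | ⟨ha, hma, hva⟩
    · rcases key b with ⟨z, hz2, hz, hzb⟩ | ⟨hb, hmb, hvb⟩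
      · rw [hy, hz] at hab
        have hyz : y = z := hL.inj (by omega)
        subst hyz
        rcases hya with ⟨h1, h2⟩ | ⟨h1, h1m, h2⟩
        · rcases hzb with ⟨h3, h4⟩ | ⟨h3, h3m, h4⟩
          · rw [← h2, ← h4]
          · exfalso
            apply h1
            rw [← h2, h4]
            exact h3.next
        · rcases hzb with ⟨h3, h4⟩ | ⟨h3, h3m, h4⟩
          · exfalso
            apply h3
            rw [← h4, h2]
            exact h1.next
          · exact nextinj a b h1 h1m h3 h3m (h2.symm.trans h4)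
      · exfalso
        rw [hy, hvb] at hab
        have := hL.le y
        omega
    · rcases key b with ⟨z, hz2, hz, hzb⟩ | ⟨hb, hmb, hvb⟩
      · exfalso
        rw [hz, hva] at hab
        have := hL.le z
        omega
      · exact maxuniq a b ha hma hb hmb
  · intro x
    rcases key x with ⟨y, hy2, hy, _⟩ | ⟨_, _, hv⟩
    · rw [hy]; omega
    · rw [hv]
      exact Fintype.card_pos_iff.mpr ⟨x⟩
  · intro x
    rcases key x with ⟨y, hy2, hy, _⟩ | ⟨_, _, hv⟩
    · rw [hy]
      have := hL.le y
      omega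
    · rw [hv]

theorem IsLabeling.iterate {L : P → ℕ} (hL : IsLabeling L) (k : ℕ) :
    IsLabeling (MP_54b7d9_co.promote^[k] L) := by
  induction k with
  | zero => exact hL
  | succ k ih =>
    rw [Function.iterate_succ_apply']
    exact ih.promote

/-- Elements with large labels are frozen. -/
def Frozen (L : P → ℕ) (m : ℕ) : Prop := ∀ a b : P, a < b → m < L a → L a < L b

theorem Frozen.promote {L : P → ℕ} (hL : IsLabeling L) {m : ℕ} (h : Frozen L m) (hm : 1 ≤ m) :
    Frozen (MP_54b7d9_co.promote L) (m - 1) := by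
  intro a b hab hma
  -- value at b
  have hb_on : OnChain L b → m < L b → L b ≤ MP_54b7d9_co.promote L b := by
    intro hb hlb
    by_cases hmb : IsMax b
    · rw [promote_max hb hmb]; exact hL.le b
    · rw [promote_on hb hmb]
      have := h b _ (next_spec (L := L) hmb).1 hlb
      omega
  by_cases ha : OnChain L a
  · have hna : ¬ IsMax a := fun hmx => hmx.not_lt hab
    rw [promote_on ha hna] at hma ⊢
    have h1 := (next_spec (L := L) hna).2 b hab
    by_cases hb : OnChain L b
    · have h2 := hb_on hb (by omega)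
      omega
    · rw [promote_off hb]
      have h3 : L (MP_54b7d9_co.next L a) ≠ L b := by
        intro heq
        apply hb
        rw [← hL.inj heq]
        exact ha.next
      omega
  · rw [promote_off ha] at hma ⊢
    have h2 := off_ge_two hL ha
    have h3 := h a b hab (by omega)
    by_cases hb : OnChain L b
    · have h4 := hb_on hb (by omega)
      omega
    · rw [promote_off hb]
      omega

theorem frozen_iterate {L : P → ℕ} (hL : IsLabeling L) (k : ℕ) (hk : k ≤ Fintype.card P) :
    Frozen (MP_54b7d9_co.promote^[k] L) (Fintype.card P - k) := by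
  induction k with
  | zero =>
    intro a b _ h
    have := hL.le a
    simp only [Function.iterate_zero, id] at h
    omega
  | succ k ih =>
    rw [Function.iterate_succ_apply']
    have h1 := (ih (by omega)).promote (hL.iterate k) (by omega)
    rwa [Nat.sub_sub] at h1

/-- a minimal element is on the chain only if its label is one -/
theorem min_off {L : P → ℕ} {x : P} (hx : IsMin x) (h : L x ≠ 1) : ¬ OnChain L x := by
  rintro ⟨v, hv, i, hi⟩
  have h1 : v ≤ x := by rw [← hi]; exact le_iterate L v i
  have h2 : v = x := le_antisymm h1 (hx h1)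
  rw [h2] at hv
  exact h hv

theorem promote_min {L : P → ℕ} {x : P} (hx : IsMin x) (h : L x ≠ 1) :
    promote L x = L x - 1 := promote_off (min_off hx h)

end Pool.Agent.Lib.MP_54b7d9_co
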