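import Pool.Agent.Lib.MP_54b7d9_co.UpperMain

set_option autoImplicit false

namespace Pool.Agent.Lib.MP_54b7d9_co

section
variable {P : Type} [Fintype P] [PartialOrder P]

open Classical in
/-- the set of the elements strictly below `b` -/
noncomputable def low (b : P) : Finset P := Finset.univ.filter (fun e => e < b)

open Classical in
/-- the sets `low b` with one or two elements, for the elements `b ≤ p` -/
noncomputable def smallDown (p : P) : Finset (Finset P) :=
  (Finset.univ.filter (fun b : P => b ≤ p ∧ 1 ≤ (low b).card ∧ (low b).card ≤ 2)).image low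

theorem mem_low {e b : P} : e ∈ low b ↔ e < b := by
  classical
  simp [low]

theorem mem_smallDown {p : P} {A : Finset P} : A ∈ smallDown p ↔
    ∃ b, b ≤ p ∧ 1 ≤ (low b).card ∧ (low b).card ≤ 2 ∧ low b = A := by
  classical
  simp only [smallDown, Finset.mem_image, Finset.mem_filter, Finset.mem_univ, true_and]
  constructor
  · rintro ⟨b, ⟨h1, h2, h3⟩, h4⟩
    exact ⟨b, h1, h2, h3, h4⟩
  · rintro ⟨b, h1, h2, h3, h4⟩
    exact ⟨b, ⟨h1, h2, h3⟩, h4⟩

/-- the necessary condition on the positions `p, q, r` of the three largest labels -/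
def Cond3 (p q r : P) : Prop :=
  (∃ A ∈ smallDown p, ∀ e ∈ A, e = q ∨ e = r) ∨ (∃ A ∈ smallDown q, A.card = 2 ∧ r ∈ A)

theorem cond3_of_quasi {L : P → ℕ} (hL : IsLabeling L) (hq : QuasiTangled L) {n : ℕ}
    (hn : Fintype.card P = n + 3) {p q r : P} (hp : L p = n + 1) (hqq : L q = n + 2)
    (hr : L r = n + 3) : Cond3 p q r := by
  classical
  obtain ⟨hs, hleast⟩ := hq
  rw [hn] at hs hleast
  have hs' : IsSorted (promote (promote^[n] L)) := by
    have h : IsSorted (promote^[n + 3 - 2] L) := hs
    rw [show n + 3 - 2 = n + 1 by omega, Function.iterate_succ_apply'] at h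
    exact h
  have hns : ¬ IsSorted (promote^[n] L) := by
    intro h
    have := hleast h
    omega
  have hlab := hL.iterate n
  have hfr := frozen_iterate hL n (by omega)
  have hun := loc_or_untouched hL n
  have hdown := moved_down hL n
  rw [hn] at hfr hdown
  rw [show n + 3 - n = 3 by omega] at hfr
  generalize promote^[n] L = M at *
  have hge : ∀ x : P, 1 ≤ M x := hlab.pos
  have hsmall : ∀ e b : P, e < b → M b ≤ 3 → M e ≤ 3 := by
    intro e b heb hb
    by_contra hcon
    have := hfr e b heb (by omega)
    omega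
  have hne : ∀ a b : P, a ≠ b → M a ≠ M b := fun a b hab h => hab (hlab.inj h)
  have hpair : ∃ a b : P, a < b ∧ M b < M a := by
    by_contra hcon
    apply hns
    intro a b hab
    by_contra hcon2
    exact hcon ⟨a, b, hab, lt_of_le_of_ne (not_lt.mp hcon2) (hne b a hab.ne')⟩
  have hunl : ∀ a b : P, a < b → M b < M a → (M a = 2 ∧ a = q) ∨ (M a = 3 ∧ a = r) := by
    intro a b hab hlt
    have h3 : M a ≤ 3 := by
      by_contra hcon
      have := hfr a b hab (by omega)
      omega
    have h1 := hge b
    rcases hun a with h | ⟨h4, h5⟩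
    · have := h b hab
      omega
    · rcases Nat.lt_or_ge (M a) 3 with h6 | h6
      · left
        exact ⟨by omega, hL.inj (by omega)⟩
      · right
        exact ⟨by omega, hL.inj (by omega)⟩
  -- the case of an unsorted pair whose upper element has label one
  have hcase1 : ∀ a b : P, a < b → M b < M a → M b = 1 → Cond3 p q r := by
    intro a b hab hlt h1
    have hsub : ∀ e ∈ low b, e = q ∨ e = r := by
      intro e he
      rw [mem_low] at he
      have h3 := hge e
      have h4 := hne e b he.ne
      rcases hunl e b he (by omega) with ⟨_, h⟩ | ⟨_, h⟩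
      · exact Or.inl h
      · exact Or.inr h
    obtain ⟨c, hc1, hc2⟩ := hdown b (by omega)
    have hcp : c = p := hL.inj (by omega)
    subst hcp
    left
    refine ⟨low b, mem_smallDown.mpr ⟨b, hc1, ?_, ?_, rfl⟩, hsub⟩
    · exact Finset.card_pos.mpr ⟨a, mem_low.mpr hab⟩
    · have : low b ⊆ {q, r} := by
        intro e he
        rw [Finset.mem_insert, Finset.mem_singleton]
        exact hsub e he
      exact (Finset.card_le_card this).trans Finset.card_le_two
  obtain ⟨a, b, hab, hlt⟩ := hpair
  have hb1 := hge b
  rcases Nat.lt_or_ge (M b) 2 with h1 | h1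
  · exact hcase1 a b hab hlt (by omega)
  · obtain ⟨h3, har⟩ : M a = 3 ∧ a = r := by
      rcases hunl a b hab hlt with ⟨h, _⟩ | h
      · omega
      · exact h
    subst har
    have hb2 : M b = 2 := by omega
    obtain ⟨c, hc1, hc2⟩ := hdown b (by omega)
    have hcq : c = q := hL.inj (by omega)
    subst hcq
    obtain ⟨g, _, hg⟩ := hlab.surjOn (show 1 ∈ Set.Icc 1 (Fintype.card P) from
      ⟨le_rfl, by omega⟩)
    have hga : g ≠ a := by rintro rfl; omega
    have hlow : ∀ e, e < b → e = a ∨ e = g := by
      intro e he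
      have h5 := hsmall e b he (by omega)
      have h6 := hge e
      have h7 := hne e b he.ne
      rcases Nat.lt_or_ge (M e) 2 with h8 | h8
      · exact Or.inr (hlab.inj (by omega))
      · exact Or.inl (hlab.inj (by omega))
    by_cases hgb : g < b
    · right
      have hlb : low b = {a, g} := by
        ext e
        rw [mem_low, Finset.mem_insert, Finset.mem_singleton]
        constructor
        · exact hlow e
        · rintro (rfl | rfl)
          · exact hab
          · exact hgb
      have hcard : (low b).card = 2 := by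
        rw [hlb, Finset.card_pair (Ne.symm hga)]
      exact ⟨low b, mem_smallDown.mpr ⟨b, hc1, by omega, by omega, rfl⟩, hcard,
        mem_low.mpr hab⟩
    · by_cases hag : a < g
      · exact hcase1 a g hag (by omega) hg
      · exfalso
        have hoffb : ¬ OnChain M b := by
          rintro ⟨v, hv, i, hi⟩
          have hvg : v = g := hlab.inj (hv.trans hg.symm)
          have h5 : g ≤ b := by rw [← hi, ← hvg]; exact le_iterate M v i
          have h6 : g ≠ b := by rintro rfl; omega
          exact hgb (lt_of_le_of_ne h5 h6)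
        have hoffa : ¬ OnChain M a := by
          rintro ⟨v, hv, i, hi⟩
          have hvg : v = g := hlab.inj (hv.trans hg.symm)
          have h5 : g ≤ a := by rw [← hi, ← hvg]; exact le_iterate M v i
          exact hgb (h5.trans_lt hab)
        have h6 := hs' a b hab
        rw [promote_off hoffb, promote_off hoffa] at h6
        omega

open Classical in
/-- triples of the first kind -/
noncomputable def kindI (p : P) (A : Finset P) : Finset (P × P × P) :=
  Finset.univ.filter (fun t => t.1 = p ∧ (∀ e ∈ A, e = t.2.1 ∨ e = t.2.2) ∧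
    t.1 ≠ t.2.1 ∧ t.1 ≠ t.2.2 ∧ t.2.1 ≠ t.2.2)

open Classical in
/-- triples of the second kind -/
noncomputable def kindII (q : P) (A : Finset P) : Finset (P × P × P) :=
  Finset.univ.filter (fun t => t.2.1 = q ∧ t.2.2 ∈ A ∧
    t.1 ≠ t.2.1 ∧ t.1 ≠ t.2.2 ∧ t.2.1 ≠ t.2.2)

theorem kindI_one {p a : P} (hpa : p ≠ a) : (kindI p {a}).card ≤ 2 * (Fintype.card P - 2) := by
  classical
  have hc : (Finset.univ \ {p, a} : Finset P).card = Fintype.card P - 2 := by
    rw [Finset.card_sdiff_of_subset (Finset.subset_univ _), Finset.card_univ,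
      Finset.card_pair hpa]
  have hsub : kindI p {a} ⊆ (Finset.univ \ {p, a} : Finset P).image (fun x => (p, a, x)) ∪
      (Finset.univ \ {p, a} : Finset P).image (fun x => (p, x, a)) := by
    rintro ⟨x, y, z⟩ ht
    rw [kindI, Finset.mem_filter] at ht
    obtain ⟨_, h1, h2, h3, h4, h5⟩ := ht
    simp only at h1 h2 h3 h4 h5
    subst h1
    rw [Finset.mem_union, Finset.mem_image, Finset.mem_image]
    rcases h2 a (Finset.mem_singleton_self a) with h | h
    · left
      subst h
      refine ⟨z, ?_, rfl⟩
      simp only [Finset.mem_sdiff, Finset.mem_univ, Finset.mem_insert, Finset.mem_singleton,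
        true_and, not_or]
      exact ⟨Ne.symm h4, Ne.symm h5⟩
    · right
      subst h
      refine ⟨y, ?_, rfl⟩
      simp only [Finset.mem_sdiff, Finset.mem_univ, Finset.mem_insert, Finset.mem_singleton,
        true_and, not_or]
      exact ⟨Ne.symm h3, h5⟩
  calc (kindI p {a}).card ≤ _ := Finset.card_le_card hsub
    _ ≤ _ := Finset.card_union_le _ _
    _ ≤ (Finset.univ \ {p, a} : Finset P).card + (Finset.univ \ {p, a} : Finset P).card :=
        Nat.add_le_add Finset.card_image_le Finset.card_image_le
    _ = 2 * (Fintype.card P - 2) := by rw [hc]; ring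

theorem kindI_two {p : P} {A : Finset P} (hA : A.card = 2) : (kindI p A).card ≤ 2 := by
  classical
  obtain ⟨a, b, hab, rfl⟩ := Finset.card_eq_two.mp hA
  have hsub : kindI p {a, b} ⊆ {(p, a, b), (p, b, a)} := by
    rintro ⟨x, y, z⟩ ht
    rw [kindI, Finset.mem_filter] at ht
    obtain ⟨_, h1, h2, h3, h4, h5⟩ := ht
    simp only at h1 h2 h3 h4 h5
    subst h1
    have ha := h2 a (by simp)
    have hb := h2 b (by simp)
    rw [Finset.mem_insert, Finset.mem_singleton]
    rcases ha with ha | ha
    · rcases hb with hb | hb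
      · exact absurd (ha.trans hb.symm) hab
      · left
        rw [ha, hb]
    · rcases hb with hb | hb
      · right
        rw [ha, hb]
      · exact absurd (ha.trans hb.symm) hab
  exact (Finset.card_le_card hsub).trans Finset.card_le_two

theorem kindII_two {q : P} {A : Finset P} (hA : A.card = 2) (hq : q ∉ A) :
    (kindII q A).card ≤ 2 * (Fintype.card P - 2) := by
  classical
  have hsub : kindII q A ⊆ A.biUnion (fun r =>
      (Finset.univ \ {q, r} : Finset P).image (fun x => (x, q, r))) := by
    rintro ⟨x, y, z⟩ ht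
    rw [kindII, Finset.mem_filter] at ht
    obtain ⟨_, h1, h2, h3, h4, h5⟩ := ht
    simp only at h1 h2 h3 h4 h5
    subst h1
    rw [Finset.mem_biUnion]
    refine ⟨z, h2, ?_⟩
    rw [Finset.mem_image]
    refine ⟨x, ?_, rfl⟩
    simp only [Finset.mem_sdiff, Finset.mem_univ, Finset.mem_insert, Finset.mem_singleton,
      true_and, not_or]
    exact ⟨h3, h4⟩
  have hb : ∀ r ∈ A, ((Finset.univ \ {q, r} : Finset P).image
      (fun x => ((x, q, r) : P × P × P))).card ≤ Fintype.card P - 2 := by
    intro r hr
    have hqr : q ≠ r := by rintro rfl; exact hq hr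
    refine Finset.card_image_le.trans ?_
    rw [Finset.card_sdiff_of_subset (Finset.subset_univ _), Finset.card_univ,
      Finset.card_pair hqr]
  calc (kindII q A).card ≤ _ := Finset.card_le_card hsub
    _ ≤ A.card * (Fintype.card P - 2) := Finset.card_biUnion_le_card_mul _ _ _ hb
    _ = 2 * (Fintype.card P - 2) := by rw [hA]

open Classical in
/-- the triples satisfying the necessary condition, with distinct entries -/
noncomputable def condSet3 (P : Type) [Fintype P] [PartialOrder P] : Finset (P × P × P) :=
  Finset.univ.filter (fun t => Cond3 t.1 t.2.1 t.2.2 ∧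
    t.1 ≠ t.2.1 ∧ t.1 ≠ t.2.2 ∧ t.2.1 ≠ t.2.2)

/-- the weight of a small down-set -/
def wt (n : ℕ) (k : ℕ) : ℕ := if k = 2 then 2 * (n - 1) else 2 * (n - 2)

theorem card_condSet3 (h3 : 3 ≤ Fintype.card P) : (condSet3 P).card ≤
    ∑ p : P, ∑ A ∈ smallDown p, wt (Fintype.card P) A.card := by
  classical
  have hsub : condSet3 P ⊆
      (Finset.univ.biUnion (fun p : P => (smallDown p).biUnion (fun A => kindI p A))) ∪
      (Finset.univ.biUnion (fun q : P => ((smallDown q).filter (fun A => A.card = 2)).biUnion
        (fun A => kindII q A))) := by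
    rintro ⟨x, y, z⟩ ht
    rw [condSet3, Finset.mem_filter] at ht
    obtain ⟨_, h1, h2, h3, h4⟩ := ht
    rw [Finset.mem_union]
    rcases h1 with ⟨A, hA, h⟩ | ⟨A, hA, hA2, h⟩
    · left
      rw [Finset.mem_biUnion]
      refine ⟨x, Finset.mem_univ _, ?_⟩
      rw [Finset.mem_biUnion]
      refine ⟨A, hA, ?_⟩
      rw [kindI, Finset.mem_filter]
      exact ⟨Finset.mem_univ _, rfl, h, h2, h3, h4⟩
    · right
      rw [Finset.mem_biUnion]
      refine ⟨y, Finset.mem_univ _, ?_⟩
      rw [Finset.mem_biUnion]
      refine ⟨A, Finset.mem_filter.mpr ⟨hA, hA2⟩, ?_⟩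
      rw [kindII, Finset.mem_filter]
      exact ⟨Finset.mem_univ _, rfl, h, h2, h3, h4⟩
  have hsd : ∀ (p : P) (A : Finset P), A ∈ smallDown p → p ∉ A ∧ 1 ≤ A.card ∧ A.card ≤ 2 := by
    intro p A hA
    obtain ⟨b, hb1, hb2, hb3, rfl⟩ := mem_smallDown.mp hA
    exact ⟨fun h => absurd (mem_low.mp h) (not_lt_of_ge hb1), hb2, hb3⟩
  calc (condSet3 P).card ≤ _ := Finset.card_le_card hsub
    _ ≤ _ := Finset.card_union_le _ _
    _ ≤ ∑ p : P, ((smallDown p).biUnion (fun A => kindI p A)).card +
        ∑ q : P, (((smallDown q).filter (fun A => A.card = 2)).biUnion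
        (fun A => kindII q A)).card := Nat.add_le_add Finset.card_biUnion_le Finset.card_biUnion_le
    _ ≤ ∑ p : P, ∑ A ∈ smallDown p, (kindI p A).card +
        ∑ q : P, ∑ A ∈ (smallDown q).filter (fun A => A.card = 2), (kindII q A).card :=
        Nat.add_le_add (Finset.sum_le_sum (fun p _ => Finset.card_biUnion_le))
          (Finset.sum_le_sum (fun p _ => Finset.card_biUnion_le))
    _ = ∑ p : P, ∑ A ∈ smallDown p, ((kindI p A).card +
          if A.card = 2 then (kindII p A).card else 0) := by
        rw [← Finset.sum_add_distrib]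
        apply Finset.sum_congr rfl
        intro p _
        rw [Finset.sum_add_distrib, Finset.sum_filter]
    _ ≤ ∑ p : P, ∑ A ∈ smallDown p, wt (Fintype.card P) A.card := by
        apply Finset.sum_le_sum
        intro p _
        apply Finset.sum_le_sum
        intro A hA
        obtain ⟨h1, h2, h4⟩ := hsd p A hA
        by_cases hA2 : A.card = 2
        · rw [if_pos hA2, wt, if_pos hA2]
          have e1 := kindI_two (p := p) hA2
          have e2 := kindII_two hA2 h1
          omega
        · rw [if_neg hA2, wt, if_neg hA2]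
          obtain ⟨a, rfl⟩ := Finset.card_eq_one.mp (show A.card = 1 by omega)
          have : p ≠ a := by
            rintro rfl
            exact h1 (Finset.mem_singleton_self _)
          exact kindI_one this

theorem quasiCount_le3 {n : ℕ} (hn : Fintype.card P = n + 3) :
    quasiCount P ≤ n.factorial * ∑ p : P, ∑ A ∈ smallDown p, wt (n + 3) A.card := by
  classical
  have h := card_condSet3 (P := P) (by omega)
  rw [hn] at h
  refine le_trans (quasiCount_le_of hn (condSet3 P) ?_) (Nat.mul_le_mul_left _ h)
  intro L hL hq p q r hp hqq hr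
  rw [condSet3, Finset.mem_filter]
  refine ⟨Finset.mem_univ _, cond3_of_quasi hL hq hn hp hqq hr, ?_, ?_, ?_⟩
  · rintro h; simp only at h; rw [h] at hp; omega
  · rintro h; simp only at h; rw [h] at hp; omega
  · rintro h; simp only at h; rw [h] at hqq; omega

end

end Pool.Agent.Lib.MP_54b7d9_co
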