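import Pool.Agent.Lib.MP_54b7d9_co.Thin

set_option autoImplicit false

namespace Pool.Agent.Lib.MP_54b7d9_co

section
variable {P : Type} [Fintype P] [PartialOrder P]

theorem wt_le (n k : ℕ) : wt n k ≤ 2 * (n - 1) := by
  unfold wt
  split_ifs <;> omega

theorem smallDown_min {x : P} (hx : IsMin x) : smallDown x = ∅ := by
  classical
  rw [Finset.eq_empty_iff_forall_notMem]
  intro A hA
  obtain ⟨b, hb1, hb2, _, _⟩ := mem_smallDown.mp hA
  obtain ⟨e, he⟩ := Finset.card_pos.mp (show 0 < (low b).card by omega)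
  exact hx.not_lt ((mem_low.mp he).trans_le hb1)

/-- the elements with a nonempty set of small down-sets -/
noncomputable def supp (P : Type) [Fintype P] [PartialOrder P] : Finset P := by
  classical
  exact Finset.univ.filter (fun p : P => (smallDown p).Nonempty)

theorem mem_supp {p : P} : p ∈ supp P ↔ (smallDown p).Nonempty := by
  classical
  simp [supp]

theorem supp_card (h : 0 < Fintype.card P) : (supp P).card ≤ Fintype.card P - 1 := by
  classical
  obtain ⟨x⟩ := Fintype.card_pos_iff.mp h
  obtain ⟨y, _, hy⟩ := (Set.toFinite (Set.univ : Set P)).exists_le_minimal (Set.mem_univ x)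
  have hmin : IsMin y := fun z hz => hy.2 (Set.mem_univ z) hz
  have hsub : supp P ⊆ Finset.univ \ {y} := by
    intro p hp
    rw [mem_supp] at hp
    simp only [Finset.mem_sdiff, Finset.mem_univ, Finset.mem_singleton, true_and]
    rintro rfl
    rw [smallDown_min hmin] at hp
    exact Finset.not_nonempty_empty hp
  refine (Finset.card_le_card hsub).trans ?_
  rw [Finset.card_sdiff_of_subset (Finset.subset_univ _), Finset.card_univ, Finset.card_singleton]

theorem sum_supp (g : P → Finset P → ℕ) : ∑ p : P, ∑ A ∈ smallDown p, g p A =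
    ∑ p ∈ supp P, ∑ A ∈ smallDown p, g p A := by
  classical
  symm
  apply Finset.sum_subset (Finset.subset_univ _)
  intro p _ hp
  rw [mem_supp, Finset.not_nonempty_iff_eq_empty] at hp
  rw [hp, Finset.sum_empty]

theorem sum_wt_le {κ : ℕ} (hκ : ∀ p : P, (smallDown p).card ≤ κ) (h : 0 < Fintype.card P) :
    ∑ p : P, ∑ A ∈ smallDown p, wt (Fintype.card P) A.card ≤
      2 * κ * (Fintype.card P - 1) ^ 2 := by
  classical
  rw [sum_supp]
  have h1 : ∀ p ∈ supp P, ∑ A ∈ smallDown p, wt (Fintype.card P) A.card ≤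
      κ * (2 * (Fintype.card P - 1)) := by
    intro p _
    calc ∑ A ∈ smallDown p, wt (Fintype.card P) A.card ≤
        (smallDown p).card * (2 * (Fintype.card P - 1)) := by
          rw [← smul_eq_mul]
          exact Finset.sum_le_card_nsmul _ _ _ (fun A _ => wt_le _ _)
      _ ≤ _ := Nat.mul_le_mul_right _ (hκ p)
  calc _ ≤ (supp P).card * (κ * (2 * (Fintype.card P - 1))) := by
        rw [← smul_eq_mul]
        exact Finset.sum_le_card_nsmul _ _ _ h1
    _ ≤ (Fintype.card P - 1) * (κ * (2 * (Fintype.card P - 1))) :=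
        Nat.mul_le_mul_right _ (supp_card h)
    _ = _ := by ring

theorem sum_wt_one (hκ : ∀ p : P, (smallDown p).card ≤ 1) (h : 0 < Fintype.card P) :
    ∑ p : P, ∑ A ∈ smallDown p, wt (Fintype.card P) A.card ≤
      2 * (Fintype.card P - 1) * (Fintype.card P - 2) := by
  classical
  rw [sum_supp]
  by_cases hex : ∃ p : P, ∃ A ∈ smallDown p, A.card = 2
  · obtain ⟨p, A, hA, hA2⟩ := hex
    have hsub : supp P ⊆ Finset.univ \ A := by
      intro x hx
      simp only [Finset.mem_sdiff, Finset.mem_univ, true_and]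
      intro hxA
      rw [mem_supp] at hx
      obtain ⟨B, hB⟩ := hx
      obtain ⟨b, hb1, hb2, hb3, rfl⟩ := mem_smallDown.mp hA
      obtain ⟨c, hc1, hc2, hc3, rfl⟩ := mem_smallDown.mp hB
      have hxb : x < b := mem_low.mp hxA
      have hcp : low c ∈ smallDown p :=
        mem_smallDown.mpr ⟨c, hc1.trans (hxb.le.trans hb1), hc2, hc3, rfl⟩
      have heq := Finset.card_le_one.mp (hκ p) _ hA _ hcp
      rw [heq] at hxA
      exact absurd (mem_low.mp hxA) (not_lt_of_ge hc1)
    have hcard : (supp P).card ≤ Fintype.card P - 2 := by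
      refine (Finset.card_le_card hsub).trans ?_
      rw [Finset.card_sdiff_of_subset (Finset.subset_univ _), Finset.card_univ, hA2]
    have h1 : ∀ p ∈ supp P, ∑ A ∈ smallDown p, wt (Fintype.card P) A.card ≤
        2 * (Fintype.card P - 1) := by
      intro p _
      calc ∑ A ∈ smallDown p, wt (Fintype.card P) A.card ≤
          (smallDown p).card * (2 * (Fintype.card P - 1)) := by
            rw [← smul_eq_mul]
            exact Finset.sum_le_card_nsmul _ _ _ (fun A _ => wt_le _ _)
        _ ≤ 1 * _ := Nat.mul_le_mul_right _ (hκ p)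
        _ = _ := one_mul _
    calc _ ≤ (supp P).card * (2 * (Fintype.card P - 1)) := by
          rw [← smul_eq_mul]
          exact Finset.sum_le_card_nsmul _ _ _ h1
      _ ≤ (Fintype.card P - 2) * (2 * (Fintype.card P - 1)) := Nat.mul_le_mul_right _ hcard
      _ = _ := by ring
  · have h1 : ∀ p ∈ supp P, ∑ A ∈ smallDown p, wt (Fintype.card P) A.card ≤
        2 * (Fintype.card P - 2) := by
      intro p _
      calc ∑ A ∈ smallDown p, wt (Fintype.card P) A.card ≤
          (smallDown p).card * (2 * (Fintype.card P - 2)) := by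
            rw [← smul_eq_mul]
            apply Finset.sum_le_card_nsmul
            intro A hA
            rw [wt, if_neg]
            intro hA2
            exact hex ⟨p, A, hA, hA2⟩
        _ ≤ 1 * _ := Nat.mul_le_mul_right _ (hκ p)
        _ = _ := one_mul _
    calc _ ≤ (supp P).card * (2 * (Fintype.card P - 2)) := by
          rw [← smul_eq_mul]
          exact Finset.sum_le_card_nsmul _ _ _ h1
      _ ≤ (Fintype.card P - 1) * (2 * (Fintype.card P - 2)) := Nat.mul_le_mul_right _ (supp_card h)
      _ = _ := by ring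

theorem quasi_kappa {κ : ℕ} (h3 : 3 ≤ Fintype.card P) (hκ : ∀ p : P, (smallDown p).card ≤ κ) :
    quasiCount P ≤ 2 * κ * (Fintype.card P - 1) ^ 2 * (Fintype.card P - 3).factorial := by
  obtain ⟨n, hn⟩ := Nat.exists_eq_add_of_le' h3
  have h1 := quasiCount_le3 hn
  have h2 := sum_wt_le hκ (by omega)
  rw [hn] at h2
  rw [hn, Nat.add_sub_cancel]
  exact (h1.trans (Nat.mul_le_mul_left _ h2)).trans (le_of_eq (mul_comm _ _))

theorem quasi_one (h3 : 3 ≤ Fintype.card P) (hκ : ∀ p : P, (smallDown p).card ≤ 1) :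
    quasiCount P ≤ 2 * (Fintype.card P - 1).factorial := by
  obtain ⟨n, hn⟩ := Nat.exists_eq_add_of_le' h3
  have h1 := quasiCount_le3 hn
  have h2 := sum_wt_one hκ (by omega)
  rw [hn] at h2
  rw [hn]
  refine (h1.trans (Nat.mul_le_mul_left _ h2)).trans (le_of_eq ?_)
  rw [show n + 3 - 1 = n + 2 by omega, show n + 3 - 2 = n + 1 by omega, Nat.factorial_succ,
    Nat.factorial_succ]
  ring

end

theorem twoChain_small (n : ℕ) (hn : 3 ≤ n) (p : Fin n) :
    (@smallDown (Fin n) _ (twoChain n) p).card ≤ 1 := by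
  classical
  let _ := twoChain n
  have key : ∀ b : Fin n, 1 ≤ (low b).card → (low b).card ≤ 2 →
      low b = {(⟨0, by omega⟩ : Fin n), (⟨1, by omega⟩ : Fin n)} := by
    intro b h1 h2
    obtain ⟨e, he⟩ := Finset.card_pos.mp (show 0 < (low b).card by omega)
    have he' : e.val < b.val ∧ 2 ≤ b.val := mem_low.mp he
    have hsub : ({(⟨0, by omega⟩ : Fin n), (⟨1, by omega⟩ : Fin n)} : Finset (Fin n)) ⊆ low b := by
      intro x hx
      rw [Finset.mem_insert, Finset.mem_singleton] at hx
      rw [mem_low]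
      show x.val < b.val ∧ 2 ≤ b.val
      rcases hx with rfl | rfl
      · exact ⟨by show 0 < b.val; omega, he'.2⟩
      · exact ⟨by show 1 < b.val; omega, he'.2⟩
    have hne : (⟨0, by omega⟩ : Fin n) ≠ ⟨1, by omega⟩ := by
      intro h
      have := congrArg Fin.val h
      simp at this
    exact (Finset.eq_of_subset_of_card_le hsub (by rw [Finset.card_pair hne]; exact h2)).symm
  rw [Finset.card_le_one]
  intro A hA B hB
  obtain ⟨b, _, hb2, hb3, rfl⟩ := mem_smallDown.mp hA
  obtain ⟨c, _, hc2, hc3, rfl⟩ := mem_smallDown.mp hB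
  rw [key b hb2 hb3, key c hc2 hc3]

theorem twoChain_count (n : ℕ) (hn : 2 ≤ n) :
    2 * (n - 1).factorial ≤ @quasiCount (Fin n) _ (twoChain n) := by
  have h := @quasiCount_ge (Fin n) _ (twoChain n) ⟨0, by omega⟩ ⟨1, by omega⟩ ?_ ?_ ?_ ?_
  · rwa [Fintype.card_fin] at h
  · rintro b (h | h)
    · exact Or.inl h.symm
    · exact absurd h.2 (by show ¬ 2 ≤ 0; omega)
  · rintro b (h | h)
    · exact Or.inl h.symm
    · exact absurd h.2 (by show ¬ 2 ≤ 1; omega)
  · intro h
    have := congrArg Fin.val h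
    simp at this
  · intro z hzx hzy
    have h0 : z.val ≠ 0 := fun h => hzx (Fin.ext h)
    have h1 : z.val ≠ 1 := fun h => hzy (Fin.ext h)
    refine ⟨⟨?_, ?_⟩, ?_, ?_⟩
    · show 0 < z.val; omega
    · omega
    · show 1 < z.val; omega
    · omega

end Pool.Agent.Lib.MP_54b7d9_co
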