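import Pool.Agent.Lib.MP_54b7d9_co.ThinMain

set_option autoImplicit false

namespace Pool.Agent.Lib.MP_54b7d9_co

section
variable {P : Type} [Fintype P] [PartialOrder P]

/-- if the only element below `q` is `r` and `q, r` have the two largest labels, then the labeling
is not quasi-tangled -/
theorem low_ne_of_quasi {L : P → ℕ} (hL : IsLabeling L) (hq : QuasiTangled L) {n : ℕ}
    (hn : Fintype.card P = n + 3) {q r : P} (hqq : L q = n + 2)
    (hr : L r = n + 3) : low q ≠ {r} := by
  classical
  intro hlow
  obtain ⟨hs, _⟩ := hq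
  rw [hn] at hs
  have hs' : IsSorted (promote (promote^[n] L)) := by
    have h : IsSorted (promote^[n + 3 - 2] L) := hs
    rw [show n + 3 - 2 = n + 1 by omega, Function.iterate_succ_apply'] at h
    exact h
  have hlab := hL.iterate n
  have hdown := moved_down hL n
  have hrq : r < q := mem_low.mp (by rw [hlow]; exact Finset.mem_singleton_self _)
  have honly : ∀ e, e < q → e = r := by
    intro e he
    have : e ∈ low q := mem_low.mpr he
    rw [hlow] at this
    exact Finset.mem_singleton.mp this
  have hrmin : IsMin r := by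
    intro e he
    rcases he.lt_or_eq with h | h
    · exact absurd (honly e (h.trans hrq)) h.ne
    · exact h.ge
  have hMr := min_iterate hrmin n (show n < L r by omega)
  rw [hr] at hMr
  rw [hn] at hdown
  generalize promote^[n] L = M at *
  obtain ⟨g, _, hg⟩ := hlab.surjOn (show 1 ∈ Set.Icc 1 (Fintype.card P) from
    ⟨le_rfl, by omega⟩)
  obtain ⟨g2, _, hg2⟩ := hlab.surjOn (show 2 ∈ Set.Icc 1 (Fintype.card P) from
    ⟨by omega, by omega⟩)
  obtain ⟨c, hc1, hc2⟩ := hdown g2 (by omega)
  have hcq : c = q := hL.inj (by omega)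
  subst hcq
  have hg2q : g2 = c := by
    rcases hc1.lt_or_eq with h | h
    · have := honly g2 h
      rw [this] at hg2
      omega
    · exact h
  subst hg2q
  have hgle : ¬ g ≤ g2 := by
    intro h
    rcases h.lt_or_eq with h | h
    · have := honly g h
      rw [this] at hg
      omega
    · rw [h] at hg
      omega
  have hoffq : ¬ OnChain M g2 := by
    rintro ⟨v, hv, i, hi⟩
    have hvg : v = g := hlab.inj (hv.trans hg.symm)
    exact hgle (by rw [← hi, ← hvg]; exact le_iterate M v i)
  have hoffr : ¬ OnChain M r := by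
    rintro ⟨v, hv, i, hi⟩
    have hvg : v = g := hlab.inj (hv.trans hg.symm)
    exact hgle (le_trans (by rw [← hi, ← hvg]; exact le_iterate M v i) hrq.le)
  have h6 := hs' r g2 hrq
  rw [promote_off hoffq, promote_off hoffr] at h6
  omega

theorem inv_of_cond3 {p q r : P} (h : Cond3 p q r) : q < p ∨ r < p ∨ r < q := by
  rcases h with ⟨A, hA, h⟩ | ⟨A, hA, _, h⟩
  · obtain ⟨b, hb1, hb2, _, rfl⟩ := mem_smallDown.mp hA
    obtain ⟨e, he⟩ := Finset.card_pos.mp (show 0 < (low b).card by omega)
    have hep : e < p := (mem_low.mp he).trans_le hb1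
    rcases h e he with rfl | rfl
    · exact Or.inl hep
    · exact Or.inr (Or.inl hep)
  · obtain ⟨b, hb1, _, _, rfl⟩ := mem_smallDown.mp hA
    exact Or.inr (Or.inr ((mem_low.mp h).trans_le hb1))

theorem chain_low {x y z : P} (hxy : x < y) (hyz : y < z) (h : Cond3 x z y) : low y = {x} := by
  classical
  rcases h with ⟨A, hA, h⟩ | ⟨A, hA, hA2, h⟩
  · exfalso
    obtain ⟨b, hb1, hb2, _, rfl⟩ := mem_smallDown.mp hA
    obtain ⟨e, he⟩ := Finset.card_pos.mp (show 0 < (low b).card by omega)
    have hex : e < x := (mem_low.mp he).trans_le hb1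
    rcases h e he with rfl | rfl
    · exact lt_irrefl _ (hex.trans (hxy.trans hyz))
    · exact lt_irrefl _ (hex.trans hxy)
  · obtain ⟨b, hb1, _, _, rfl⟩ := mem_smallDown.mp hA
    have hyb : y < b := mem_low.mp h
    have hxA : x ∈ low b := mem_low.mpr (hxy.trans hyb)
    have hsub : ({x, y} : Finset P) ⊆ low b := by
      intro e he
      rw [Finset.mem_insert, Finset.mem_singleton] at he
      rcases he with rfl | rfl
      · exact hxA
      · exact h
    have heq : ({x, y} : Finset P) = low b :=
      Finset.eq_of_subset_of_card_le hsub (by rw [Finset.card_pair hxy.ne, hA2])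
    ext e
    rw [mem_low, Finset.mem_singleton]
    constructor
    · intro he
      have h1 : e ∈ low b := mem_low.mpr (he.trans hyb)
      rw [← heq, Finset.mem_insert, Finset.mem_singleton] at h1
      rcases h1 with h1 | h1
      · exact h1
      · exact absurd h1 he.ne
    · rintro rfl
      exact hxy

/-- the refined condition -/
def Cond4 (t : P × P × P) : Prop :=
  Cond3 t.1 t.2.1 t.2.2 ∧ low t.2.1 ≠ {t.2.2}

theorem not_three {p q r : P} (h1 : Cond4 (p, q, r)) (h2 : Cond4 (q, r, p))
    (h3 : Cond4 (r, p, q)) : False := by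
  obtain ⟨h1, h1'⟩ := h1
  obtain ⟨h2, h2'⟩ := h2
  obtain ⟨h3, h3'⟩ := h3
  simp only at h1 h1' h2 h2' h3 h3'
  have caseA : r < q → q < p → False := fun a b => h1' (chain_low a b h3)
  have caseB : p < r → r < q → False := fun a b => h2' (chain_low a b h1)
  have caseC : q < p → p < r → False := fun a b => h3' (chain_low a b h2)
  have i1 := inv_of_cond3 h1
  have i2 := inv_of_cond3 h2
  have i3 := inv_of_cond3 h3
  rcases i1 with a | a | a
  · rcases i2 with b | b | b
    · exact caseA b a
    · exact lt_irrefl _ (a.trans b)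
    · exact caseC a b
  · rcases i2 with b | b | b
    · rcases i3 with c | c | c
      · exact lt_irrefl _ (a.trans c)
      · exact lt_irrefl _ (b.trans c)
      · exact caseA b c
    · rcases i3 with c | c | c
      · exact lt_irrefl _ (a.trans c)
      · exact lt_irrefl _ ((a.trans b).trans c)
      · exact lt_irrefl _ (b.trans c)
    · exact lt_irrefl _ (a.trans b)
  · rcases i3 with c | c | c
    · exact caseB c a
    · exact lt_irrefl _ (a.trans c)
    · exact caseA a c

open Classical in
/-- triples of distinct elements -/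
noncomputable def dist3 (P : Type) [Fintype P] : Finset (P × P × P) :=
  Finset.univ.filter (fun t => t.1 ≠ t.2.1 ∧ t.1 ≠ t.2.2 ∧ t.2.1 ≠ t.2.2)

theorem dist3_card (P : Type) [Fintype P] : (dist3 P).card ≤
    Fintype.card P * ((Fintype.card P - 1) * (Fintype.card P - 2)) := by
  classical
  have hsub : dist3 P ⊆ Finset.univ.biUnion (fun p : P => (Finset.univ \ {p}).biUnion
      (fun q : P => (Finset.univ \ {p, q}).image (fun r : P => (p, q, r)))) := by
    rintro ⟨p, q, r⟩ ht
    rw [dist3, Finset.mem_filter] at ht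
    obtain ⟨_, h1, h2, h3⟩ := ht
    simp only at h1 h2 h3
    rw [Finset.mem_biUnion]
    refine ⟨p, Finset.mem_univ _, ?_⟩
    rw [Finset.mem_biUnion]
    refine ⟨q, ?_, ?_⟩
    · simp only [Finset.mem_sdiff, Finset.mem_univ, Finset.mem_singleton, true_and]
      exact Ne.symm h1
    · rw [Finset.mem_image]
      refine ⟨r, ?_, rfl⟩
      simp only [Finset.mem_sdiff, Finset.mem_univ, Finset.mem_insert, Finset.mem_singleton,
        true_and, not_or]
      exact ⟨Ne.symm h2, Ne.symm h3⟩
  refine (Finset.card_le_card hsub).trans ?_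
  refine (Finset.card_biUnion_le_card_mul _ _ ((Fintype.card P - 1) * (Fintype.card P - 2))
    ?_).trans (by rw [Finset.card_univ])
  intro p _
  have hp : (Finset.univ \ {p} : Finset P).card = Fintype.card P - 1 := by
    rw [Finset.card_sdiff_of_subset (Finset.subset_univ _), Finset.card_univ,
      Finset.card_singleton]
  rw [← hp]
  apply Finset.card_biUnion_le_card_mul
  intro q hq
  have hpq : p ≠ q := by
    rintro rfl
    simp at hq
  refine Finset.card_image_le.trans ?_
  rw [Finset.card_sdiff_of_subset (Finset.subset_univ _), Finset.card_univ, Finset.card_pair hpq]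

open Classical in
theorem three_card : 3 * ((dist3 P).filter (fun t => Cond4 t)).card ≤
    2 * (dist3 P).card := by
  set D := dist3 P with hD
  have hmem : ∀ p q r : P, (p, q, r) ∈ D ↔ p ≠ q ∧ p ≠ r ∧ q ≠ r := by
    intro p q r
    rw [hD, dist3, Finset.mem_filter]
    simp
  have e1 : (D.filter (fun t => Cond4 t)).card ≤
      (D.filter (fun t => Cond4 (t.2.1, t.2.2, t.1))).card := by
    apply Finset.card_le_card_of_injOn (fun t => (t.2.2, t.1, t.2.1))
    · rintro ⟨p, q, r⟩ ht
      rw [Finset.mem_coe, Finset.mem_filter, hmem] at ht ⊢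
      exact ⟨⟨Ne.symm ht.1.2.1, Ne.symm ht.1.2.2, ht.1.1⟩, ht.2⟩
    · rintro ⟨p, q, r⟩ _ ⟨p', q', r'⟩ _ h
      simp only [Prod.mk.injEq] at h
      obtain ⟨h1, h2, h3⟩ := h
      rw [h1, h2, h3]
  have e2 : (D.filter (fun t => Cond4 t)).card ≤
      (D.filter (fun t => Cond4 (t.2.2, t.1, t.2.1))).card := by
    apply Finset.card_le_card_of_injOn (fun t => (t.2.1, t.2.2, t.1))
    · rintro ⟨p, q, r⟩ ht
      rw [Finset.mem_coe, Finset.mem_filter, hmem] at ht ⊢
      exact ⟨⟨ht.1.2.2, Ne.symm ht.1.1, Ne.symm ht.1.2.1⟩, ht.2⟩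
    · rintro ⟨p, q, r⟩ _ ⟨p', q', r'⟩ _ h
      simp only [Prod.mk.injEq] at h
      obtain ⟨h1, h2, h3⟩ := h
      rw [h1, h2, h3]
  have e3 : (D.filter (fun t => Cond4 t)).card +
      (D.filter (fun t => Cond4 (t.2.1, t.2.2, t.1))).card +
      (D.filter (fun t => Cond4 (t.2.2, t.1, t.2.1))).card ≤ D.card * 2 := by
    rw [Finset.card_filter, Finset.card_filter, Finset.card_filter, ← Finset.sum_add_distrib,
      ← Finset.sum_add_distrib, ← smul_eq_mul]
    apply Finset.sum_le_card_nsmul
    rintro ⟨p, q, r⟩ _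
    by_cases h1 : Cond4 (p, q, r)
    · by_cases h2 : Cond4 (q, r, p)
      · have h3 : ¬ Cond4 (r, p, q) := fun h3 => not_three h1 h2 h3
        simp only [h1, h2, h3, if_true, if_false]
        omega
      · simp only [h1, h2, if_true, if_false]
        split_ifs <;> omega
    · simp only [h1, if_false]
      split_ifs <;> omega
  omega

open Classical in
theorem quasi_two_thirds (h3 : 3 ≤ Fintype.card P) :
    3 * quasiCount P ≤ 2 * (Fintype.card P).factorial := by
  obtain ⟨n, hn⟩ := Nat.exists_eq_add_of_le' h3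
  have h1 := quasiCount_le_of hn ((dist3 P).filter (fun t => Cond4 t)) (by
    intro L hL hq p q r hp hqq hr
    rw [Finset.mem_filter, dist3, Finset.mem_filter]
    refine ⟨⟨Finset.mem_univ _, ?_, ?_, ?_⟩, cond3_of_quasi hL hq hn hp hqq hr,
      low_ne_of_quasi hL hq hn hqq hr⟩
    · intro h; simp only at h; rw [h] at hp; omega
    · intro h; simp only at h; rw [h] at hp; omega
    · intro h; simp only at h; rw [h] at hqq; omega)
  have h2 := three_card (P := P)
  have h4 := dist3_card P
  rw [hn] at h4
  rw [hn, show (n + 3).factorial = (n + 3) * ((n + 2) * ((n + 1) * n.factorial)) by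
    rw [Nat.factorial_succ, Nat.factorial_succ, Nat.factorial_succ]]
  rw [show n + 3 - 1 = n + 2 by omega, show n + 3 - 2 = n + 1 by omega] at h4
  calc 3 * quasiCount P ≤ 3 * (n.factorial * ((dist3 P).filter (fun t => Cond4 t)).card) :=
        Nat.mul_le_mul_left _ h1
    _ = n.factorial * (3 * ((dist3 P).filter (fun t => Cond4 t)).card) := by ring
    _ ≤ n.factorial * (2 * (dist3 P).card) := Nat.mul_le_mul_left _ h2
    _ ≤ n.factorial * (2 * ((n + 3) * ((n + 2) * (n + 1)))) :=
        Nat.mul_le_mul_left _ (Nat.mul_le_mul_left _ h4)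
    _ = _ := by ring

end

end Pool.Agent.Lib.MP_54b7d9_co
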