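import Pool.Agent.Lib.MP_54b7d9_co.UShift

set_option autoImplicit false

namespace Pool.Agent.Lib.MP_54b7d9_co

variable {P : Type} [Fintype P] [PartialOrder P]

theorem mem_labs {L : P → ℕ} : L ∈ labs P ↔ IsLabeling L := by
  classical
  unfold labs
  rw [Finset.mem_filter, Fintype.mem_piFinset]
  constructor
  · exact fun h => h.2
  · exact fun h => ⟨fun x => Finset.mem_Icc.mpr ⟨h.pos x, h.le x⟩, h⟩

/-- the labeling of a bijection with `Fin n` -/
private def C1_lab {n : ℕ} (e : P ≃ Fin n) (x : P) : ℕ := (e x).val + 1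

private theorem C1_lab_inj {n : ℕ} : Function.Injective (C1_lab (P := P) (n := n)) := by
  intro e e' h
  ext x
  have := congrFun h x
  simp only [C1_lab] at this
  omega

theorem card_labs : (labs P).card = (Fintype.card P).factorial := by
  classical
  have h1 : labs P = (Finset.univ : Finset (P ≃ Fin (Fintype.card P))).image C1_lab := by
    ext L
    rw [mem_labs, Finset.mem_image]
    constructor
    · intro hL
      have hlt : ∀ x, L x - 1 < Fintype.card P := fun x => by
        have := hL.pos x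
        have := hL.le x
        omega
      have hinj : Function.Injective (fun x : P => (⟨L x - 1, hlt x⟩ : Fin (Fintype.card P))) := by
        intro x y hxy
        have h2 : L x - 1 = L y - 1 := congrArg Fin.val hxy
        have h3 := hL.pos x
        have h4 := hL.pos y
        exact hL.inj (by omega)
      have hbij : Function.Bijective
          (fun x : P => (⟨L x - 1, hlt x⟩ : Fin (Fintype.card P))) := by
        rw [Fintype.bijective_iff_injective_and_card]
        exact ⟨hinj, by simp⟩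
      refine ⟨Equiv.ofBijective _ hbij, Finset.mem_univ _, ?_⟩
      funext x
      have h3 := hL.pos x
      simp only [C1_lab, Equiv.ofBijective_apply]
      omega
    · rintro ⟨e, -, rfl⟩
      refine isLabeling_of ?_ (fun x => ?_) (fun x => ?_)
      · intro x y hxy
        simp only [C1_lab] at hxy
        exact e.injective (Fin.ext (by omega))
      · simp only [C1_lab]; omega
      · have := (e x).isLt
        simp only [C1_lab]; omega
  rw [h1, Finset.card_image_of_injective _ C1_lab_inj, Finset.card_univ]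
  exact Fintype.card_equiv (Fintype.equivFin P)

private theorem C1_swap_mem {n u v w : ℕ} (hu : u ∈ Finset.Icc 1 n) (hv : v ∈ Finset.Icc 1 n)
    (hw : w ∈ Finset.Icc 1 n) : Equiv.swap u v w ∈ Finset.Icc 1 n := by
  rw [Equiv.swap_apply_def]
  split_ifs
  · exact hv
  · exact hu
  · exact hw

private theorem C1_perm {n i k i' k' : ℕ} (hi : i ∈ Finset.Icc 1 n) (hk : k ∈ Finset.Icc 1 n)
    (hik : i ≠ k) (hi' : i' ∈ Finset.Icc 1 n) (hk' : k' ∈ Finset.Icc 1 n) (hik' : i' ≠ k') :
    ∃ σ : Equiv.Perm ℕ, σ i = i' ∧ σ k = k' ∧ ∀ w ∈ Finset.Icc 1 n, σ w ∈ Finset.Icc 1 n := by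
  refine ⟨(Equiv.swap i i').trans (Equiv.swap (Equiv.swap i i' k) k'), ?_, ?_, ?_⟩
  · rw [Equiv.trans_apply, Equiv.swap_apply_left]
    refine Equiv.swap_apply_of_ne_of_ne ?_ hik'
    intro h
    apply hik
    have h2 : Equiv.swap i i' i = Equiv.swap i i' k := by rw [Equiv.swap_apply_left]; exact h
    exact (Equiv.swap i i').injective h2
  · rw [Equiv.trans_apply, Equiv.swap_apply_left]
  · intro w hw
    rw [Equiv.trans_apply]
    exact C1_swap_mem (C1_swap_mem hi hi' hk) hk' (C1_swap_mem hi hi' hw)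

private theorem C1_le {a b : P} {i k i' k' : ℕ} (hi : i ∈ Finset.Icc 1 (Fintype.card P))
    (hk : k ∈ Finset.Icc 1 (Fintype.card P)) (hik : i ≠ k)
    (hi' : i' ∈ Finset.Icc 1 (Fintype.card P)) (hk' : k' ∈ Finset.Icc 1 (Fintype.card P))
    (hik' : i' ≠ k') :
    ((labs P).filter (fun L => L a = i ∧ L b = k)).card ≤
      ((labs P).filter (fun L => L a = i' ∧ L b = k')).card := by
  obtain ⟨σ, h1, h2, h3⟩ := C1_perm hi hk hik hi' hk' hik'
  refine Finset.card_le_card_of_injOn (fun L x => σ (L x)) ?_ ?_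
  · intro L hL
    rw [Finset.mem_coe, Finset.mem_filter, mem_labs] at hL ⊢
    obtain ⟨hL1, hL2, hL3⟩ := hL
    refine ⟨isLabeling_of ?_ (fun x => ?_) (fun x => ?_), ?_, ?_⟩
    · intro x y hxy
      exact hL1.inj (σ.injective hxy)
    · exact (Finset.mem_Icc.mp (h3 (L x) (Finset.mem_Icc.mpr ⟨hL1.pos x, hL1.le x⟩))).1
    · exact (Finset.mem_Icc.mp (h3 (L x) (Finset.mem_Icc.mpr ⟨hL1.pos x, hL1.le x⟩))).2
    · change σ (L a) = i'
      rw [hL2, h1]
    · change σ (L b) = k'
      rw [hL3, h2]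
  · intro L _ L' _ h
    funext x
    exact σ.injective (congrFun h x)

theorem card_two {a b : P} (hab : a ≠ b) (i k : ℕ) :
    Fintype.card P * (Fintype.card P - 1) *
      ((labs P).filter (fun L => L a = i ∧ L b = k)).card ≤ (Fintype.card P).factorial := by
  classical
  by_cases hne : ((labs P).filter (fun L => L a = i ∧ L b = k)).card = 0
  · rw [hne, mul_zero]; exact Nat.zero_le _
  obtain ⟨L0, hL0⟩ := Finset.card_pos.mp (Nat.pos_of_ne_zero hne)
  rw [Finset.mem_filter, mem_labs] at hL0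
  obtain ⟨hL1, hL2, hL3⟩ := hL0
  have hi : i ∈ Finset.Icc 1 (Fintype.card P) := by
    rw [← hL2]; exact Finset.mem_Icc.mpr ⟨hL1.pos a, hL1.le a⟩
  have hk : k ∈ Finset.Icc 1 (Fintype.card P) := by
    rw [← hL3]; exact Finset.mem_Icc.mpr ⟨hL1.pos b, hL1.le b⟩
  have hik : i ≠ k := by
    rw [← hL2, ← hL3]
    exact fun h => hab (hL1.inj h)
  have hmaps : ∀ L ∈ labs P, (L a, L b) ∈ (Finset.Icc 1 (Fintype.card P)).offDiag := by
    intro L hL
    rw [mem_labs] at hL
    rw [Finset.mem_offDiag]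
    exact ⟨Finset.mem_Icc.mpr ⟨hL.pos a, hL.le a⟩, Finset.mem_Icc.mpr ⟨hL.pos b, hL.le b⟩,
      fun h => hab (hL.inj h)⟩
  have hsum := Finset.card_eq_sum_card_fiberwise hmaps
  have hcard : (Finset.Icc 1 (Fintype.card P)).offDiag.card =
      Fintype.card P * (Fintype.card P - 1) := by
    rw [Finset.offDiag_card, Nat.card_Icc, Nat.add_sub_cancel, Nat.mul_sub_one]
  rw [← card_labs, hsum, ← hcard, ← smul_eq_mul, ← Finset.sum_const]
  apply Finset.sum_le_sum
  rintro ⟨i', k'⟩ hp
  rw [Finset.mem_offDiag] at hp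
  have := C1_le (a := a) (b := b) hi hk hik hp.1 hp.2.1 hp.2.2
  refine this.trans (le_of_eq ?_)
  congr 1
  ext L
  simp only [Finset.mem_filter, Prod.mk.injEq]

/-- File C2 (UDouble) -/
theorem double_count (S : Finset (P → ℕ)) (W : Finset ℕ) (F : (P → ℕ) → Finset P)
    (hW : ∀ j ∈ W, 1 ≤ j ∧ j + 1 ≤ Fintype.card P)
    (hS : ∀ L ∈ S, IsLabeling L ∧ ∃ c, (L c + 1 = Fintype.card P ∨ L c = Fintype.card P) ∧
      ∀ j ∈ W, c ∈ F (shift L c j)) :
    W.card * S.card ≤ 2 * ∑ L' ∈ labs P, (F L').card := by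
  classical
  rcases isEmpty_or_nonempty P with hP | ⟨⟨p0⟩⟩
  · have hS0 : S = ∅ := by
      rw [Finset.eq_empty_iff_forall_notMem]
      intro L hL
      obtain ⟨-, c, -⟩ := hS L hL
      exact hP.elim c
    rw [hS0, Finset.card_empty, mul_zero]
    exact Nat.zero_le _
  have hex : ∀ L : P → ℕ, ∃ c : P, L ∈ S →
      (L c + 1 = Fintype.card P ∨ L c = Fintype.card P) ∧ ∀ j ∈ W, c ∈ F (shift L c j) := by
    intro L
    by_cases hL : L ∈ S
    · obtain ⟨-, c, h1, h2⟩ := hS L hL
      exact ⟨c, fun _ => ⟨h1, h2⟩⟩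
    · exact ⟨p0, fun h => absurd h hL⟩
  choose c hc using hex
  have hle : ∀ L ∈ S, ∀ j ∈ W, j ≤ L (c L) := by
    intro L hL j hj
    have h1 := (hc L hL).1
    have h2 := (hW j hj).2
    omega
  have hshc : ∀ (L : P → ℕ) (x : P) (j : ℕ), shift L x j x = j := by
    intro L x j
    unfold shift
    rw [if_pos rfl]
  have hinj : ((W ×ˢ S : Finset (ℕ × (P → ℕ))) : Set (ℕ × (P → ℕ))).InjOn
      (fun p => (⟨shift p.2 (c p.2) p.1, (c p.2, decide (p.2 (c p.2) = Fintype.card P))⟩ :
        Σ _ : P → ℕ, P × Bool)) := by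
    rintro ⟨j, L⟩ h1 ⟨j', L'⟩ h2 h
    rw [Finset.mem_coe, Finset.mem_product] at h1 h2
    dsimp only at h1 h2 h
    have e1 : shift L (c L) j = shift L' (c L') j' := congrArg Sigma.fst h
    have e2 : c L = c L' := congrArg (fun s : Σ _ : P → ℕ, P × Bool => s.2.1) h
    have e3 : decide (L (c L) = Fintype.card P) = decide (L' (c L') = Fintype.card P) :=
      congrArg (fun s : Σ _ : P → ℕ, P × Bool => s.2.2) h
    have e4 : j = j' := by
      have e5 := congrFun e1 (c L)
      rw [hshc] at e5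
      rw [e2, hshc] at e5
      exact e5
    subst e4
    have e6 : L (c L) = L' (c L) := by
      rw [decide_eq_decide] at e3
      rw [← e2] at e3
      have a1 := (hc L h1.2).1
      have a2 := (hc L' h2.2).1
      rw [← e2] at a2
      omega
    rw [← e2] at e1
    have e7 := shift_eq (hS L h1.2).1 (hS L' h2.2).1 (hle L h1.2 j h1.1) e6 e1
    rw [e7]
  have hmaps : ∀ p ∈ (W ×ˢ S : Finset (ℕ × (P → ℕ))),
      (⟨shift p.2 (c p.2) p.1, (c p.2, decide (p.2 (c p.2) = Fintype.card P))⟩ :
        Σ _ : P → ℕ, P × Bool) ∈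
        (labs P).sigma (fun L' => F L' ×ˢ (Finset.univ : Finset Bool)) := by
    rintro ⟨j, L⟩ hp
    rw [Finset.mem_product] at hp
    dsimp only at hp
    rw [Finset.mem_sigma, Finset.mem_product]
    refine ⟨?_, ?_, Finset.mem_univ _⟩
    · rw [mem_labs]
      exact shift_labeling (hS L hp.2).1 (hW j hp.1).1 (hle L hp.2 j hp.1)
    · exact (hc L hp.2).2 j hp.1
  have hcard := Finset.card_le_card_of_injOn _ hmaps hinj
  rw [Finset.card_product, Finset.card_sigma] at hcard
  refine hcard.trans ?_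
  rw [Finset.mul_sum]
  refine Finset.sum_le_sum fun L' _ => ?_
  rw [Finset.card_product, Finset.card_univ, Fintype.card_bool, mul_comm]

end Pool.Agent.Lib.MP_54b7d9_co
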