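import Pool.Agent.Lib.MP_54b7d9_co.Promo

set_option autoImplicit false

namespace Pool.Agent.Lib.MP_54b7d9_co

/-- the token of `x` after `t` promotions: label plus `t` -/
noncomputable def tok {P : Type} [Fintype P] [PartialOrder P] (L : P → ℕ) (t : ℕ) (x : P) : ℕ :=
  (promote^[t] L) x + t

open Classical in
/-- number of elements below `x` -/
noncomputable def dn {P : Type} [Fintype P] [PartialOrder P] (x : P) : ℕ :=
  (Finset.univ.filter (fun z : P => z < x)).card

open Classical in
/-- move the label of `c` down to `j` -/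
noncomputable def shift {P : Type} (L : P → ℕ) (c : P) (j : ℕ) (x : P) : ℕ :=
  if x = c then j else if L x < j then L x else if L x < L c then L x + 1 else L x

/-- the relabelling of the other tokens -/
def phi (j i s : ℕ) : ℕ := if s < j then s else if s < i then s + 1 else s

open Classical in
/-- the finite set of labelings -/
noncomputable def labs (P : Type) [Fintype P] : Finset (P → ℕ) :=
  (Fintype.piFinset (fun _ : P => Finset.Icc 1 (Fintype.card P))).filter IsLabeling

open Classical in
noncomputable def Fb {P : Type} [Fintype P] [PartialOrder P] (G : ℕ) (L : P → ℕ) : Finset P :=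
  Finset.univ.filter (fun x => dn x = 1 ∧ ∃ t : ℕ, t ≤ Fintype.card P ∧
    Fintype.card P ≤ tok L t x + G ∧ tok L t x ≤ Fintype.card P)

open Classical in
noncomputable def Fa {P : Type} [Fintype P] [PartialOrder P] (G D : ℕ) (L : P → ℕ) : Finset P :=
  Finset.univ.filter (fun c => Fintype.card P ≤ L c + G ∧ L c + 1 ≤ Fintype.card P ∧
    ∃ r : ℕ, Fintype.card P ≤ r + 2 ∧ r ≤ Fintype.card P ∧ ∃ (T : ℕ) (u : P),
      (∀ t < T, ∀ x, tok L t x = r → D < dn x) ∧ tok L T u = r ∧ dn u ≤ D ∧ c < u)

end Pool.Agent.Lib.MP_54b7d9_co
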