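import Pool.Agent.Lib.MP_54b7d9_co.UTok

set_option autoImplicit false

namespace Pool.Agent.Lib.MP_54b7d9_co

variable {P : Type} [Fintype P] [PartialOrder P]

theorem D_dn_lt {x y : P} (h : x < y) : dn x < dn y := by
  classical
  unfold dn
  apply Finset.card_lt_card
  rw [Finset.ssubset_iff_of_subset]
  · exact ⟨x, by simp [h], by simp⟩
  · intro z hz
    simp only [Finset.mem_filter, Finset.mem_univ, true_and] at hz ⊢
    exact hz.trans h

theorem D_aux {L : P → ℕ} (hL : IsLabeling L) {s t : ℕ} {x y : P} (hx : dn x = 1)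
    (hy : dn y = 1) (hst : s ≤ t) (ht : tok L t y ≤ Fintype.card P)
    (he : tok L s x = tok L t y) : x = y := by
  obtain ⟨z, hz1, hz2⟩ := tok_back hL hst ht
  have hzx : z = x := tok_inj hL s (hz2.trans he.symm)
  subst hzx
  rcases hz1.eq_or_lt with h | h
  · exact h.symm
  · have := D_dn_lt h
    omega

theorem card_Fb {L : P → ℕ} (hL : IsLabeling L) (G : ℕ) : (Fb G L).card ≤ G + 1 := by
  classical
  have hmem : ∀ x : P, x ∈ Fb G L → ∃ t : ℕ, dn x = 1 ∧
      Fintype.card P ≤ tok L t x + G ∧ tok L t x ≤ Fintype.card P := by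
    intro x hx
    unfold Fb at hx
    simp only [Finset.mem_filter, Finset.mem_univ, true_and] at hx
    obtain ⟨h1, t, -, h2, h3⟩ := hx
    exact ⟨t, h1, h2, h3⟩
  choose! T hT using hmem
  have hcard : (Finset.Icc (Fintype.card P - G) (Fintype.card P)).card ≤ G + 1 := by
    rw [Nat.card_Icc]
    omega
  refine le_trans (Finset.card_le_card_of_injOn (fun x => tok L (T x) x) ?_ ?_) hcard
  · intro x hx
    obtain ⟨-, h2, h3⟩ := hT x (Finset.mem_coe.1 hx)
    simp only [Finset.coe_Icc, Set.mem_Icc]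
    omega
  · intro x hx y hy he
    obtain ⟨hx1, hx2, hx3⟩ := hT x (Finset.mem_coe.1 hx)
    obtain ⟨hy1, hy2, hy3⟩ := hT y (Finset.mem_coe.1 hy)
    simp only at he
    rcases le_total (T x) (T y) with h | h
    · exact D_aux hL hx1 hy1 h hy3 he
    · exact (D_aux hL hy1 hx1 h hx3 he.symm).symm

end Pool.Agent.Lib.MP_54b7d9_co
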