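import Pool.Agent.Lib.MP_54b7d9_co.UCount

set_option autoImplicit false

namespace Pool.Agent.Lib.MP_54b7d9_co

variable {P : Type} [Fintype P] [PartialOrder P]

omit [PartialOrder P] in
theorem G1_comp {L : P → ℕ} (hL : IsLabeling L) (σ : Equiv.Perm P) :
    IsLabeling (fun x => L (σ x)) := by
  have h2 : Set.BijOn (σ : P → P) Set.univ Set.univ := Set.bijOn_univ.mpr σ.bijective
  exact Set.BijOn.comp hL h2

open Classical in
theorem card_sub (A : Finset P) (W : Finset ℕ) (hW : W ⊆ Finset.Icc 1 (Fintype.card P)) :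
    (Fintype.card P).choose A.card *
      ((labs P).filter (fun L => ∀ a ∈ A, L a ∈ W)).card
      ≤ W.card.choose A.card * (Fintype.card P).factorial := by
  have h1 : ∀ A' ∈ Finset.powersetCard A.card (Finset.univ : Finset P),
      ((labs P).filter (fun L => ∀ a ∈ A, L a ∈ W)).card ≤
        ((labs P).filter (fun L => ∀ a ∈ A', L a ∈ W)).card := by
    intro A' hA'
    have hc : A'.card = A.card := (Finset.mem_powersetCard.mp hA').2
    let e : {x // x ∈ A'} ≃ {x // x ∈ A} := Finset.equivOfCardEq hc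
    apply Finset.card_le_card_of_injOn (fun L x => L (e.extendSubtype x))
    · intro L hL
      rw [Finset.mem_coe, Finset.mem_filter] at hL ⊢
      exact ⟨mem_labs.mpr (G1_comp (mem_labs.mp hL.1) _),
        fun a ha => hL.2 _ (e.extendSubtype_mem a ha)⟩
    · intro L _ L' _ h
      funext x
      have h3 := congrFun h (e.extendSubtype.symm x)
      simpa using h3
  have h2 : ∀ L ∈ labs P, ((Finset.powersetCard A.card (Finset.univ : Finset P)).filter
      (fun A' => ∀ a ∈ A', L a ∈ W)).card ≤ W.card.choose A.card := by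
    intro L hL
    have hinj := (mem_labs.mp hL).injOn
    have h3 : (Finset.powersetCard A.card (Finset.univ : Finset P)).filter
        (fun A' => ∀ a ∈ A', L a ∈ W) ⊆
          Finset.powersetCard A.card (Finset.univ.filter (fun a => L a ∈ W)) := by
      intro B hB
      rw [Finset.mem_filter, Finset.mem_powersetCard] at hB
      rw [Finset.mem_powersetCard]
      exact ⟨fun a ha => Finset.mem_filter.mpr ⟨Finset.mem_univ a, hB.2 a ha⟩, hB.1.2⟩
    refine (Finset.card_le_card h3).trans ?_
    rw [Finset.card_powersetCard]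
    apply Nat.choose_le_choose
    exact Finset.card_le_card_of_injOn L (fun a ha => (Finset.mem_filter.mp ha).2)
      (fun a _ b _ h => hinj (Set.mem_univ a) (Set.mem_univ b) h)
  calc (Fintype.card P).choose A.card *
      ((labs P).filter (fun L => ∀ a ∈ A, L a ∈ W)).card
      = ∑ A' ∈ Finset.powersetCard A.card (Finset.univ : Finset P),
        ((labs P).filter (fun L => ∀ a ∈ A, L a ∈ W)).card := by
        rw [Finset.sum_const, Finset.card_powersetCard, Finset.card_univ, smul_eq_mul]
    _ ≤ ∑ A' ∈ Finset.powersetCard A.card (Finset.univ : Finset P),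
        ((labs P).filter (fun L => ∀ a ∈ A', L a ∈ W)).card := Finset.sum_le_sum h1
    _ = ∑ L ∈ labs P, ((Finset.powersetCard A.card (Finset.univ : Finset P)).filter
        (fun A' => ∀ a ∈ A', L a ∈ W)).card := by
        simp only [Finset.card_filter]
        exact Finset.sum_comm
    _ ≤ ∑ L ∈ labs P, W.card.choose A.card := Finset.sum_le_sum h2
    _ = W.card.choose A.card * (Fintype.card P).factorial := by
        rw [Finset.sum_const, card_labs, smul_eq_mul, Nat.mul_comm]

/-- the window of labels -/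
def G2_W (n G : ℕ) : Finset ℕ := Finset.Icc (n - G) (n - 1)

open Classical in
/-- the `q`-sets of elements below `u` -/
noncomputable def G2_sets (q : ℕ) (u : P) : Finset (Finset P) :=
  Finset.powersetCard q (Finset.univ.filter (fun z : P => z < u))

open Classical in
noncomputable def G2_Q (q G D : ℕ) (L : P → ℕ) : ℕ :=
  ∑ u ∈ Finset.univ.filter (fun u : P => dn u ≤ D),
    ((G2_sets q u).filter (fun A => ∀ a ∈ A, L a ∈ G2_W (Fintype.card P) G)).card

theorem G2_sets_card {q : ℕ} {u : P} {D : ℕ} (h : dn u ≤ D) :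
    (G2_sets q u).card ≤ D.choose q := by
  classical
  unfold G2_sets
  rw [Finset.card_powersetCard]
  apply Nat.choose_le_choose
  refine le_trans (le_of_eq ?_) h
  unfold dn
  congr

theorem G2_choose {q : ℕ} (hq : 1 ≤ q) (X : ℕ) : X ≤ (q - 1) + X.choose q := by
  rcases Nat.lt_or_ge X q with h | h
  · omega
  · obtain ⟨m, rfl⟩ := Nat.exists_eq_add_of_le h
    have h2 : ∀ m : ℕ, m + 1 ≤ (q + m).choose q := by
      intro m
      induction m with
      | zero => simp
      | succ m ih =>
        obtain ⟨p, rfl⟩ := Nat.exists_eq_add_of_le' hq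
        have h3 : (p + 1 + (m + 1)).choose (p + 1) =
            (p + 1 + m).choose p + (p + 1 + m).choose (p + 1) := by
          rw [← add_assoc]
          exact Nat.choose_succ_succ _ _
        have h4 : 0 < (p + 1 + m).choose p := Nat.choose_pos (by omega)
        omega
    have := h2 m
    omega

/-- first holder of the token `r` with few elements below -/
def G2_R (D : ℕ) (L : P → ℕ) (r : ℕ) (u : P) : Prop :=
  ∃ T : ℕ, (∀ t < T, ∀ x, tok L t x = r → D < dn x) ∧ tok L T u = r ∧ dn u ≤ D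

theorem G2_uniq {L : P → ℕ} (hL : IsLabeling L) {D r : ℕ} {u u' : P} (h : G2_R D L r u)
    (h' : G2_R D L r u') : u = u' := by
  obtain ⟨T, h1, h2, h3⟩ := h
  obtain ⟨T', h1', h2', h3'⟩ := h'
  rcases lt_trichotomy T T' with h | h | h
  · exact absurd (h1' T h u h2) (by omega)
  · subst h
    exact tok_inj hL T (h2.trans h2'.symm)
  · exact absurd (h1 T' h u' h2') (by omega)

theorem G2_one {L : P → ℕ} (hL : IsLabeling L) {q : ℕ} (hq : 1 ≤ q) (G D r : ℕ)
    [DecidablePred (fun c : P => L c ∈ G2_W (Fintype.card P) G ∧ ∃ u, G2_R D L r u ∧ c < u)] :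
    (Finset.univ.filter (fun c : P => L c ∈ G2_W (Fintype.card P) G ∧
      ∃ u, G2_R D L r u ∧ c < u)).card ≤ (q - 1) + G2_Q q G D L := by
  classical
  by_cases h : ∃ u, G2_R D L r u
  · obtain ⟨u, hu⟩ := h
    have hdn : dn u ≤ D := by obtain ⟨T, _, _, h3⟩ := hu; exact h3
    obtain ⟨X, hX⟩ : ∃ X : Finset P, X = Finset.univ.filter (fun c : P =>
      L c ∈ G2_W (Fintype.card P) G ∧ c < u) := ⟨_, rfl⟩
    have h1 : Finset.univ.filter (fun c : P => L c ∈ G2_W (Fintype.card P) G ∧
      ∃ u, G2_R D L r u ∧ c < u) ⊆ X := by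
      intro c hc
      rw [Finset.mem_filter] at hc
      obtain ⟨_, hc1, u', hu', hcu⟩ := hc
      rw [hX, Finset.mem_filter]
      rw [G2_uniq hL hu' hu] at hcu
      exact ⟨Finset.mem_univ _, hc1, hcu⟩
    have h2 : Finset.powersetCard q X ⊆ (G2_sets q u).filter
        (fun A => ∀ a ∈ A, L a ∈ G2_W (Fintype.card P) G) := by
      intro A hA
      rw [Finset.mem_powersetCard] at hA
      have hA1 : ∀ a ∈ A, L a ∈ G2_W (Fintype.card P) G ∧ a < u := by
        intro a ha
        have := hA.1 ha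
        rw [hX, Finset.mem_filter] at this
        exact this.2
      rw [Finset.mem_filter]
      refine ⟨?_, fun a ha => (hA1 a ha).1⟩
      unfold G2_sets
      rw [Finset.mem_powersetCard]
      exact ⟨fun a ha => Finset.mem_filter.mpr ⟨Finset.mem_univ _, (hA1 a ha).2⟩, hA.2⟩
    have h3 : ((G2_sets q u).filter
        (fun A => ∀ a ∈ A, L a ∈ G2_W (Fintype.card P) G)).card ≤ G2_Q q G D L := by
      unfold G2_Q
      refine Finset.single_le_sum (f := fun u : P => ((G2_sets q u).filter
        (fun A => ∀ a ∈ A, L a ∈ G2_W (Fintype.card P) G)).card)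
        (fun _ _ => Nat.zero_le _) ?_
      rw [Finset.mem_filter]
      exact ⟨Finset.mem_univ _, hdn⟩
    have h4 := (Finset.card_le_card h2).trans h3
    rw [Finset.card_powersetCard] at h4
    have h5 := Finset.card_le_card h1
    have h6 := G2_choose hq X.card
    omega
  · have h1 : Finset.univ.filter (fun c : P => L c ∈ G2_W (Fintype.card P) G ∧
      ∃ u, G2_R D L r u ∧ c < u) = ∅ := by
      rw [Finset.filter_eq_empty_iff]
      rintro c _ ⟨_, u, hu, _⟩
      exact h ⟨u, hu⟩
    rw [h1]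
    simp

theorem G2_card {L : P → ℕ} (hL : IsLabeling L) {q : ℕ} (hq : 1 ≤ q) (G D : ℕ) :
    (Fa G D L).card ≤ 3 * ((q - 1) + G2_Q q G D L) := by
  classical
  have h1 : Fa G D L ⊆ (Finset.Icc (Fintype.card P - 2) (Fintype.card P)).biUnion
      (fun r => Finset.univ.filter (fun c : P => L c ∈ G2_W (Fintype.card P) G ∧
        ∃ u, G2_R D L r u ∧ c < u)) := by
    intro c hc
    unfold Fa at hc
    rw [Finset.mem_filter] at hc
    obtain ⟨_, hc1, hc2, r, hr1, hr2, T, u, h1, h2, h3, h4⟩ := hc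
    rw [Finset.mem_biUnion]
    refine ⟨r, ?_, ?_⟩
    · rw [Finset.mem_Icc]; omega
    · rw [Finset.mem_filter]
      refine ⟨Finset.mem_univ _, ?_, u, ⟨T, h1, h2, h3⟩, h4⟩
      unfold G2_W
      rw [Finset.mem_Icc]; omega
  refine (Finset.card_le_card h1).trans (Finset.card_biUnion_le.trans ?_)
  have h2 : ∑ r ∈ Finset.Icc (Fintype.card P - 2) (Fintype.card P),
      (Finset.univ.filter (fun c : P => L c ∈ G2_W (Fintype.card P) G ∧
        ∃ u, G2_R D L r u ∧ c < u)).card ≤
      ∑ r ∈ Finset.Icc (Fintype.card P - 2) (Fintype.card P), ((q - 1) + G2_Q q G D L) :=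
    Finset.sum_le_sum fun r _ => G2_one hL hq G D r
  refine h2.trans ?_
  rw [Finset.sum_const, smul_eq_mul, Nat.card_Icc]
  exact Nat.mul_le_mul_right _ (by omega)

open Classical in
theorem G2_win {q : ℕ} {A : Finset P} (hA : A.card = q) {G : ℕ} (hG : G < Fintype.card P) :
    (Fintype.card P).choose q *
      ((labs P).filter (fun L => ∀ a ∈ A, L a ∈ G2_W (Fintype.card P) G)).card
        ≤ G.choose q * (Fintype.card P).factorial := by
  have hW : G2_W (Fintype.card P) G ⊆ Finset.Icc 1 (Fintype.card P) := by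
    intro i hi
    unfold G2_W at hi
    rw [Finset.mem_Icc] at hi ⊢
    omega
  have h1 := card_sub A (G2_W (Fintype.card P) G) hW
  rw [hA] at h1
  have h2 : (G2_W (Fintype.card P) G).card = G := by
    unfold G2_W
    rw [Nat.card_Icc]
    omega
  rw [h2] at h1
  exact h1

theorem G2_sumQ (q : ℕ) {G : ℕ} (hG : G < Fintype.card P) (D : ℕ) :
    (Fintype.card P).choose q * ∑ L ∈ labs P, G2_Q q G D L ≤
      Fintype.card P * (D.choose q * G.choose q) * (Fintype.card P).factorial := by
  classical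
  have hex : ∑ L ∈ labs P, G2_Q q G D L =
      ∑ u ∈ Finset.univ.filter (fun u : P => dn u ≤ D), ∑ A ∈ G2_sets q u,
        ((labs P).filter (fun L => ∀ a ∈ A, L a ∈ G2_W (Fintype.card P) G)).card := by
    have e1 : ∀ L ∈ labs P, G2_Q q G D L = ∑ u ∈ Finset.univ.filter (fun u : P => dn u ≤ D),
        ∑ A ∈ G2_sets q u, (if ∀ a ∈ A, L a ∈ G2_W (Fintype.card P) G then 1 else 0) := by
      intro L _
      unfold G2_Q
      refine Finset.sum_congr (by congr) fun u _ => ?_
      rw [Finset.card_filter]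
    rw [Finset.sum_congr rfl e1, Finset.sum_comm]
    refine Finset.sum_congr rfl fun u _ => ?_
    rw [Finset.sum_comm]
    refine Finset.sum_congr rfl fun A _ => ?_
    rw [Finset.card_filter]
  rw [hex, Finset.mul_sum]
  have h1 : ∀ u ∈ Finset.univ.filter (fun u : P => dn u ≤ D),
      (Fintype.card P).choose q * ∑ A ∈ G2_sets q u,
        ((labs P).filter (fun L => ∀ a ∈ A, L a ∈ G2_W (Fintype.card P) G)).card ≤
      D.choose q * (G.choose q * (Fintype.card P).factorial) := by
    intro u hu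
    rw [Finset.mem_filter] at hu
    rw [Finset.mul_sum]
    have h2 : ∀ A ∈ G2_sets q u, (Fintype.card P).choose q *
        ((labs P).filter (fun L => ∀ a ∈ A, L a ∈ G2_W (Fintype.card P) G)).card ≤
        G.choose q * (Fintype.card P).factorial := by
      intro A hA
      unfold G2_sets at hA
      rw [Finset.mem_powersetCard] at hA
      exact G2_win hA.2 hG
    refine (Finset.sum_le_sum h2).trans ?_
    rw [Finset.sum_const, smul_eq_mul]
    exact Nat.mul_le_mul_right _ (G2_sets_card hu.2)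
  refine (Finset.sum_le_sum h1).trans ?_
  rw [Finset.sum_const, smul_eq_mul]
  have h3 : (Finset.univ.filter (fun u : P => dn u ≤ D)).card ≤ Fintype.card P :=
    (Finset.card_filter_le _ _).trans (by rw [Finset.card_univ])
  refine (Nat.mul_le_mul_right _ h3).trans (le_of_eq ?_)
  ring

theorem sum_Fa_q (q G D : ℕ) (hq : 1 ≤ q) (hG : G < Fintype.card P) :
    (Fintype.card P).choose q * ∑ L ∈ labs P, (Fa G D L).card
      ≤ 3 * ((q - 1) * (Fintype.card P).choose q
          + Fintype.card P * (D.choose q * G.choose q)) * (Fintype.card P).factorial := by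
  have h1 : ∑ L ∈ labs P, (Fa G D L).card ≤ ∑ L ∈ labs P, 3 * ((q - 1) + G2_Q q G D L) :=
    Finset.sum_le_sum fun L hL => G2_card (mem_labs.mp hL) hq G D
  have h2 : ∑ L ∈ labs P, 3 * ((q - 1) + G2_Q q G D L) =
      3 * ((Fintype.card P).factorial * (q - 1) + ∑ L ∈ labs P, G2_Q q G D L) := by
    rw [← Finset.mul_sum, Finset.sum_add_distrib, Finset.sum_const, smul_eq_mul, card_labs]
  rw [h2] at h1
  refine (Nat.mul_le_mul_left _ h1).trans ?_
  have h3 := G2_sumQ (P := P) q hG D
  obtain ⟨S, hS⟩ : ∃ S, S = ∑ L ∈ labs P, G2_Q q G D L := ⟨_, rfl⟩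
  obtain ⟨N, hN⟩ : ∃ N, N = (Fintype.card P).choose q := ⟨_, rfl⟩
  obtain ⟨E, hE⟩ : ∃ E, E = D.choose q * G.choose q := ⟨_, rfl⟩
  obtain ⟨F, hF⟩ : ∃ F, F = (Fintype.card P).factorial := ⟨_, rfl⟩
  obtain ⟨n, hn⟩ : ∃ n, n = Fintype.card P := ⟨_, rfl⟩
  rw [← hS, ← hN, ← hE, ← hF] at h3 ⊢
  rw [← hn] at h3 ⊢
  calc N * (3 * (F * (q - 1) + S)) = 3 * (N * (F * (q - 1)) + N * S) := by ring
    _ ≤ 3 * (N * (F * (q - 1)) + n * E * F) :=
        Nat.mul_le_mul_left _ (Nat.add_le_add_left h3 _)
    _ = 3 * ((q - 1) * N + n * E) * F := by ring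

theorem G3_choose_le (m q : ℕ) : m.choose q ≤ m ^ q := by
  have h1 : q.factorial * m.choose q = m.descFactorial q :=
    (Nat.descFactorial_eq_factorial_mul_choose m q).symm
  have h2 : m.descFactorial q ≤ m ^ q := Nat.descFactorial_le_pow m q
  have h3 : 1 ≤ q.factorial := Nat.one_le_iff_ne_zero.mpr (Nat.factorial_ne_zero q)
  calc m.choose q = 1 * m.choose q := (one_mul _).symm
    _ ≤ q.factorial * m.choose q := Nat.mul_le_mul_right _ h3
    _ = m.descFactorial q := h1
    _ ≤ m ^ q := h2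

theorem arith_q {q n g : ℕ} (hq : 1 ≤ q) (hn : 2 * q ≤ n) (hg : g ^ (3 * q) ≤ n ^ (q - 1)) :
    n * ((g ^ 2).choose q * g.choose q) ≤ 2 ^ q * q.factorial * n.choose q := by
  have h1 : (g ^ 2).choose q * g.choose q ≤ n ^ (q - 1) := by
    calc (g ^ 2).choose q * g.choose q ≤ (g ^ 2) ^ q * g ^ q :=
          Nat.mul_le_mul (G3_choose_le _ _) (G3_choose_le _ _)
      _ = g ^ (3 * q) := by rw [← pow_mul, ← pow_add]; congr 1; ring
      _ ≤ n ^ (q - 1) := hg
  have h2 : n * ((g ^ 2).choose q * g.choose q) ≤ n ^ q := by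
    calc n * ((g ^ 2).choose q * g.choose q) ≤ n * n ^ (q - 1) := Nat.mul_le_mul_left _ h1
      _ = n ^ (q - 1 + 1) := by rw [pow_succ]; ring
      _ = n ^ q := by congr 1; omega
  have h3 : (n + 1 - q) ^ q ≤ n.descFactorial q := Nat.pow_sub_le_descFactorial n q
  have h4 : n.descFactorial q = q.factorial * n.choose q :=
    Nat.descFactorial_eq_factorial_mul_choose n q
  have h5 : n ^ q ≤ (2 * (n + 1 - q)) ^ q := Nat.pow_le_pow_left (by omega) q
  calc n * ((g ^ 2).choose q * g.choose q) ≤ n ^ q := h2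
    _ ≤ (2 * (n + 1 - q)) ^ q := h5
    _ = 2 ^ q * (n + 1 - q) ^ q := by rw [mul_pow]
    _ ≤ 2 ^ q * n.descFactorial q := Nat.mul_le_mul_left _ h3
    _ = 2 ^ q * q.factorial * n.choose q := by rw [h4]; ring

end Pool.Agent.Lib.MP_54b7d9_co
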