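import Pool.Agent.Lib.MP_54b7d9_co.UCount

set_option autoImplicit false

namespace Pool.Agent.Lib.MP_54b7d9_co

variable {P : Type} [Fintype P] [PartialOrder P]

open Classical in
theorem card_S0 (D : ℕ) :
    (Fintype.card P - 1) * ((labs P).filter (fun L => ∃ c y : P, c < y ∧ dn y ≤ D ∧
      (L c + 1 = Fintype.card P ∨ L c = Fintype.card P) ∧
      (L y + 2 = Fintype.card P ∨ L y + 1 = Fintype.card P))).card
      ≤ 4 * D * (Fintype.card P).factorial := by
  rcases Nat.eq_zero_or_pos (Fintype.card P) with h0 | hn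
  · rw [h0]; simp
  obtain ⟨n, hne⟩ : ∃ n, n = Fintype.card P := ⟨_, rfl⟩
  have hn' : 1 ≤ n := by omega
  obtain ⟨K, hK⟩ : ∃ K : Finset (P × P), K = Finset.univ.filter (fun p : P × P => p.1 < p.2 ∧ dn p.2 ≤ D) :=
    ⟨_, rfl⟩
  have hKc : K.card ≤ n * D := by
    have h1 : K ⊆ (Finset.univ.filter (fun y : P => dn y ≤ D)).biUnion
        (fun y => (Finset.univ.filter (fun z : P => z < y)).image (fun z => (z, y))) := by
      intro p hp
      rw [hK, Finset.mem_filter] at hp
      rw [Finset.mem_biUnion]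
      refine ⟨p.2, ?_, ?_⟩
      · rw [Finset.mem_filter]; exact ⟨Finset.mem_univ _, hp.2.2⟩
      · rw [Finset.mem_image]
        exact ⟨p.1, by rw [Finset.mem_filter]; exact ⟨Finset.mem_univ _, hp.2.1⟩, rfl⟩
    refine (Finset.card_le_card h1).trans (Finset.card_biUnion_le.trans ?_)
    have h2 : ∀ y ∈ Finset.univ.filter (fun y : P => dn y ≤ D),
        ((Finset.univ.filter (fun z : P => z < y)).image (fun z => (z, y))).card ≤ D := by
      intro y hy
      rw [Finset.mem_filter] at hy
      refine Finset.card_image_le.trans ?_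
      have h3 : (Finset.univ.filter (fun z : P => z < y)).card = dn y := by
        unfold dn
        congr
      rw [h3]; exact hy.2
    refine (Finset.sum_le_sum h2).trans ?_
    rw [Finset.sum_const, smul_eq_mul]
    refine Nat.mul_le_mul_right _ ?_
    refine (Finset.card_filter_le _ _).trans ?_
    rw [Finset.card_univ, hne]
  obtain ⟨I, hI⟩ : ∃ I : Finset (ℕ × ℕ), I = ({n - 1, n} : Finset ℕ) ×ˢ ({n - 2, n - 1} : Finset ℕ) :=
    ⟨_, rfl⟩
  have hIc : I.card ≤ 4 := by
    rw [hI, Finset.card_product]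
    exact Nat.mul_le_mul Finset.card_le_two Finset.card_le_two
  have hsub : (labs P).filter (fun L => ∃ c y : P, c < y ∧ dn y ≤ D ∧
      (L c + 1 = Fintype.card P ∨ L c = Fintype.card P) ∧
      (L y + 2 = Fintype.card P ∨ L y + 1 = Fintype.card P)) ⊆
      (K ×ˢ I).biUnion (fun q => (labs P).filter (fun L => L q.1.1 = q.2.1 ∧ L q.1.2 = q.2.2)) := by
    intro L hL
    rw [Finset.mem_filter] at hL
    obtain ⟨hL1, c, y, hcy, hy, h1, h2⟩ := hL
    rw [Finset.mem_biUnion]
    refine ⟨((c, y), (L c, L y)), ?_, ?_⟩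
    · rw [Finset.mem_product]
      constructor
      · rw [hK, Finset.mem_filter]; exact ⟨Finset.mem_univ _, hcy, hy⟩
      · rw [hI, Finset.mem_product]
        simp only [Finset.mem_insert, Finset.mem_singleton]
        omega
    · rw [Finset.mem_filter]; exact ⟨hL1, rfl, rfl⟩
  have h1 := (Finset.card_le_card hsub).trans Finset.card_biUnion_le
  have h2 : n * ((n - 1) * ((labs P).filter (fun L => ∃ c y : P, c < y ∧ dn y ≤ D ∧
      (L c + 1 = Fintype.card P ∨ L c = Fintype.card P) ∧
      (L y + 2 = Fintype.card P ∨ L y + 1 = Fintype.card P))).card) ≤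
      n * (4 * D * n.factorial) := by
    rw [← mul_assoc]
    refine (Nat.mul_le_mul_left _ h1).trans ?_
    rw [Finset.mul_sum]
    have h3 : ∀ q ∈ K ×ˢ I, n * (n - 1) * ((labs P).filter (fun L => L q.1.1 = q.2.1 ∧
        L q.1.2 = q.2.2)).card ≤ n.factorial := by
      intro q hq
      rw [Finset.mem_product, hK, Finset.mem_filter] at hq
      have := card_two (ne_of_lt hq.1.2.1) q.2.1 q.2.2
      rw [hne]
      convert this
    refine (Finset.sum_le_sum h3).trans ?_
    rw [Finset.sum_const, smul_eq_mul, Finset.card_product]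
    calc K.card * I.card * n.factorial ≤ (n * D) * 4 * n.factorial :=
          Nat.mul_le_mul_right _ (Nat.mul_le_mul hKc hIc)
      _ = _ := by ring
  have h4 := Nat.le_of_mul_le_mul_left h2 (by omega : 0 < n)
  rw [hne] at h4
  exact h4

end Pool.Agent.Lib.MP_54b7d9_co
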