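import Pool.Agent.Lib.MP_54b7d9_co.UMain
import Pool.Agent.Lib.MP_54b7d9_co.UFb
import Pool.Agent.Lib.MP_54b7d9_co.USz
import Pool.Agent.Lib.MP_54b7d9_co.UG

set_option autoImplicit false

namespace Pool.Agent.Lib.MP_54b7d9_co

variable {P : Type} [Fintype P] [PartialOrder P]

theorem UL_choose_le (m q : ℕ) : q.factorial * m.choose q ≤ m ^ q := by
  rw [← Nat.descFactorial_eq_factorial_mul_choose]
  exact Nat.descFactorial_le_pow m q

theorem arith_l {q n g d : ℕ} (hn : 2 * q ≤ n) (hg : 2 * (d * g) ≤ n)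
    (hq : n ≤ q.factorial) :
    n * (d.choose q * g.choose q) ≤ n.choose q := by
  have h1 : (q.factorial * d.choose q) * (q.factorial * g.choose q)
      ≤ q.factorial * n.choose q := by
    calc (q.factorial * d.choose q) * (q.factorial * g.choose q)
        ≤ d ^ q * g ^ q := Nat.mul_le_mul (UL_choose_le _ _) (UL_choose_le _ _)
      _ = (d * g) ^ q := by rw [← mul_pow]
      _ ≤ (n + 1 - q) ^ q := Nat.pow_le_pow_left (by omega) q
      _ ≤ q.factorial * n.choose q := by
          have := Nat.pow_le_choose (α := ℚ) q n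
          rw [div_le_iff₀ (by exact_mod_cast Nat.factorial_pos q)] at this
          have h2 : ((n + 1 - q : ℕ) : ℚ) ^ q ≤ (n.choose q : ℚ) * q.factorial := this
          rw [mul_comm]
          exact_mod_cast h2
  have h2 : q.factorial * (q.factorial * (d.choose q * g.choose q))
      ≤ q.factorial * n.choose q := by
    calc q.factorial * (q.factorial * (d.choose q * g.choose q))
        = (q.factorial * d.choose q) * (q.factorial * g.choose q) := by ring
      _ ≤ _ := h1
  have h3 := Nat.le_of_mul_le_mul_left h2 (Nat.factorial_pos q)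
  exact (Nat.mul_le_mul_right _ hq).trans h3

open Classical in
theorem quasiCount_eq :
    quasiCount P = ((labs P).filter (fun L => QuasiTangled L)).card := by
  unfold quasiCount
  apply Nat.subtype_card
  intro L
  rw [Finset.mem_filter, mem_labs]

theorem quasiCount_le : quasiCount P ≤ (Fintype.card P).factorial := by
  classical
  rw [quasiCount_eq, ← card_labs]
  exact Finset.card_le_card (Finset.filter_subset _ _)

def PB (g d : ℕ) (L : P → ℕ) : Prop :=
  ∃ c, (L c + 1 = Fintype.card P ∨ L c = Fintype.card P) ∧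
    ∀ j ∈ Finset.Icc (Fintype.card P - g) (Fintype.card P - 1), c ∈ Fa g d (shift L c j)

def PC (g d : ℕ) (L : P → ℕ) : Prop :=
  ∃ c, (L c + 1 = Fintype.card P ∨ L c = Fintype.card P) ∧
    ∀ j ∈ Finset.Icc (Fintype.card P - d) (Fintype.card P - 1), c ∈ Fb g (shift L c j)

/-- the three families and their sizes -/
theorem three_parts {q g d : ℕ} (hg2 : 2 ≤ g) (hgd : g + 1 ≤ d)
    (hdn : 2 * (d * g) ≤ Fintype.card P) (hq1 : 1 ≤ q) (hq2 : 2 * q ≤ Fintype.card P)
    (hqf : Fintype.card P ≤ q.factorial) :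
    ∃ a b c : ℕ, quasiCount P ≤ a + b + c ∧
      (Fintype.card P - 1) * a ≤ 4 * d * (Fintype.card P).factorial ∧
      g * b ≤ 6 * q * (Fintype.card P).factorial ∧
      d * c ≤ 4 * g * (Fintype.card P).factorial := by
  classical
  have hdg : d * 2 ≤ d * g := Nat.mul_le_mul_left _ hg2
  have hgn : d + 4 ≤ (Fintype.card P) := by omega
  have hgltn : g < (Fintype.card P) := by omega
  -- the three families
  set S0 := (labs P).filter (fun L => ∃ c y : P, c < y ∧ dn y ≤ d ∧
    (L c + 1 = Fintype.card P ∨ L c = Fintype.card P) ∧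
    (L y + 2 = Fintype.card P ∨ L y + 1 = Fintype.card P)) with hS0
  set S1 := (labs P).filter (fun L => PB g d L) with hS1
  set S2 := (labs P).filter (fun L => PC g d L) with hS2
  have hsub : (labs P).filter (fun L => QuasiTangled L) ⊆ S0 ∪ S1 ∪ S2 := by
    intro L hL
    rw [Finset.mem_filter] at hL
    have hlab := mem_labs.mp hL.1
    rcases structure_thm hlab hL.2 (G := g) (D := d) (by omega) hgd hgn with h | h | h
    · exact Finset.mem_union_left _ (Finset.mem_union_left _ (Finset.mem_filter.mpr ⟨hL.1, h⟩))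
    · exact Finset.mem_union_left _ (Finset.mem_union_right _ (Finset.mem_filter.mpr ⟨hL.1, h⟩))
    · exact Finset.mem_union_right _ (Finset.mem_filter.mpr ⟨hL.1, h⟩)
  have hqc : quasiCount P ≤ S0.card + S1.card + S2.card := by
    rw [quasiCount_eq]
    refine (Finset.card_le_card hsub).trans ?_
    refine (Finset.card_union_le _ _).trans ?_
    exact Nat.add_le_add_right (Finset.card_union_le _ _) _
  have h0 := card_S0 (P := P) d
  rw [← hS0] at h0
  have h1 := double_count S1 (Finset.Icc ((Fintype.card P) - g) ((Fintype.card P) - 1)) (Fa g d)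
    (fun j hj => by rw [Finset.mem_Icc] at hj; omega)
    (fun L hL => by
      rw [hS1, Finset.mem_filter] at hL
      exact ⟨mem_labs.mp hL.1, hL.2⟩)
  have h2 := double_count S2 (Finset.Icc ((Fintype.card P) - d) ((Fintype.card P) - 1)) (Fb g)
    (fun j hj => by rw [Finset.mem_Icc] at hj; omega)
    (fun L hL => by
      rw [hS2, Finset.mem_filter] at hL
      exact ⟨mem_labs.mp hL.1, hL.2⟩)
  rw [Nat.card_Icc] at h1 h2
  have e1 : (Fintype.card P) - 1 + 1 - ((Fintype.card P) - g) = g := by omega
  have e2 : (Fintype.card P) - 1 + 1 - ((Fintype.card P) - d) = d := by omega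
  rw [e1] at h1
  rw [e2] at h2
  have h3 := sum_Fa_q (P := P) q g d hq1 hgltn
  have h4 : ∑ L' ∈ labs P, (Fb g L').card ≤ (Fintype.card P).factorial * (g + 1) := by
    calc ∑ L' ∈ labs P, (Fb g L').card ≤ ∑ L' ∈ labs P, (g + 1) :=
          Finset.sum_le_sum (fun L hL => card_Fb (mem_labs.mp hL) g)
      _ = (Fintype.card P).factorial * (g + 1) := by
          rw [Finset.sum_const, smul_eq_mul, card_labs]
  have h5 := arith_l (g := g) (d := d) hq2 hdn hqf
  have hcpos : 0 < (Fintype.card P).choose q := Nat.choose_pos (by omega)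
  refine ⟨S0.card, S1.card, S2.card, hqc, h0, ?_, ?_⟩
  · have k1 : (Fintype.card P).choose q * (g * S1.card) ≤ (Fintype.card P).choose q * (6 * q * (Fintype.card P).factorial) := by
      calc (Fintype.card P).choose q * (g * S1.card)
            ≤ (Fintype.card P).choose q * (2 * ∑ L' ∈ labs P, (Fa g d L').card) :=
            Nat.mul_le_mul_left _ h1
        _ = 2 * ((Fintype.card P).choose q * ∑ L' ∈ labs P, (Fa g d L').card) := by ring
        _ ≤ 2 * (3 * ((q - 1) * (Fintype.card P).choose q + (Fintype.card P) * (d.choose q * g.choose q)) * (Fintype.card P).factorial) :=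
            Nat.mul_le_mul_left _ h3
        _ ≤ 2 * (3 * ((q - 1) * (Fintype.card P).choose q + (Fintype.card P).choose q) * (Fintype.card P).factorial) := by
            apply Nat.mul_le_mul_left
            apply Nat.mul_le_mul_right
            apply Nat.mul_le_mul_left
            exact Nat.add_le_add_left h5 _
        _ = (Fintype.card P).choose q * (6 * ((q - 1) + 1) * (Fintype.card P).factorial) := by ring
        _ = (Fintype.card P).choose q * (6 * q * (Fintype.card P).factorial) := by rw [Nat.sub_add_cancel hq1]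
    exact Nat.le_of_mul_le_mul_left k1 hcpos
  · calc d * S2.card ≤ 2 * ∑ L' ∈ labs P, (Fb g L').card := h2
      _ ≤ 2 * ((Fintype.card P).factorial * (g + 1)) := Nat.mul_le_mul_left _ h4
      _ ≤ 2 * ((Fintype.card P).factorial * (g + g)) := by
          apply Nat.mul_le_mul_left
          apply Nat.mul_le_mul_left
          omega
      _ = 4 * g * (Fintype.card P).factorial := by ring

theorem main_ub_l {q g : ℕ} (hg2 : 2 ≤ g) (hq1 : 1 ≤ q) (hgq : g ^ 3 ≤ q * Fintype.card P)
    (hq2 : 64 * q ^ 2 ≤ Fintype.card P) (hqf : Fintype.card P ≤ q.factorial) :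
    g * quasiCount P ≤ (4 + 22 * q) * (Fintype.card P).factorial := by
  set n := Fintype.card P with hn
  have hq3 : 2 * q ≤ n := by nlinarith
  have hn2 : 64 ≤ n := by nlinarith
  -- 4 g ^ 2 ≤ n
  have h4g : 4 * g ^ 2 ≤ n := by
    by_contra hcon
    rw [not_le] at hcon
    have h1 : n ^ 3 < (4 * g ^ 2) ^ 3 := Nat.pow_lt_pow_left hcon (by norm_num)
    have h2 : (4 * g ^ 2) ^ 3 = 64 * (g ^ 3) ^ 2 := by ring
    have h3 : (g ^ 3) ^ 2 ≤ (q * n) ^ 2 := Nat.pow_le_pow_left hgq 2
    have h4 : 64 * (q * n) ^ 2 = (64 * q ^ 2) * n ^ 2 := by ring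
    have h5 : (64 * q ^ 2) * n ^ 2 ≤ n * n ^ 2 := Nat.mul_le_mul_right _ hq2
    have h6 : n * n ^ 2 = n ^ 3 := by ring
    omega
  obtain ⟨d, hd⟩ : ∃ d, d = n / (2 * g) := ⟨_, rfl⟩
  have hd1 : d * (2 * g) ≤ n := by rw [hd]; exact Nat.div_mul_le_self _ _
  have hd2 : n < (d + 1) * (2 * g) := by
    rw [hd]
    have := Nat.lt_div_mul_add (a := n) (b := 2 * g) (by omega)
    calc n < n / (2 * g) * (2 * g) + 2 * g := this
      _ = (n / (2 * g) + 1) * (2 * g) := by ring
  have hd3 : g + 1 ≤ d := by
    by_contra hcon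
    rw [not_le] at hcon
    have h1 : (d + 1) * (2 * g) ≤ (g + 1) * (2 * g) := Nat.mul_le_mul_right _ (by omega)
    have h2 : (g + 1) * (2 * g) ≤ 4 * g ^ 2 := by nlinarith
    omega
  obtain ⟨a, b, c, hqc, ha, hb, hc⟩ := three_parts (P := P) (q := q) (g := g) (d := d) hg2 hd3
    (by rw [← hn]; calc 2 * (d * g) = d * (2 * g) := by ring
          _ ≤ n := hd1) hq1 hq3 hqf
  rw [← hn] at ha hb hc
  set F := n.factorial with hF
  have ha' : g * a ≤ 4 * F := by
    have k1 : (n - 1) * (g * a) ≤ (n - 1) * (4 * F) := by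
      calc (n - 1) * (g * a) = g * ((n - 1) * a) := by ring
        _ ≤ g * (4 * d * F) := Nat.mul_le_mul_left _ ha
        _ = 2 * (d * (2 * g)) * F := by ring
        _ ≤ 2 * n * F := by
            apply Nat.mul_le_mul_right
            apply Nat.mul_le_mul_left
            exact hd1
        _ ≤ (4 * (n - 1)) * F := by
            apply Nat.mul_le_mul_right
            omega
        _ = (n - 1) * (4 * F) := by ring
    exact Nat.le_of_mul_le_mul_left k1 (by omega)
  have hc' : g * c ≤ 16 * q * F := by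
    -- g ^ 2 ≤ 4 q d
    have hgd : g ^ 2 ≤ 4 * q * d := by
      have h1 : g * g ^ 2 ≤ g * (4 * q * d) := by
        calc g * g ^ 2 = g ^ 3 := by ring
          _ ≤ q * n := hgq
          _ ≤ q * ((d + 1) * (2 * g)) := Nat.mul_le_mul_left _ hd2.le
          _ ≤ q * ((d + d) * (2 * g)) := by
              apply Nat.mul_le_mul_left
              apply Nat.mul_le_mul_right
              omega
          _ = g * (4 * q * d) := by ring
      exact Nat.le_of_mul_le_mul_left h1 (by omega)
    have k1 : d * (g * c) ≤ d * (16 * q * F) := by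
      calc d * (g * c) = g * (d * c) := by ring
        _ ≤ g * (4 * g * F) := Nat.mul_le_mul_left _ hc
        _ = 4 * g ^ 2 * F := by ring
        _ ≤ 4 * (4 * q * d) * F := by
            apply Nat.mul_le_mul_right
            apply Nat.mul_le_mul_left
            exact hgd
        _ = d * (16 * q * F) := by ring
    exact Nat.le_of_mul_le_mul_left k1 (by omega)
  calc g * quasiCount P ≤ g * (a + b + c) := Nat.mul_le_mul_left _ hqc
    _ = g * a + g * b + g * c := by ring
    _ ≤ 4 * F + 6 * q * F + 16 * q * F := Nat.add_le_add (Nat.add_le_add ha' hb) hc'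
    _ = (4 + 22 * q) * F := by ring

theorem exists_poset (n : ℕ) : ∃ o : PartialOrder (Fin n), maxQuasi n = @quasiCount (Fin n) _ o := by
  have hne : {q : ℕ | ∃ o : PartialOrder (Fin n), q = @quasiCount (Fin n) _ o}.Nonempty :=
    ⟨_, inferInstance, rfl⟩
  have hbdd : BddAbove {q : ℕ | ∃ o : PartialOrder (Fin n), q = @quasiCount (Fin n) _ o} := by
    refine ⟨n.factorial, ?_⟩
    rintro q ⟨o, rfl⟩
    have := @quasiCount_le (Fin n) _ o
    rwa [Fintype.card_fin] at this
  exact Nat.sSup_mem hne hbdd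

theorem maxQuasi_le (n : ℕ) : maxQuasi n ≤ n.factorial := by
  obtain ⟨o, ho⟩ := exists_poset n
  rw [ho]
  have := @quasiCount_le (Fin n) _ o
  rwa [Fintype.card_fin] at this

theorem main_max_l {n q g : ℕ} (hg2 : 2 ≤ g) (hq1 : 1 ≤ q) (hgq : g ^ 3 ≤ q * n)
    (hq2 : 64 * q ^ 2 ≤ n) (hqf : n ≤ q.factorial) :
    g * maxQuasi n ≤ (4 + 22 * q) * n.factorial := by
  obtain ⟨o, ho⟩ := exists_poset n
  rw [ho]
  have := @main_ub_l (Fin n) _ o q g hg2 hq1 (by rw [Fintype.card_fin]; exact hgq)
    (by rw [Fintype.card_fin]; exact hq2) (by rw [Fintype.card_fin]; exact hqf)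
  rwa [Fintype.card_fin] at this

end Pool.Agent.Lib.MP_54b7d9_co
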