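import Pool.Agent.Lib.MP_54b7d9_co.UShift

set_option autoImplicit false

namespace Pool.Agent.Lib.MP_54b7d9_co

variable {P : Type} [Fintype P] [PartialOrder P]

theorem phi_ge (j i s : ℕ) : s ≤ phi j i s := by
  unfold phi; split_ifs <;> omega

theorem phi_le (j i s : ℕ) : phi j i s ≤ s + 1 := by
  unfold phi; split_ifs <;> omega

theorem phi_inj {j i s s' : ℕ} (hs : s ≠ i) (hs' : s' ≠ i) (h : phi j i s = phi j i s') :
    s = s' := by
  unfold phi at h; split_ifs at h <;> omega

theorem dn_lt {x y : P} (h : x < y) : dn x < dn y := by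
  classical
  unfold dn
  apply Finset.card_lt_card
  rw [Finset.ssubset_iff_of_subset]
  · exact ⟨x, by simp [h], by simp⟩
  · intro z hz
    simp only [Finset.mem_filter, Finset.mem_univ, true_and] at hz ⊢
    exact hz.trans h

theorem min_of_dn_zero {x : P} (h : dn x = 0) : IsMin x := by
  classical
  intro y hy
  by_contra hcon
  have : y < x := lt_of_le_not_ge hy hcon
  have := dn_lt this
  omega

/-- if `x` is unfrozen, so is everything below it -/
theorem unfrozen_down {L : P → ℕ} (hL : IsLabeling L) {t : ℕ} (ht : t ≤ Fintype.card P) {z x : P}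
    (hz : z ≤ x) (hx : tok L t x ≤ Fintype.card P) : tok L t z ≤ Fintype.card P := by
  rcases hz.lt_or_eq with h | h
  · by_contra hcon
    have := tok_frozen hL ht (not_le.mp hcon) h
    omega
  · rw [h]; exact hx

theorem dn_unfrozen {L : P → ℕ} (hL : IsLabeling L) {t : ℕ} (ht : t ≤ Fintype.card P) {x : P}
    (hx : tok L t x ≤ Fintype.card P) : dn x + 1 ≤ Fintype.card P - t := by
  classical
  rw [← card_unfrozen hL ht]
  unfold dn
  have h1 : (insert x (Finset.univ.filter (fun z : P => z < x))).card
      = (Finset.univ.filter (fun z : P => z < x)).card + 1 := by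
    rw [Finset.card_insert_of_notMem]
    simp
  rw [← h1]
  apply Finset.card_le_card
  intro z hz
  rw [Finset.mem_insert] at hz
  simp only [Finset.mem_filter, Finset.mem_univ, true_and] at hz ⊢
  rcases hz with rfl | hz
  · exact hx
  · exact unfrozen_down hL ht hz.le hx

theorem structure_thm {L : P → ℕ} (hL : IsLabeling L) (hq : QuasiTangled L) {G D : ℕ}
    (hD : 2 ≤ D) (hG : G + 1 ≤ D) (hn : D + 4 ≤ Fintype.card P) :
    (∃ c y : P, c < y ∧ dn y ≤ D ∧
      (L c + 1 = Fintype.card P ∨ L c = Fintype.card P) ∧
      (L y + 2 = Fintype.card P ∨ L y + 1 = Fintype.card P)) ∨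
    (∃ c, (L c + 1 = Fintype.card P ∨ L c = Fintype.card P) ∧
      ∀ j ∈ Finset.Icc (Fintype.card P - G) (Fintype.card P - 1), c ∈ Fa G D (shift L c j)) ∨
    (∃ c, (L c + 1 = Fintype.card P ∨ L c = Fintype.card P) ∧
      ∀ j ∈ Finset.Icc (Fintype.card P - D) (Fintype.card P - 1), c ∈ Fb G (shift L c j)) := by
  classical
  set n := Fintype.card P with hndef
  -- time n - 3
  obtain ⟨t0, ht0⟩ : ∃ t0, n = t0 + 3 := ⟨n - 3, by omega⟩
  have hns : ¬ IsSorted (promote^[t0] L) := by
    intro hs
    have := hq.2 (show t0 ∈ {k : ℕ | IsSorted (promote^[k] L)} from hs)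
    rw [← hndef] at this
    omega
  unfold IsSorted at hns
  push Not at hns
  obtain ⟨c, w, hcw, hle⟩ := hns
  have hlt : tok L t0 w < tok L t0 c := by
    have h1 : tok L t0 w ≠ tok L t0 c := fun h => hcw.ne' (tok_inj hL t0 h)
    unfold tok at h1 ⊢
    omega
  have hcn : tok L t0 c ≤ n := by
    by_contra hcon
    have := tok_frozen hL (by omega : t0 ≤ Fintype.card P) (not_le.mp hcon) hcw
    omega
  obtain ⟨hunv, hcL⟩ := tok_unvisited hL hcw hlt
  have hcL0 : tok L t0 c = L c := hcL t0 le_rfl
  have hwgt := tok_gt hL t0 w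
  have hcn' : L c + 1 = n ∨ L c = n := by omega
  obtain ⟨r, hr⟩ : ∃ r, r = tok L t0 w := ⟨_, rfl⟩
  have hrc : r < L c := by omega
  have hr2 : n ≤ r + 2 := by omega
  have hrn : r + 1 ≤ n := by omega
  have hdw : dn w ≤ 2 := by
    have := dn_unfrozen hL (by omega : t0 ≤ Fintype.card P) (x := w) (by omega)
    omega
  have hdc : dn c ≤ 1 := by
    have := dn_lt hcw
    omega
  have hback : ∀ t ≤ t0, ∃ y, w ≤ y ∧ tok L t y = r := by
    intro t ht
    obtain ⟨y, hy1, hy2⟩ := tok_back hL ht (x := w) (by omega)
    exact ⟨y, hy1, by rw [hy2, hr]⟩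
  obtain ⟨y, hwy, hyr⟩ := hback 0 (Nat.zero_le _)
  rw [tok_zero] at hyr
  by_cases hyD : dn y ≤ D
  · left
    exact ⟨c, y, hcw.trans_le hwy, hyD, hcn', by omega⟩
  right
  -- first low time
  have hex : ∃ T, ∃ x, tok L T x = r ∧ dn x ≤ D := ⟨t0, w, hr.symm, by omega⟩
  obtain ⟨T, ⟨u, hu, hdu⟩, hTmin⟩ : ∃ T, (∃ x, tok L T x = r ∧ dn x ≤ D) ∧
      ∀ t < T, ∀ x, tok L t x = r → D < dn x := by
    refine ⟨Nat.find hex, Nat.find_spec hex, ?_⟩
    intro t ht x hx
    by_contra hcon
    exact Nat.find_min hex ht ⟨x, hx, not_lt.mp hcon⟩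
  have hTt0 : T ≤ t0 := by
    by_contra hcon
    have := hTmin t0 (by omega) w hr.symm
    omega
  have hT0 : T ≠ 0 := by
    rintro rfl
    have : u = y := by
      apply hL.inj
      rw [tok_zero] at hu
      rw [hu, hyr]
    rw [this] at hdu
    exact hyD hdu
  have hwu : w ≤ u := by
    obtain ⟨u', hu', hu''⟩ := hback T hTt0
    have : u' = u := tok_inj hL T (hu''.trans hu.symm)
    rwa [this] at hu'
  have hcu : c < u := hcw.trans_le hwu
  have hTn : T + D + 1 ≤ n := by
    obtain ⟨y', _, hy''⟩ := hback (T - 1) (by omega)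
    have h1 := hTmin (T - 1) (by omega) y' hy''
    have h2 := dn_unfrozen hL (t := T - 1) (by omega) (x := y') (by omega)
    omega
  by_cases H : ∀ x, x < c → ∀ t < T, OnChain (promote^[t] L) x → tok L (t + 1) x < n - G
  · left
    refine ⟨c, hcn', ?_⟩
    intro j hj
    rw [Finset.mem_Icc] at hj
    have hjc : j ≤ L c := by omega
    have hag := agree hL (c := c) (j := j) (T := T) (by omega) hjc
      (fun t ht => hunv t (by omega)) (fun t ht x hx hx' => by
        have := H x hx t ht hx'
        omega)
    have hS : shift L c j c = j := by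
      unfold shift; rw [if_pos rfl]
    have hri : r ≠ L c := by omega
    unfold Fa
    rw [Finset.mem_filter]
    refine ⟨Finset.mem_univ _, by rw [hS]; omega, by rw [hS]; omega, phi j (L c) r, ?_, ?_, T, u,
      ?_, ?_, hdu, hcu⟩
    · have := phi_ge j (L c) r; omega
    · have := phi_le j (L c) r; omega
    · intro t ht x hx
      have h1 := hag t ht.le
      by_cases hxc : x = c
      · exfalso
        rw [hxc, h1.1] at hx
        unfold phi at hx
        split_ifs at hx <;> omega
      · rw [h1.2 x hxc] at hx
        have hx1 : tok L t x ≠ L c := by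
          rw [← hcL t (by omega)]
          exact fun h => hxc (tok_inj hL t h)
        exact hTmin t ht x (phi_inj hx1 hri hx)
    · rw [(hag T le_rfl).2 u hcu.ne', hu]
  · right
    push Not at H
    obtain ⟨p, hpc, t, htT, hpt, hpG⟩ := H
    have hdp : dn p = 0 ∧ dn c = 1 := by
      have := dn_lt hpc
      omega
    have hpmin : IsMin p := min_of_dn_zero hdp.1
    have hpuniq : ∀ x, x < c → x = p := by
      intro x hx
      have h1 : ({p, x} : Finset P) ⊆ Finset.univ.filter (fun z : P => z < c) := by
        intro z hz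
        simp only [Finset.mem_insert, Finset.mem_singleton] at hz
        simp only [Finset.mem_filter, Finset.mem_univ, true_and]
        rcases hz with rfl | rfl
        · exact hpc
        · exact hx
      by_contra hne
      have h2 := Finset.card_le_card h1
      rw [Finset.card_pair (Ne.symm hne)] at h2
      have h3 : (Finset.univ.filter (fun z : P => z < c)).card = 1 := by
        rw [← hdp.2]
        unfold dn
        congr
      omega
    have hpn : ¬ IsMax p := fun h => h.not_lt hpc
    have hcnm : ¬ IsMax c := fun h => h.not_lt hcw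
    -- p has label one at time t
    have hp1 : (promote^[t] L) p = 1 := by
      by_contra hcon
      exact min_off hpmin hcon hpt
    have hpt1 : tok L t p = t + 1 := by
      unfold tok; omega
    refine ⟨c, hcn', ?_⟩
    intro j hj
    rw [Finset.mem_Icc] at hj
    have hjc : j ≤ L c := by omega
    have hag := agree hL (c := c) (j := j) (T := t) (by omega) hjc
      (fun t' ht' => hunv t' (by omega)) (fun t' ht' x hx hx' => by
        rw [hpuniq x hx]
        have := tok_mono hL (show t' + 1 ≤ t by omega) p
        omega)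
    have hag1 := (hag t le_rfl).1
    have hag2 := (hag t le_rfl).2
    have hL' : IsLabeling (shift L c j) := shift_labeling hL (by omega) hjc
    set L' := shift L c j with hL'def
    have hp' : tok L' t p = t + 1 := by
      rw [hag2 p hpc.ne, hpt1]
      unfold phi
      rw [if_pos (by omega)]
    have hp1' : (promote^[t] L') p = 1 := by
      unfold tok at hp'; omega
    have hpon' : OnChain (promote^[t] L') p := onChain_of_one hp1'
    -- tokens above p at time t
    have habove : ∀ z, p < z → n - G ≤ tok L t z := by
      intro z hz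
      have h1 := tok_on hL hpt hpn
      have h2 := (next_spec (L := promote^[t] L) hpn).2 z hz
      have h3 : tok L t (next (promote^[t] L) p) ≤ tok L t z := by
        unfold tok; omega
      omega
    unfold Fb
    rw [Finset.mem_filter]
    refine ⟨Finset.mem_univ _, hdp.2, ?_⟩
    by_cases hz : next (promote^[t] L') p = c
    · -- c is picked
      have hcon' : OnChain (promote^[t] L') c := by
        rw [← hz]; exact hpon'.next
      obtain ⟨hz1, hz2⟩ := next_spec (L := promote^[t] L') hcnm
      refine ⟨t + 1, by omega, ?_, ?_⟩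
      · rw [tok_on hL' hcon' hcnm, hag2 _ hz1.ne']
        have h1 := habove _ (hpc.trans hz1)
        have h2 := phi_ge j (L c) (tok L t (next (promote^[t] L') c))
        omega
      · rw [tok_on hL' hcon' hcnm]
        have h1 : tok L' t (next (promote^[t] L') c) ≤ tok L' t w := by
          have := hz2 w hcw
          unfold tok; omega
        have h2 := hag2 w hcw.ne'
        have h3 := phi_le j (L c) (tok L t w)
        have h4 := tok_mono hL (show t ≤ t0 by omega) w
        omega
    · -- another element is picked
      obtain ⟨hz1, hz2⟩ := next_spec (L := promote^[t] L') hpn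
      refine ⟨t, by omega, ?_, ?_⟩
      · rw [hag1]
        have h1 : tok L' t (next (promote^[t] L') p) ≤ tok L' t c := by
          have := hz2 c hpc
          unfold tok; omega
        rw [hag2 _ hz, hag1] at h1
        have h2 := phi_ge j (L c) (tok L t (next (promote^[t] L') p))
        have h3 := habove _ hz1
        omega
      · rw [hag1]; omega

end Pool.Agent.Lib.MP_54b7d9_co
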