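import Pool.Agent.Lib.MP_54b7d9_co.ULog

set_option autoImplicit false

namespace Pool.Agent.Lib.MP_54b7d9_co

theorem UR_log_bound {n : ℕ} (hn : 2 ^ 15 ≤ n) : 64 * (Nat.log 2 n + 4) ^ 2 ≤ n := by
  have hk : 15 ≤ Nat.log 2 n := Nat.le_log_of_pow_le (by norm_num) hn
  have hp : 2 ^ Nat.log 2 n ≤ n := Nat.pow_log_le_self 2 (by omega)
  have key : ∀ k : ℕ, 15 ≤ k → 64 * (k + 4) ^ 2 ≤ 2 ^ k := by
    intro k hk
    induction k, hk using Nat.le_induction with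
    | base => norm_num
    | succ k hk ih =>
      have h1 : 2 ^ (k + 1) = 2 ^ k * 2 := pow_succ 2 k
      have h2 : 64 * (k + 1 + 4) ^ 2 ≤ 64 * (k + 4) ^ 2 * 2 := by nlinarith
      omega
  exact (key _ hk).trans hp

theorem UR_fact {n : ℕ} : n ≤ (Nat.log 2 n + 4).factorial := by
  have h1 : n < 2 ^ (Nat.log 2 n + 1) := Nat.lt_pow_succ_log_self (by norm_num) n
  have h2 : ∀ k : ℕ, 2 ^ (k + 4) ≤ (k + 4).factorial := by
    intro k
    induction k with
    | zero => decide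
    | succ k ih =>
      rw [show k + 1 + 4 = (k + 4) + 1 by ring, pow_succ, Nat.factorial_succ, mul_comm]
      exact Nat.mul_le_mul (by omega) ih
  have h3 : 2 ^ (Nat.log 2 n + 1) ≤ 2 ^ (Nat.log 2 n + 4) :=
    Nat.pow_le_pow_right (by norm_num) (by omega)
  exact (h1.le.trans h3).trans (h2 _)

theorem UR_rpow_third {x : ℝ} (hx : 0 ≤ x) : (x ^ (1 / 3 : ℝ)) ^ 3 = x := by
  rw [← Real.rpow_natCast, ← Real.rpow_mul hx]
  norm_num

theorem main_log (n : ℕ) (hn : 2 ≤ n) :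
    (maxQuasi n : ℝ) ≤ 208 * Real.log n ^ (2 / 3 : ℝ) * n.factorial / (n : ℝ) ^ (1 / 3 : ℝ) := by
  have hnr : (2 : ℝ) ≤ n := by exact_mod_cast hn
  have hn0 : (0 : ℝ) < n := by linarith
  have hlog2 : (0.69 : ℝ) < Real.log 2 := by have := Real.log_two_gt_d9; linarith
  have hlogn : Real.log 2 ≤ Real.log n := Real.log_le_log (by norm_num) hnr
  have hlogn0 : 0 < Real.log n := by linarith
  have hF0 : (0 : ℝ) < n.factorial := by exact_mod_cast Nat.factorial_pos n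
  have hpos : (0 : ℝ) < (n : ℝ) ^ (1 / 3 : ℝ) := Real.rpow_pos_of_pos hn0 _
  rw [le_div_iff₀ hpos]
  rcases Nat.lt_or_ge n (2 ^ 15) with hsmall | hbig
  · -- small n: trivial bound
    have h1 : (maxQuasi n : ℝ) ≤ n.factorial := by exact_mod_cast maxQuasi_le n
    have h2 : (n : ℝ) ^ (1 / 3 : ℝ) ≤ 32 := by
      have h3 : (n : ℝ) ≤ (2 : ℝ) ^ (15 : ℕ) := by exact_mod_cast hsmall.le
      calc (n : ℝ) ^ (1 / 3 : ℝ) ≤ ((2 : ℝ) ^ (15 : ℕ)) ^ (1 / 3 : ℝ) :=
            Real.rpow_le_rpow hn0.le h3 (by norm_num)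
        _ = 32 := by
            rw [← Real.rpow_natCast, ← Real.rpow_mul (by norm_num)]
            norm_num
    have h4 : (1 / 2 : ℝ) ≤ Real.log n ^ (2 / 3 : ℝ) := by
      have h5 : (0.69 : ℝ) ^ (2 / 3 : ℝ) ≤ Real.log n ^ (2 / 3 : ℝ) :=
        Real.rpow_le_rpow (by norm_num) (by linarith) (by norm_num)
      have h6 : (0.69 : ℝ) ^ (1 : ℝ) ≤ (0.69 : ℝ) ^ (2 / 3 : ℝ) :=
        Real.rpow_le_rpow_of_exponent_ge (by norm_num) (by norm_num) (by norm_num)
      rw [Real.rpow_one] at h6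
      linarith
    calc (maxQuasi n : ℝ) * (n : ℝ) ^ (1 / 3 : ℝ) ≤ n.factorial * 32 :=
          mul_le_mul h1 h2 hpos.le hF0.le
      _ ≤ 208 * (1 / 2) * n.factorial := by linarith
      _ ≤ 208 * Real.log n ^ (2 / 3 : ℝ) * n.factorial := by
          apply mul_le_mul_of_nonneg_right _ hF0.le
          linarith
  · obtain ⟨q, hq⟩ : ∃ q : ℕ, q = Nat.log 2 n + 4 := ⟨_, rfl⟩
    have hq64 : 64 * q ^ 2 ≤ n := by rw [hq]; exact UR_log_bound hbig
    have hqf : n ≤ q.factorial := by rw [hq]; exact UR_fact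
    have hq1 : 1 ≤ q := by omega
    have hqr : (1 : ℝ) ≤ q := by exact_mod_cast hq1
    obtain ⟨x, hx⟩ : ∃ x : ℝ, x = ((q : ℝ) * n) ^ (1 / 3 : ℝ) := ⟨_, rfl⟩
    have hqn0 : (0 : ℝ) ≤ (q : ℝ) * n := by positivity
    have hx3 : x ^ 3 = (q : ℝ) * n := by rw [hx]; exact UR_rpow_third hqn0
    have hx0 : 0 ≤ x := by rw [hx]; positivity
    obtain ⟨g, hg⟩ : ∃ g : ℕ, g = ⌊x⌋₊ := ⟨_, rfl⟩
    have hgx : (g : ℝ) ≤ x := by rw [hg]; exact Nat.floor_le hx0
    have hxg : x < g + 1 := by rw [hg]; exact Nat.lt_floor_add_one x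
    have hx2 : (2 : ℝ) ≤ x := by
      by_contra hcon
      rw [not_le] at hcon
      have h1 : x ^ 3 < 2 ^ 3 := by
        apply pow_lt_pow_left₀ hcon hx0 (by norm_num)
      have h2 : (2 ^ 15 : ℝ) ≤ n := by exact_mod_cast hbig
      rw [hx3] at h1
      nlinarith
    have hg2 : 2 ≤ g := by
      rw [hg]
      exact Nat.le_floor (by exact_mod_cast hx2)
    have hg3 : g ^ 3 ≤ q * n := by
      have h1 : (g : ℝ) ^ 3 ≤ x ^ 3 := pow_le_pow_left₀ (by positivity) hgx 3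
      rw [hx3] at h1
      exact_mod_cast h1
    have hmain := main_max_l hg2 hq1 hg3 hq64 hqf
    have hmain' : (g : ℝ) * maxQuasi n ≤ (4 + 22 * q) * n.factorial := by exact_mod_cast hmain
    have hM0 : (0 : ℝ) ≤ maxQuasi n := by positivity
    have hg1' : (1 : ℝ) ≤ g := by
      have : 1 ≤ g := by omega
      exact_mod_cast this
    -- x * M ≤ 52 q F
    have h1 : x * maxQuasi n ≤ 52 * q * n.factorial := by
      calc x * maxQuasi n ≤ (2 * g) * maxQuasi n := by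
            apply mul_le_mul_of_nonneg_right _ hM0
            linarith
        _ = 2 * (g * maxQuasi n) := by ring
        _ ≤ 2 * ((4 + 22 * q) * n.factorial) := by linarith
        _ ≤ 52 * q * n.factorial := by nlinarith
    -- x = q^(1/3) n^(1/3)
    obtain ⟨y, hy⟩ : ∃ y : ℝ, y = (q : ℝ) ^ (1 / 3 : ℝ) := ⟨_, rfl⟩
    have hxy : x = y * (n : ℝ) ^ (1 / 3 : ℝ) := by
      rw [hx, hy, Real.mul_rpow (by positivity) hn0.le]
    have hy0 : 0 < y := by rw [hy]; exact Real.rpow_pos_of_pos (by linarith) _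
    have hqy : (q : ℝ) = y * (q : ℝ) ^ (2 / 3 : ℝ) := by
      rw [hy, ← Real.rpow_add (by linarith)]
      norm_num
    have h2 : maxQuasi n * (n : ℝ) ^ (1 / 3 : ℝ) ≤ 52 * (q : ℝ) ^ (2 / 3 : ℝ) * n.factorial := by
      have h3 : y * (maxQuasi n * (n : ℝ) ^ (1 / 3 : ℝ))
          ≤ y * (52 * (q : ℝ) ^ (2 / 3 : ℝ) * n.factorial) := by
        calc y * (maxQuasi n * (n : ℝ) ^ (1 / 3 : ℝ)) = x * maxQuasi n := by rw [hxy]; ring
          _ ≤ 52 * q * n.factorial := h1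
          _ = 52 * (y * (q : ℝ) ^ (2 / 3 : ℝ)) * n.factorial := by rw [← hqy]
          _ = y * (52 * (q : ℝ) ^ (2 / 3 : ℝ) * n.factorial) := by ring
      exact le_of_mul_le_mul_left h3 hy0
    -- q ≤ 8 log n
    have hq8 : (q : ℝ) ≤ 8 * Real.log n := by
      have h3 : (2 : ℝ) ^ (Nat.log 2 n) ≤ n := by
        exact_mod_cast Nat.pow_log_le_self 2 (by omega)
      have h4 : (Nat.log 2 n : ℝ) * Real.log 2 ≤ Real.log n := by
        rw [← Real.log_pow]
        exact Real.log_le_log (by positivity) h3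
      have h5 : (q : ℝ) = (Nat.log 2 n : ℝ) + 4 := by rw [hq]; push_cast; ring
      have h6 : (0 : ℝ) ≤ (Nat.log 2 n : ℝ) := by positivity
      have h7 : (q : ℝ) * Real.log 2 ≤ 5 * Real.log n := by
        rw [h5]; nlinarith
      nlinarith
    have h8 : (q : ℝ) ^ (2 / 3 : ℝ) ≤ 4 * Real.log n ^ (2 / 3 : ℝ) := by
      calc (q : ℝ) ^ (2 / 3 : ℝ) ≤ (8 * Real.log n) ^ (2 / 3 : ℝ) :=
            Real.rpow_le_rpow (by positivity) hq8 (by norm_num)
        _ = (8 : ℝ) ^ (2 / 3 : ℝ) * Real.log n ^ (2 / 3 : ℝ) :=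
            Real.mul_rpow (by norm_num) hlogn0.le
        _ = 4 * Real.log n ^ (2 / 3 : ℝ) := by
            congr 1
            rw [show (8 : ℝ) = (2 : ℝ) ^ (3 : ℝ) by
              rw [show (3 : ℝ) = ((3 : ℕ) : ℝ) by norm_num, Real.rpow_natCast]; norm_num,
              ← Real.rpow_mul (by norm_num)]
            norm_num
    calc (maxQuasi n : ℝ) * (n : ℝ) ^ (1 / 3 : ℝ) ≤ 52 * (q : ℝ) ^ (2 / 3 : ℝ) * n.factorial := h2
      _ ≤ 52 * (4 * Real.log n ^ (2 / 3 : ℝ)) * n.factorial := by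
          apply mul_le_mul_of_nonneg_right _ hF0.le
          linarith
      _ = 208 * Real.log n ^ (2 / 3 : ℝ) * n.factorial := by ring

end Pool.Agent.Lib.MP_54b7d9_co
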