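import Pool.Agent.Lib.MP_54b7d9_co.UTok

set_option autoImplicit false

namespace Pool.Agent.Lib.MP_54b7d9_co

variable {P : Type} [Fintype P] [PartialOrder P]

theorem shift_labeling {L : P → ℕ} (hL : IsLabeling L) {c : P} {j : ℕ} (h1 : 1 ≤ j)
    (hj : j ≤ L c) : IsLabeling (shift L c j) := by
  have hc := hL.le c
  apply isLabeling_of
  · intro x y hxy
    by_contra hne
    have hxy' : L x ≠ L y := fun h => hne (hL.inj h)
    have hxc : x ≠ c → L x ≠ L c := fun h h' => h (hL.inj h')
    have hyc : y ≠ c → L y ≠ L c := fun h h' => h (hL.inj h')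
    unfold shift at hxy
    by_cases hx : x = c
    · by_cases hy : y = c
      · exact hne (hx.trans hy.symm)
      · have := hyc hy
        rw [if_pos hx, if_neg hy] at hxy
        split_ifs at hxy <;> omega
    · by_cases hy : y = c
      · have := hxc hx
        rw [if_neg hx, if_pos hy] at hxy
        split_ifs at hxy <;> omega
      · have := hxc hx
        have := hyc hy
        rw [if_neg hx, if_neg hy] at hxy
        split_ifs at hxy <;> omega
  · intro x
    have := hL.pos x
    unfold shift
    split_ifs <;> omega
  · intro x
    have := hL.le x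
    unfold shift
    split_ifs <;> omega

theorem shift_eq {L L' : P → ℕ} (hL : IsLabeling L) (hL' : IsLabeling L') {c : P} {j : ℕ}
    (hj : j ≤ L c) (hc : L c = L' c) (h : shift L c j = shift L' c j) : L = L' := by
  funext x
  by_cases hx : x = c
  · rw [hx, hc]
  · have h1 : L x ≠ L c := fun h' => hx (hL.inj h')
    have h2 : L' x ≠ L' c := fun h' => hx (hL'.inj h')
    have h3 := congrFun h x
    unfold shift at h3
    rw [if_neg hx, if_neg hx] at h3
    split_ifs at h3 <;> omega

theorem B2_phi_mono {j i : ℕ} {s s' : ℕ} (h : s ≤ s') : phi j i s ≤ phi j i s' := by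
  unfold phi
  split_ifs <;> omega

theorem B2_phi_lt {j i s : ℕ} (h : s < j) : phi j i s = s := by
  unfold phi
  rw [if_pos h]

theorem B2_phi_ge {j i s : ℕ} (h : i ≤ s) : phi j i s = s := by
  unfold phi
  split_ifs <;> omega

/-- the successor is characterised by minimality, for a labeling -/
theorem B2_next_eq {N : P → ℕ} (hN : IsLabeling N) {x y : P} (hxy : x < y)
    (hmin : ∀ z, x < z → N y ≤ N z) : next N x = y := by
  have hm : ¬ IsMax x := fun h => h.not_lt hxy
  obtain ⟨h1, h2⟩ := next_spec (L := N) hm
  exact hN.inj (le_antisymm (h2 y hxy) (hmin _ h1))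

/-- two labelings with the same first element and the same successors along the chain of the first
have the same chains -/
theorem B2_chain {M N : P → ℕ} (hM : IsLabeling M) (hN : IsLabeling N) {v : P} (hv : M v = 1)
    (hv' : N v = 1) (hnext : ∀ x, OnChain M x → next N x = next M x) (x : P) :
    OnChain N x ↔ OnChain M x := by
  have key : ∀ k : ℕ, (next N)^[k] v = (next M)^[k] v := by
    intro k
    induction k with
    | zero => rfl
    | succ k ih =>
      rw [Function.iterate_succ_apply', Function.iterate_succ_apply', ih]
      exact hnext _ ⟨v, hv, k, rfl⟩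
  constructor
  · rintro ⟨w, hw, k, hk⟩
    have hwv : w = v := hN.inj (hw.trans hv'.symm)
    subst hwv
    exact ⟨w, hv, k, by rw [← key]; exact hk⟩
  · rintro ⟨w, hw, k, hk⟩
    have hwv : w = v := hM.inj (hw.trans hv.symm)
    subst hwv
    exact ⟨w, hv', k, by rw [key]; exact hk⟩

/-- the element with label one -/
theorem B2_exists_one {M : P → ℕ} (hM : IsLabeling M) (c : P) : ∃ v, M v = 1 := by
  have h1 : 1 ∈ Set.Icc 1 (Fintype.card P) :=
    ⟨le_rfl, Fintype.card_pos_iff.mpr ⟨c⟩⟩
  obtain ⟨v, _, hv⟩ := hM.surjOn h1
  exact ⟨v, hv⟩

theorem agree {L : P → ℕ} (hL : IsLabeling L) {c : P} {j T : ℕ} (hT : T < j) (hj : j ≤ L c)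
    (hc : ∀ t < T, ¬ OnChain (promote^[t] L) c)
    (hp : ∀ t < T, ∀ x, x < c → OnChain (promote^[t] L) x → tok L (t + 1) x < j) :
    ∀ t ≤ T, tok (shift L c j) t c = j ∧
      ∀ x, x ≠ c → tok (shift L c j) t x = phi j (L c) (tok L t x) := by
  have hS : IsLabeling (shift L c j) := shift_labeling hL (by omega) hj
  intro t
  induction t with
  | zero =>
    intro _
    refine ⟨?_, fun x hx => ?_⟩
    · rw [tok_zero]
      simp [shift]
    · rw [tok_zero, tok_zero]
      simp only [shift, phi, if_neg hx]
  | succ t ih =>
    intro ht
    obtain ⟨ih1, ih2⟩ := ih (by omega)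
    have htT : t < T := by omega
    have hM : IsLabeling (promote^[t] L) := hL.iterate t
    have hN : IsLabeling (promote^[t] (shift L c j)) := hS.iterate t
    have hcM := hc t htT
    -- the values of the two labelings
    have hNc : (promote^[t] (shift L c j)) c + t = j := ih1
    have hNx : ∀ x, x ≠ c →
        (promote^[t] (shift L c j)) x + t = phi j (L c) ((promote^[t] L) x + t) := ih2
    -- the first element
    obtain ⟨v, hv⟩ := B2_exists_one hM c
    have hvc : v ≠ c := by
      rintro rfl
      exact hcM (onChain_of_one hv)
    have hv' : (promote^[t] (shift L c j)) v = 1 := by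
      have h1 := hNx v hvc
      rw [hv, B2_phi_lt (by omega)] at h1
      omega
    -- the successors
    have hnext : ∀ x, OnChain (promote^[t] L) x →
        next (promote^[t] (shift L c j)) x = next (promote^[t] L) x := by
      intro x hx
      by_cases hmx : IsMax x
      · rw [next_max hmx, next_max hmx]
      · obtain ⟨h1, h2⟩ := next_spec (L := promote^[t] L) hmx
        have hyc : next (promote^[t] L) x ≠ c := by
          intro h
          exact hcM (h ▸ hx.next)
        apply B2_next_eq hN h1
        intro z hz
        have h3 := hNx _ hyc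
        by_cases hzc : z = c
        · subst hzc
          have h4 := hp t htT x hz hx
          rw [tok_on hL hx hmx] at h4
          have h5 : (promote^[t] L) (next (promote^[t] L) x) + t < j := h4
          rw [B2_phi_lt h5] at h3
          omega
        · have h4 := hNx z hzc
          have h5 : phi j (L c) ((promote^[t] L) (next (promote^[t] L) x) + t) ≤
              phi j (L c) ((promote^[t] L) z + t) :=
            B2_phi_mono (Nat.add_le_add_right (h2 z hz) t)
          omega
    have hchain := B2_chain hM hN hv hv' hnext
    refine ⟨?_, fun x hx => ?_⟩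
    · rw [tok_off hS (fun h => hcM ((hchain c).mp h))]
      exact ih1
    · by_cases hxc : OnChain (promote^[t] L) x
      · have hxc' : OnChain (promote^[t] (shift L c j)) x := (hchain x).mpr hxc
        by_cases hmx : IsMax x
        · rw [tok_max hxc' hmx, tok_max hxc hmx, B2_phi_ge]
          have := hL.le c
          omega
        · rw [tok_on hS hxc' hmx, tok_on hL hxc hmx, hnext x hxc]
          apply ih2
          intro h
          exact hcM (h ▸ hxc.next)
      · have hxc' : ¬ OnChain (promote^[t] (shift L c j)) x := fun h => hxc ((hchain x).mp h)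
        rw [tok_off hS hxc', tok_off hL hxc]
        exact ih2 x hx

end Pool.Agent.Lib.MP_54b7d9_co
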