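import Pool.Agent.Lib.MP_54b7d9_co.UDefs

set_option autoImplicit false

namespace Pool.Agent.Lib.MP_54b7d9_co

variable {P : Type} [Fintype P] [PartialOrder P]

theorem tok_zero (L : P → ℕ) (x : P) : tok L 0 x = L x := by
  simp [tok]

theorem tok_off {L : P → ℕ} (hL : IsLabeling L) {t : ℕ} {x : P}
    (h : ¬ OnChain (promote^[t] L) x) : tok L (t + 1) x = tok L t x := by
  unfold tok
  rw [Function.iterate_succ_apply', promote_off h]
  have := (hL.iterate t).pos x
  omega

theorem tok_on {L : P → ℕ} (hL : IsLabeling L) {t : ℕ} {x : P}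
    (h : OnChain (promote^[t] L) x) (hm : ¬ IsMax x) :
    tok L (t + 1) x = tok L t (next (promote^[t] L) x) := by
  unfold tok
  rw [Function.iterate_succ_apply', promote_on h hm]
  have := (hL.iterate t).pos (next (promote^[t] L) x)
  omega

theorem tok_max {L : P → ℕ} {t : ℕ} {x : P}
    (h : OnChain (promote^[t] L) x) (hm : IsMax x) :
    tok L (t + 1) x = Fintype.card P + (t + 1) := by
  unfold tok
  rw [Function.iterate_succ_apply', promote_max h hm]

theorem tok_inj {L : P → ℕ} (hL : IsLabeling L) (t : ℕ) : Function.Injective (tok L t) := by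
  intro a b hab
  unfold tok at hab
  exact (hL.iterate t).inj (by omega)

theorem tok_gt {L : P → ℕ} (hL : IsLabeling L) (t : ℕ) (x : P) : t < tok L t x := by
  unfold tok
  have := (hL.iterate t).pos x
  omega

theorem tok_le {L : P → ℕ} (hL : IsLabeling L) (t : ℕ) (x : P) :
    tok L t x ≤ Fintype.card P + t := by
  unfold tok
  have := (hL.iterate t).le x
  omega

theorem A1_chain {L : P → ℕ} (hL : IsLabeling L) {x : P} (h : OnChain L x) :
    ∀ z, x < z → L x ≤ L z := by
  obtain ⟨v, hv, i, hi⟩ := h
  induction i generalizing x with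
  | zero =>
    intro z _
    have h1 : v = x := hi
    rw [← h1, hv]
    exact hL.pos z
  | succ i ih =>
    intro z hz
    rw [Function.iterate_succ_apply'] at hi
    by_cases hm : IsMax ((next L)^[i] v)
    · rw [next_max hm] at hi
      exact ih hi z hz
    · have h1 := next_spec (L := L) hm
      rw [hi] at h1
      exact h1.2 z (h1.1.trans hz)

theorem tok_mono {L : P → ℕ} (hL : IsLabeling L) {s t : ℕ} (h : s ≤ t) (x : P) :
    tok L s x ≤ tok L t x := by
  induction t, h using Nat.le_induction with
  | base => exact le_rfl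
  | succ t _ ih =>
    refine ih.trans ?_
    by_cases hc : OnChain (promote^[t] L) x
    · by_cases hm : IsMax x
      · rw [tok_max hc hm]
        have := tok_le hL t x
        omega
      · rw [tok_on hL hc hm]
        have := A1_chain (hL.iterate t) hc _ (next_spec (L := promote^[t] L) hm).1
        unfold tok
        omega
    · rw [tok_off hL hc]

theorem tok_visited {L : P → ℕ} (hL : IsLabeling L) {t : ℕ} {x y : P}
    (h : OnChain (promote^[t] L) x) (hxy : x < y) : tok L (t + 1) x < tok L (t + 1) y := by
  have hLt : IsLabeling (promote^[t] L) := hL.iterate t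
  have hx : ¬ IsMax x := fun hm => hm.not_lt hxy
  obtain ⟨hn1, hn2⟩ := next_spec (L := promote^[t] L) hx
  rw [tok_on hL h hx]
  by_cases hy : OnChain (promote^[t] L) y
  · by_cases hmy : IsMax y
    · rw [tok_max hy hmy]
      have := tok_le hL t (next (promote^[t] L) x)
      omega
    · rw [tok_on hL hy hmy]
      have h1 := h.next_le hLt hy hxy
      have h2 := (next_spec (L := promote^[t] L) hmy).1
      have h3 := hn2 _ (hxy.trans h2)
      have h4 : next (promote^[t] L) x ≠ next (promote^[t] L) y := (h1.trans_lt h2).ne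
      have h5 : (promote^[t] L) (next (promote^[t] L) x) ≠
          (promote^[t] L) (next (promote^[t] L) y) := fun he => h4 (hLt.inj he)
      unfold tok
      omega
  · rw [tok_off hL hy]
    have h3 := hn2 _ hxy
    have h5 : (promote^[t] L) (next (promote^[t] L) x) ≠ (promote^[t] L) y := by
      intro he
      apply hy
      rw [← hLt.inj he]
      exact h.next
    unfold tok
    omega

theorem tok_persist {L : P → ℕ} (hL : IsLabeling L) {t : ℕ} {x : P}
    (h : ∀ y, x < y → tok L t x < tok L t y) :
    ∀ y, x < y → tok L (t + 1) x < tok L (t + 1) y := by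
  intro y hxy
  by_cases hx : OnChain (promote^[t] L) x
  · exact tok_visited hL hx hxy
  · rw [tok_off hL hx]
    exact (h y hxy).trans_le (tok_mono hL (Nat.le_succ t) y)

/-- an element with an inversion was never on a chain -/
theorem tok_unvisited {L : P → ℕ} (hL : IsLabeling L) {t : ℕ} {x y : P} (hxy : x < y)
    (h : tok L t y < tok L t x) :
    (∀ s < t, ¬ OnChain (promote^[s] L) x) ∧ ∀ s ≤ t, tok L s x = L x := by
  have h1 : ∀ s < t, ¬ OnChain (promote^[s] L) x := by
    intro s hs hon
    have hQ : ∀ k : ℕ, ∀ z, x < z → tok L (s + 1 + k) x < tok L (s + 1 + k) z := by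
      intro k
      induction k with
      | zero => exact fun z hz => tok_visited hL hon hz
      | succ k ih => exact tok_persist hL ih
    have h2 := hQ (t - (s + 1)) y hxy
    rw [Nat.add_sub_cancel' (show s + 1 ≤ t from hs)] at h2
    exact absurd h (not_lt_of_gt h2)
  refine ⟨h1, ?_⟩
  intro s
  induction s with
  | zero => exact fun _ => tok_zero L x
  | succ s ih =>
    intro hs
    rw [tok_off hL (h1 s hs)]
    exact ih (Nat.le_of_succ_le hs)

theorem tok_frozen {L : P → ℕ} (hL : IsLabeling L) {t : ℕ} (ht : t ≤ Fintype.card P) {x y : P}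
    (h : Fintype.card P < tok L t x) (hxy : x < y) : tok L t x < tok L t y := by
  have h1 := frozen_iterate hL t ht x y hxy
  unfold tok at h ⊢
  have h2 := h1 (by omega)
  omega

/-- tokens only move down -/
theorem tok_back {L : P → ℕ} (hL : IsLabeling L) {s t : ℕ} (hst : s ≤ t) {x : P}
    (h : tok L t x ≤ Fintype.card P) : ∃ y, x ≤ y ∧ tok L s y = tok L t x := by
  induction t, hst using Nat.le_induction generalizing x with
  | base => exact ⟨x, le_rfl, rfl⟩
  | succ t hst ih =>
    by_cases hx : OnChain (promote^[t] L) x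
    · by_cases hm : IsMax x
      · rw [tok_max hx hm] at h
        omega
      · rw [tok_on hL hx hm] at h ⊢
        obtain ⟨y, hy1, hy2⟩ := ih h
        exact ⟨y, (le_next _ x).trans hy1, hy2⟩
    · rw [tok_off hL hx] at h ⊢
      exact ih h

open Classical in
theorem card_unfrozen {L : P → ℕ} (hL : IsLabeling L) {t : ℕ} (ht : t ≤ Fintype.card P) :
    (Finset.univ.filter (fun x : P => tok L t x ≤ Fintype.card P)).card
      = Fintype.card P - t := by
  have hLt : IsLabeling (promote^[t] L) := hL.iterate t
  have h1 : (Finset.univ.filter (fun x : P => tok L t x ≤ Fintype.card P)).image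
      (promote^[t] L) = Finset.Icc 1 (Fintype.card P - t) := by
    ext i
    rw [Finset.mem_image, Finset.mem_Icc]
    constructor
    · rintro ⟨x, hx, rfl⟩
      rw [Finset.mem_filter] at hx
      have h2 := hx.2
      unfold tok at h2
      exact ⟨hLt.pos x, by omega⟩
    · rintro ⟨hi1, hi2⟩
      obtain ⟨x, _, hx⟩ := hLt.surjOn (Set.mem_Icc.mpr ⟨hi1, (by omega : i ≤ Fintype.card P)⟩)
      refine ⟨x, Finset.mem_filter.mpr ⟨Finset.mem_univ _, ?_⟩, hx⟩
      unfold tok
      omega
  rw [← Finset.card_image_of_injective _ hLt.inj, h1, Nat.card_Icc]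
  omega

end Pool.Agent.Lib.MP_54b7d9_co
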