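import Pool.Agent.Lib.MP_54b7d9_co.Promo

set_option autoImplicit false

namespace Pool.Agent.Lib.MP_54b7d9_co

section
variable {P : Type} [Fintype P] [PartialOrder P]

/-- `a` has a smaller label than every element above it. -/
def Loc (L : P → ℕ) (a : P) : Prop := ∀ b : P, a < b → L a < L b

theorem loc_promote {L : P → ℕ} (hL : IsLabeling L) {a : P} (h : Loc L a ∨ OnChain L a) :
    Loc (promote L) a := by
  intro b hab
  have hna : ¬ IsMax a := fun hmx => hmx.not_lt hab
  by_cases ha : OnChain L a
  · rw [promote_on ha hna]
    have h1 := (next_spec (L := L) hna).2 b hab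
    have h0 := next_ne_one hL ha hna
    by_cases hb : OnChain L b
    · by_cases hmb : IsMax b
      · rw [promote_max hb hmb]
        have := hL.le (next L a)
        omega
      · rw [promote_on hb hmb]
        have h2 : next L a ≤ b := ha.next_le hL hb hab
        have h3 : b < next L b := (next_spec (L := L) hmb).1
        have h4 := (next_spec (L := L) hna).2 (next L b) (hab.trans h3)
        have h5 : L (next L a) ≠ L (next L b) := fun h => (h2.trans_lt h3).ne (hL.inj h)
        omega
    · rw [promote_off hb]
      have h3 : L (next L a) ≠ L b := by
        intro heq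
        apply hb
        rw [← hL.inj heq]
        exact ha.next
      omega
  · have hloc : Loc L a := h.resolve_right ha
    rw [promote_off ha]
    have h2 := off_ge_two hL ha
    have h3 := hloc b hab
    by_cases hb : OnChain L b
    · by_cases hmb : IsMax b
      · rw [promote_max hb hmb]
        have := hL.le a
        omega
      · rw [promote_on hb hmb]
        have h4 := hloc _ (hab.trans (next_spec (L := L) hmb).1)
        omega
    · rw [promote_off hb]
      omega

/-- after `k` steps an element is locally sorted, or it was never touched. -/
theorem loc_or_untouched {L : P → ℕ} (hL : IsLabeling L) (k : ℕ) (a : P) :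
    Loc (promote^[k] L) a ∨ (k < L a ∧ (promote^[k] L) a = L a - k) := by
  induction k with
  | zero =>
    right
    exact ⟨hL.pos a, rfl⟩
  | succ k ih =>
    rw [Function.iterate_succ_apply']
    rcases ih with h | ⟨h1, h2⟩
    · exact Or.inl (loc_promote (hL.iterate k) (Or.inl h))
    · by_cases ha : OnChain (promote^[k] L) a
      · exact Or.inl (loc_promote (hL.iterate k) (Or.inr ha))
      · right
        have h3 := off_ge_two (hL.iterate k) ha
        rw [promote_off ha, h2]
        omega

/-- labels move down -/
theorem moved_down {L : P → ℕ} (hL : IsLabeling L) (k : ℕ) (b : P)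
    (hb : (promote^[k] L) b + k ≤ Fintype.card P) :
    ∃ c, b ≤ c ∧ L c = (promote^[k] L) b + k := by
  induction k generalizing b with
  | zero => exact ⟨b, le_rfl, rfl⟩
  | succ k ih =>
    rw [Function.iterate_succ_apply'] at hb ⊢
    have hlab := hL.iterate k
    by_cases hc : OnChain (promote^[k] L) b
    · by_cases hm : IsMax b
      · exfalso
        rw [promote_max hc hm] at hb
        omega
      · have h2 := next_ne_one hlab hc hm
        rw [promote_on hc hm] at hb ⊢
        obtain ⟨c, hc1, hc2⟩ := ih (next (promote^[k] L) b) (by omega)
        exact ⟨c, (le_next _ b).trans hc1, by omega⟩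
    · have h2 := off_ge_two hlab hc
      rw [promote_off hc] at hb ⊢
      obtain ⟨c, hc1, hc2⟩ := ih b (by omega)
      exact ⟨c, hc1, by omega⟩

theorem min_iterate {L : P → ℕ} {x : P} (hx : IsMin x) (k : ℕ) (hk : k < L x) :
    (promote^[k] L) x = L x - k := by
  induction k with
  | zero => rfl
  | succ k ih =>
    have ih' := ih (by omega)
    rw [Function.iterate_succ_apply', promote_min hx (by rw [ih']; omega), ih']
    omega

/-- exactly one element lies below `r` -/
def OneBelow (r : P) : Prop := ∃ e, ∀ x : P, x < r ↔ x = e

/-- the elements below `b` are exactly `p` and `r` -/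
def Below2 (p r b : P) : Prop := ∀ e : P, e < b ↔ e = p ∨ e = r

/-- the necessary condition on the positions `p, q, r` of the three largest labels -/
def Cond (p q r : P) : Prop :=
  (∃ b, Below2 p r b) ∨ (¬ IsMin p ∧ (IsMin q ∨ IsMin r)) ∨
    (¬ IsMin p ∧ (¬ IsMin q ∧ ¬ OneBelow q) ∧ OneBelow r)

theorem cond_of_quasi {L : P → ℕ} (hL : IsLabeling L) (hq : QuasiTangled L) {n : ℕ}
    (hn : Fintype.card P = n + 3) {p q r : P} (hp : L p = n + 1) (hqq : L q = n + 2)
    (hr : L r = n + 3) : Cond p q r := by
  classical
  obtain ⟨hs, hleast⟩ := hq
  rw [hn] at hs hleast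
  have hs' : IsSorted (promote (promote^[n] L)) := by
    have h : IsSorted (promote^[n + 3 - 2] L) := hs
    rw [show n + 3 - 2 = n + 1 by omega, Function.iterate_succ_apply'] at h
    exact h
  have hns : ¬ IsSorted (promote^[n] L) := by
    intro h
    have := hleast h
    omega
  have hlab := hL.iterate n
  have hfr := frozen_iterate hL n (by omega)
  have hun := loc_or_untouched hL n
  have hdown := moved_down hL n
  have hmin := fun (x : P) (hx : IsMin x) (h : n < L x) => min_iterate hx n h
  rw [hn] at hfr hdown
  rw [show n + 3 - n = 3 by omega] at hfr
  generalize promote^[n] L = M at *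
  have hge : ∀ x : P, 1 ≤ M x := hlab.pos
  -- an element below an element with small label has small label
  have hsmall : ∀ e b : P, e < b → M b ≤ 3 → M e ≤ 3 := by
    intro e b heb hb
    by_contra hcon
    have := hfr e b heb (by omega)
    omega
  have hne : ∀ a b : P, a ≠ b → M a ≠ M b := fun a b hab h => hab (hlab.inj h)
  -- an unsorted pair
  have hpair : ∃ a b : P, a < b ∧ M b < M a := by
    by_contra hcon
    apply hns
    intro a b hab
    by_contra hcon2
    exact hcon ⟨a, b, hab, lt_of_le_of_ne (not_lt.mp hcon2) (hne b a hab.ne')⟩
  -- an element which is not locally sorted is `q` or `r`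
  have hunl : ∀ a b : P, a < b → M b < M a → (M a = 2 ∧ a = q) ∨ (M a = 3 ∧ a = r) := by
    intro a b hab hlt
    have h3 : M a ≤ 3 := by
      by_contra hcon
      have := hfr a b hab (by omega)
      omega
    have h1 := hge b
    rcases hun a with h | ⟨h4, h5⟩
    · have := h b hab
      omega
    · rcases Nat.lt_or_ge (M a) 3 with h6 | h6
      · left
        exact ⟨by omega, hL.inj (by omega)⟩
      · right
        exact ⟨by omega, hL.inj (by omega)⟩
  obtain ⟨a, b, hab, hlt⟩ := hpair
  by_cases hpm : IsMin p
  · left
    have hMp : M p = 1 := by
      rw [hmin p hpm (by omega), hp]; omega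
    -- the pair is (r, b) with label 2 at b
    have hb1 : M b ≠ 1 := by
      intro h
      have : b = p := hlab.inj (h.trans hMp.symm)
      subst this
      exact hpm.not_lt hab
    have hb0 := hge b
    obtain ⟨h3, har⟩ : M a = 3 ∧ a = r := by
      rcases hunl a b hab hlt with ⟨h, _⟩ | h
      · omega
      · exact h
    subst har
    have hb2 : M b = 2 := by omega
    refine ⟨b, ?_⟩
    have hpb : p < b := by
      by_contra hcon
      have hoff : ∀ x : P, x ≤ b → x ≠ p → ¬ OnChain M x := by
        rintro x hxb hxp ⟨v, hv, i, hi⟩
        have hvp : v = p := hlab.inj (hv.trans hMp.symm)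
        have h5 : p ≤ x := by rw [← hi, ← hvp]; exact le_iterate M v i
        exact hcon ((lt_of_le_of_ne h5 (Ne.symm hxp)).trans_le hxb)
      have hbp : b ≠ p := by rintro rfl; omega
      have hap : a ≠ p := by rintro rfl; omega
      have h6 := hs' a b hab
      rw [promote_off (hoff b le_rfl hbp), promote_off (hoff a hab.le hap)] at h6
      omega
    intro e
    constructor
    · intro heb
      have h5 := hsmall e b heb (by omega)
      have h6 := hge e
      have h7 := hne e b heb.ne
      rcases Nat.lt_or_ge (M e) 2 with h8 | h8
      · left
        exact hlab.inj (by omega)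
      · right
        exact hlab.inj (by omega)
    · rintro (rfl | rfl)
      · exact hpb
      · exact hab
  · right
    by_cases hqr : IsMin q ∨ IsMin r
    · exact Or.inl ⟨hpm, hqr⟩
    · right
      rw [not_or] at hqr
      obtain ⟨hqm, hrm⟩ := hqr
      obtain ⟨e', he'⟩ := not_isMin_iff.mp hrm
      obtain ⟨e, he⟩ := not_isMin_iff.mp hqm
      rcases hunl a b hab hlt with ⟨h2, haq⟩ | ⟨h3, har⟩
      · exfalso
        subst haq
        have hb1 : M b = 1 := by have := hge b; omega
        have h4 := hsmall e b (he.trans hab) (by omega)
        have h5 := hne e a he.ne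
        have h6 := hne e b (he.trans hab).ne
        have h7 := hge e
        have h8 : M e = 3 := by omega
        rcases hunl e b (he.trans hab) (by omega) with ⟨h9, _⟩ | ⟨_, h9⟩
        · omega
        · subst h9
          have h10 := hsmall e' b (he'.trans (he.trans hab)) (by omega)
          have h11 := hne e' b (he'.trans (he.trans hab)).ne
          have h12 := hne e' e he'.ne
          have h13 := hne e' a (he'.trans he).ne
          have h14 := hge e'
          omega
      · subst har
        have h4 := hsmall e' b (he'.trans hab) (by omega)
        have h5 := hne e' a he'.ne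
        have h6 := hne e' b (he'.trans hab).ne
        have h7 := hge e'
        have h8 := hge b
        rcases Nat.lt_or_ge (M b) 2 with hb1 | hb2
        · exfalso
          have h9 : M e' = 2 := by omega
          rcases hunl e' b (he'.trans hab) (by omega) with ⟨_, h10⟩ | ⟨h10, _⟩
          · subst h10
            have h11 := hsmall e b (he.trans (he'.trans hab)) (by omega)
            have h12 := hne e b (he.trans (he'.trans hab)).ne
            have h13 := hne e a (he.trans he').ne
            have h14 := hne e e' he.ne
            have h15 := hge e
            omega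
          · omega
        · have hb2' : M b = 2 := by omega
          have he1 : M e' = 1 := by omega
          have hone : OneBelow a := by
            refine ⟨e', fun x => ⟨fun hx => ?_, fun hx => by rw [hx]; exact he'⟩⟩
            have h11 := hsmall x b (hx.trans hab) (by omega)
            have h12 := hne x b (hx.trans hab).ne
            have h13 := hne x a hx.ne
            have h15 := hge x
            exact hlab.inj (by omega)
          obtain ⟨c, hc1, hc2⟩ := hdown b (by omega)
          have hcq : c = q := hL.inj (by omega)
          subst hcq
          refine ⟨hpm, ⟨hqm, ?_⟩, hone⟩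
          rintro ⟨y, hy⟩
          have h16 : a = y := (hy a).mp (hab.trans_le hc1)
          have h17 : e' = y := (hy e').mp (he'.trans (hab.trans_le hc1))
          exact he'.ne (h17.trans h16.symm)

end

end Pool.Agent.Lib.MP_54b7d9_co
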