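import Pool.Agent.Lib.MP_54b7d9_co.Upper

set_option autoImplicit false

namespace Pool.Agent.Lib.MP_54b7d9_co

section
variable {P : Type} [Fintype P] [PartialOrder P]

open Classical in
/-- the triples satisfying the necessary condition -/
noncomputable def condSet (P : Type) [Fintype P] [PartialOrder P] : Finset (P × P × P) :=
  Finset.univ.filter (fun t => Cond t.1 t.2.1 t.2.2)

theorem arith_bound (n m b s : ℕ) (hmn : m ≤ n) (hb : b ≤ m)
    (hs : s ≤ m * 2 * n + m * (n * n - m * m) + m * ((m - b) * b)) :
    9 * s ≤ 4 * (n + 1) ^ 3 := by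
  obtain ⟨k, rfl⟩ := Nat.exists_eq_add_of_le hb
  obtain ⟨l, rfl⟩ := Nat.exists_eq_add_of_le hmn
  rw [Nat.add_sub_cancel_left] at hs
  have h1 : (b + k + l) * (b + k + l) - (b + k) * (b + k) = l * (2 * (b + k) + l) := by
    rw [Nat.sub_eq_iff_eq_add (by nlinarith)]
    ring
  rw [h1] at hs
  zify at hs ⊢
  have hm : (0:ℤ) ≤ b + k := by positivity
  have hbz : (0:ℤ) ≤ b := by positivity
  have hkz : (0:ℤ) ≤ k := by positivity
  have hlz : (0:ℤ) ≤ l := by positivity
  have e1 : 4 * ((k:ℤ) * b) ≤ (b + k) ^ 2 := by nlinarith [sq_nonneg ((b:ℤ) - k)]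
  have e2 : 4 * (((b:ℤ) + k) * (k * b)) ≤ (b + k) ^ 3 := by nlinarith
  set m : ℤ := b + k with hmdef
  set N : ℤ := m + l + 1 with hN
  have e3 : 0 ≤ (2 * N - 3 * m) ^ 2 * (4 * N + 3 * m) := by positivity
  have e4 : 4 * (s:ℤ) ≤ 4 * (m * 2 * (m + l)) + 4 * (m * (l * (2 * m + l))) + m ^ 3 := by
    nlinarith
  have hlN : (l:ℤ) = N - m - 1 := by rw [hN]; ring
  rw [hlN] at e4
  have e5 : (m:ℤ) + l + 1 = N := rfl
  have : 9 * (4 * (s:ℤ)) ≤ 16 * N ^ 3 := by nlinarith
  nlinarith

theorem card_condSet : 9 * (condSet P).card ≤ 4 * (Fintype.card P + 1) ^ 3 := by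
  classical
  set nonmin : Finset P := Finset.univ.filter (fun p => ¬ IsMin p) with hnon
  set one : Finset P := nonmin.filter (fun p => OneBelow p) with hone
  set two : Finset P := nonmin.filter (fun b => (Finset.univ.filter (fun e => e < b)).card ≤ 2)
    with htwo
  set low : P → Finset P := fun b => Finset.univ.filter (fun e => e < b) with hlow
  have hmem : ∀ p, p ∈ nonmin ↔ ¬ IsMin p := by
    intro p
    rw [hnon, Finset.mem_filter]
    exact ⟨fun h => h.2, fun h => ⟨Finset.mem_univ _, h⟩⟩
  have hone_le : one.card ≤ nonmin.card := Finset.card_filter_le _ _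
  have hnon_le : nonmin.card ≤ Fintype.card P := Finset.card_le_univ _
  have htwo_le : two.card ≤ nonmin.card := Finset.card_filter_le _ _
  apply arith_bound (Fintype.card P) nonmin.card one.card (condSet P).card hnon_le hone_le
  set SA : Finset (P × P × P) := Finset.univ.filter (fun t => ∃ b, Below2 t.1 t.2.2 b) with hSA
  set SB : Finset (P × P × P) := nonmin ×ˢ ((Finset.univ ×ˢ Finset.univ) \ (nonmin ×ˢ nonmin))
    with hSB
  set SC : Finset (P × P × P) := nonmin ×ˢ ((nonmin \ one) ×ˢ one) with hSC
  have hsub : condSet P ⊆ SA ∪ SB ∪ SC := by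
    intro t ht
    have ht' : Cond t.1 t.2.1 t.2.2 := by
      simpa [condSet] using ht
    rcases ht' with h | ⟨h1, h2⟩ | ⟨h1, ⟨h2, h3⟩, h4⟩
    · exact Finset.mem_union_left _ (Finset.mem_union_left _ (by simp [hSA, h]))
    · refine Finset.mem_union_left _ (Finset.mem_union_right _ ?_)
      rw [hSB, Finset.mem_product, Finset.mem_sdiff, Finset.mem_product, Finset.mem_product]
      refine ⟨(hmem _).mpr h1, ⟨Finset.mem_univ _, Finset.mem_univ _⟩, ?_⟩
      rintro ⟨h5, h6⟩
      rcases h2 with h2 | h2
      · exact (hmem _).mp h5 h2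
      · exact (hmem _).mp h6 h2
    · refine Finset.mem_union_right _ ?_
      rw [hSC, Finset.mem_product, Finset.mem_product, Finset.mem_sdiff]
      have hr : ¬ IsMin t.2.2 := by
        obtain ⟨e, he⟩ := h4
        exact not_isMin_iff.mpr ⟨e, (he e).mpr rfl⟩
      refine ⟨(hmem _).mpr h1, ⟨(hmem _).mpr h2, ?_⟩, ?_⟩
      · intro h5
        rw [hone, Finset.mem_filter] at h5
        exact h3 h5.2
      · rw [hone, Finset.mem_filter]
        exact ⟨(hmem _).mpr hr, h4⟩
  have hA : SA.card ≤ nonmin.card * 2 * Fintype.card P := by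
    have hch : ∀ t : P × P × P, ∃ b : P, t ∈ SA → Below2 t.1 t.2.2 b := by
      intro t
      by_cases h : t ∈ SA
      · obtain ⟨b, hb⟩ : ∃ b, Below2 t.1 t.2.2 b := by simpa [hSA] using h
        exact ⟨b, fun _ => hb⟩
      · exact ⟨t.1, fun h' => absurd h' h⟩
    choose f hf using hch
    have h1 : SA.card ≤ ((two.sigma low) ×ˢ (Finset.univ : Finset P)).card := by
      apply Finset.card_le_card_of_injOn (fun t => ((⟨f t, t.1⟩ : Σ _ : P, P), t.2.1))
      · intro t ht
        have hb := hf t ht
        rw [Finset.mem_coe, Finset.mem_product, Finset.mem_sigma]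
        refine ⟨⟨?_, ?_⟩, Finset.mem_univ _⟩
        · rw [htwo, Finset.mem_filter]
          refine ⟨?_, ?_⟩
          · exact (hmem _).mpr (not_isMin_iff.mpr ⟨t.1, (hb _).mpr (Or.inl rfl)⟩)
          · have : (Finset.univ.filter (fun e => e < f t)) ⊆ {t.1, t.2.2} := by
              intro e he
              rw [Finset.mem_filter] at he
              rw [Finset.mem_insert, Finset.mem_singleton]
              exact (hb e).mp he.2
            exact (Finset.card_le_card this).trans Finset.card_le_two
        · rw [hlow, Finset.mem_filter]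
          exact ⟨Finset.mem_univ _, (hb _).mpr (Or.inl rfl)⟩
      · rintro ⟨p, q, r⟩ ht ⟨p', q', r'⟩ ht' heq
        have hb := hf _ ht
        have hb' := hf _ ht'
        simp only [Prod.mk.injEq, Sigma.mk.injEq, heq_eq_eq] at heq
        obtain ⟨⟨h1, h2⟩, h3⟩ := heq
        subst h2 h3
        rw [← h1] at hb'
        have h4 : r = p ∨ r = r' := (hb' r).mp ((hb r).mpr (Or.inr rfl))
        have h5 : r' = p ∨ r' = r := (hb r').mp ((hb' r').mpr (Or.inr rfl))
        have : r = r' := by
          rcases h4 with h4 | h4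
          · rcases h5 with h5 | h5
            · rw [h4, h5]
            · exact h5.symm
          · exact h4
        rw [this]
    rw [Finset.card_product, Finset.card_sigma, Finset.card_univ] at h1
    have h2 : ∑ b ∈ two, (low b).card ≤ two.card * 2 := by
      rw [← smul_eq_mul]
      apply Finset.sum_le_card_nsmul
      intro b hb
      rw [htwo, Finset.mem_filter] at hb
      exact hb.2
    exact h1.trans (Nat.mul_le_mul_right _ (h2.trans (Nat.mul_le_mul_right _ htwo_le)))
  have hB : SB.card = nonmin.card * (Fintype.card P * Fintype.card P - nonmin.card * nonmin.card) := by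
    rw [hSB, Finset.card_product, Finset.card_sdiff_of_subset (Finset.product_subset_product
      (Finset.subset_univ _) (Finset.subset_univ _)), Finset.card_product, Finset.card_product,
      Finset.card_univ]
  have hC : SC.card = nonmin.card * ((nonmin.card - one.card) * one.card) := by
    rw [hSC, Finset.card_product, Finset.card_product, Finset.card_sdiff_of_subset
      (Finset.filter_subset _ _)]
  calc (condSet P).card ≤ (SA ∪ SB ∪ SC).card := Finset.card_le_card hsub
    _ ≤ (SA ∪ SB).card + SC.card := Finset.card_union_le _ _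
    _ ≤ SA.card + SB.card + SC.card := Nat.add_le_add_right (Finset.card_union_le _ _) _
    _ ≤ _ := by rw [hB, hC]; exact Nat.add_le_add_right (Nat.add_le_add_right hA _) _

end

end Pool.Agent.Lib.MP_54b7d9_co
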