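import Pool.Agent.Lib.MP_54b7d9_co.Bound
import Pool.Agent.Lib.MP_54b7d9_co.UpperCount

set_option autoImplicit false

namespace Pool.Agent.Lib.MP_54b7d9_co

section
variable {P : Type} [Fintype P] [PartialOrder P]

/-- a labeling restricted to the positions of the labels `1, …, n` -/
noncomputable def restrict {n : ℕ} (L : P → ℕ) (hL : IsLabeling L) (hn : Fintype.card P = n + 3)
    {p q r : P} (hp : L p = n + 1) (hq : L q = n + 2) (hr : L r = n + 3) :
    {x : P // x ≠ p ∧ x ≠ q ∧ x ≠ r} ≃ Fin n :=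
  Equiv.ofBijective (fun x => ⟨L x.1 - 1, by
    have h1 := hL.pos x.1
    have h2 := hL.le x.1
    have h3 : L x.1 ≠ L p := fun h => x.2.1 (hL.inj h)
    have h4 : L x.1 ≠ L q := fun h => x.2.2.1 (hL.inj h)
    have h5 : L x.1 ≠ L r := fun h => x.2.2.2 (hL.inj h)
    omega⟩) (by
    constructor
    · intro x y hxy
      have h := congrArg Fin.val hxy
      simp only at h
      have h1 := hL.pos x.1
      have h2 := hL.pos y.1
      exact Subtype.ext (hL.inj (by omega))
    · intro i
      obtain ⟨x, _, hx⟩ := hL.surjOn (show (i : ℕ) + 1 ∈ Set.Icc 1 (Fintype.card P) from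
        ⟨by omega, by have := i.2; omega⟩)
      have hi := i.2
      refine ⟨⟨x, ?_, ?_, ?_⟩, ?_⟩
      · rintro rfl; omega
      · rintro rfl; omega
      · rintro rfl; omega
      · apply Fin.ext
        simp only
        omega)

theorem restrict_apply {n : ℕ} (L : P → ℕ) (hL : IsLabeling L) (hn : Fintype.card P = n + 3)
    {p q r : P} (hp : L p = n + 1) (hq : L q = n + 2) (hr : L r = n + 3)
    (x : {x : P // x ≠ p ∧ x ≠ q ∧ x ≠ r}) :
    ((restrict L hL hn hp hq hr x : Fin n) : ℕ) = L x.1 - 1 := rfl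

theorem quasiCount_le_of {n : ℕ} (hn : Fintype.card P = n + 3) (S : Finset (P × P × P))
    (hS : ∀ L : P → ℕ, IsLabeling L → QuasiTangled L → ∀ p q r : P, L p = n + 1 → L q = n + 2 →
      L r = n + 3 → (p, q, r) ∈ S) :
    quasiCount P ≤ n.factorial * S.card := by
  classical
  have hfin : Finite {L : P → ℕ // IsLabeling L ∧ QuasiTangled L} := finite_quasi
  let _ : Fintype {L : P → ℕ // IsLabeling L ∧ QuasiTangled L} := Fintype.ofFinite _
  have hex : ∀ L : {L : P → ℕ // IsLabeling L ∧ QuasiTangled L}, ∃ t : P × P × P,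
      L.1 t.1 = n + 1 ∧ L.1 t.2.1 = n + 2 ∧ L.1 t.2.2 = n + 3 := by
    intro L
    obtain ⟨p, _, hp⟩ := L.2.1.surjOn (show n + 1 ∈ Set.Icc 1 (Fintype.card P) from
      ⟨by omega, by omega⟩)
    obtain ⟨q, _, hq⟩ := L.2.1.surjOn (show n + 2 ∈ Set.Icc 1 (Fintype.card P) from
      ⟨by omega, by omega⟩)
    obtain ⟨r, _, hr⟩ := L.2.1.surjOn (show n + 3 ∈ Set.Icc 1 (Fintype.card P) from
      ⟨by omega, by omega⟩)
    exact ⟨(p, q, r), hp, hq, hr⟩
  choose g hg using hex
  unfold quasiCount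
  rw [Nat.card_eq_fintype_card, ← Finset.card_univ]
  apply Finset.card_le_mul_card_image_of_maps_to (f := g)
  · intro L _
    obtain ⟨h1, h2, h3⟩ := hg L
    exact hS L.1 L.2.1 L.2.2 _ _ _ h1 h2 h3
  · rintro ⟨p, q, r⟩ _
    rw [← Fintype.card_subtype]
    by_cases hne : Nonempty {L : {L : P → ℕ // IsLabeling L ∧ QuasiTangled L} // g L = (p, q, r)}
    · have hh : ∀ L : {L : {L : P → ℕ // IsLabeling L ∧ QuasiTangled L} // g L = (p, q, r)},
          L.1.1 p = n + 1 ∧ L.1.1 q = n + 2 ∧ L.1.1 r = n + 3 := by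
        intro L
        have := hg L.1
        rw [L.2] at this
        exact this
      obtain ⟨L0⟩ := hne
      let e0 := restrict L0.1.1 L0.1.2.1 hn (hh L0).1 (hh L0).2.1 (hh L0).2.2
      have hcard : Fintype.card ({x : P // x ≠ p ∧ x ≠ q ∧ x ≠ r} ≃ Fin n) = n.factorial := by
        rw [Fintype.card_equiv e0, Fintype.card_congr e0, Fintype.card_fin]
      rw [← hcard]
      apply Fintype.card_le_of_injective
        (fun L => restrict L.1.1 L.1.2.1 hn (hh L).1 (hh L).2.1 (hh L).2.2)
      intro L L' hLL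
      apply Subtype.ext
      apply Subtype.ext
      funext x
      by_cases hx : x ≠ p ∧ x ≠ q ∧ x ≠ r
      · have h1 := congrArg (fun e => ((e ⟨x, hx⟩ : Fin n) : ℕ)) hLL
        simp only [restrict_apply] at h1
        have h2 := L.1.2.1.pos x
        have h3 := L'.1.2.1.pos x
        omega
      · obtain ⟨a1, a2, a3⟩ := hh L
        obtain ⟨b1, b2, b3⟩ := hh L'
        by_cases hxp : x = p
        · rw [hxp, a1, b1]
        · by_cases hxq : x = q
          · rw [hxq, a2, b2]
          · by_cases hxr : x = r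
            · rw [hxr, a3, b3]
            · exact absurd ⟨hxp, hxq, hxr⟩ hx
    · rw [not_nonempty_iff] at hne
      rw [Fintype.card_eq_zero]
      exact Nat.zero_le _

theorem quasiCount_le {n : ℕ} (hn : Fintype.card P = n + 3) :
    quasiCount P ≤ n.factorial * (condSet P).card := by
  apply quasiCount_le_of hn
  intro L hL hq p q r hp hqq hr
  simp only [condSet, Finset.mem_filter, Finset.mem_univ, true_and]
  exact cond_of_quasi hL hq hn hp hqq hr

end

theorem maxQuasi_mem (n : ℕ) : ∃ o : PartialOrder (Fin n), maxQuasi n = @quasiCount (Fin n) _ o := by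
  have hne : {q : ℕ | ∃ o : PartialOrder (Fin n), q = @quasiCount (Fin n) _ o}.Nonempty :=
    ⟨_, twoChain n, rfl⟩
  have hbdd : BddAbove {q : ℕ | ∃ o : PartialOrder (Fin n), q = @quasiCount (Fin n) _ o} := by
    refine ⟨Nat.card (Fin n → Fin (n + 1)), ?_⟩
    rintro q ⟨o', rfl⟩
    unfold quasiCount
    apply Nat.card_le_card_of_injective (fun L => (fun p => (⟨L.1 p, by
      have := (L.2.1.mapsTo (Set.mem_univ p)).2
      rw [Fintype.card_fin] at this
      omega⟩ : Fin (n + 1))))
    intro L L' h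
    apply Subtype.ext
    funext p
    have := congrFun h p
    simpa using this
  exact Nat.sSup_mem hne hbdd

theorem upper_main (n : ℕ) (hn : 3 ≤ n) :
    9 * maxQuasi n ≤ 4 * (n + 1) ^ 3 * (n - 3).factorial := by
  obtain ⟨o, ho⟩ := maxQuasi_mem n
  rw [ho]
  obtain ⟨k, rfl⟩ := Nat.exists_eq_add_of_le' hn
  let _ := o
  have h1 := quasiCount_le (P := Fin (k + 3)) (n := k) (Fintype.card_fin _)
  have h2 := card_condSet (P := Fin (k + 3))
  rw [Fintype.card_fin] at h2
  rw [Nat.add_sub_cancel]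
  calc 9 * quasiCount (Fin (k + 3)) ≤ 9 * (k.factorial * (condSet (Fin (k + 3))).card) :=
        Nat.mul_le_mul_left _ h1
    _ = (9 * (condSet (Fin (k + 3))).card) * k.factorial := by ring
    _ ≤ 4 * (k + 3 + 1) ^ 3 * k.factorial := Nat.mul_le_mul_right _ h2

end Pool.Agent.Lib.MP_54b7d9_co
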